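import Pool.Agent.SDE.Final

/-!
The superdiffusive exponent from a lower bound for the bridges: if B T is at least c T ^ (-1 / 4), then every window
contains a length N with mean square end-to-end distance at least N ^ (1 + κ) / K, for every κ < 1 / 10.
-/

set_option autoImplicit false

namespace HexObs

open Finset ENNReal

namespace SDE

open LP in
/-- (S2) with any θ < 1.32 and any lower bound T ^ (-α) for the bridges -/
theorem s2_of_bT {α θ : ℝ} (hα : α < 1) (hθ : 1 < θ) (hθ' : θ < 1.32)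
    (hB : ∃ c : ℝ, 0 < c ∧ ∀ T : ℕ, 1 ≤ T → c * (T : ℝ) ^ (-α) ≤ (BT T).toReal) :
    ∃ C : ℝ, 0 < C ∧ ∀ T : ℕ, 1 ≤ T → ∑' t : Brd T, (t.1.length : ℝ≥0∞) * wE t.1 ≤
      ENNReal.ofReal (C * (T : ℝ) ^ (2 - (1 - 1 / θ) * (1 - α))) * BT T := by
  obtain ⟨C1, _, h10⟩ := LL_log (θ := θ) (by linarith) hθ'
  obtain ⟨C2, hC2, h1⟩ := KT_le
  obtain ⟨C3, _, h2⟩ := kT_double
  obtain ⟨C4, hC4, h4⟩ := TbT_le
  obtain ⟨c5, hc5, h5⟩ := hB
  have h1' : ∀ T : ℕ, 1 ≤ T → kT T ≤ C2 * (T * bT T) := by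
    intro T hT
    have h := ENNReal.toReal_mono ENNReal.ofReal_ne_top (h1 T hT)
    have hn : 0 ≤ C2 * T * uu T := by
      have : 0 ≤ uu T := ENNReal.toReal_nonneg
      positivity
    rw [ENNReal.toReal_ofReal hn] at h
    calc kT T = (LP.KT T).toReal := rfl
      _ ≤ C2 * T * uu T := h
      _ = C2 * (T * bT T) := by rw [mul_assoc]; rfl
  have h3 : ∀ T : ℕ, 1 ≤ T → (c5 / C4) * (T : ℝ) ^ (1 - α) ≤ kT T := by
    intro T hT
    have hT0 : (0 : ℝ) < T := by exact_mod_cast hT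
    have a1 := h4 T hT
    have a2 := h5 T hT
    have a3 : (T : ℝ) ^ (1 - α) = T * (T : ℝ) ^ (-α) := by
      nth_rewrite 2 [← Real.rpow_one (T : ℝ)]
      rw [← Real.rpow_add hT0]
      congr 1
    have a4 : T * (c5 * (T : ℝ) ^ (-α)) ≤ C4 * kT T :=
      (mul_le_mul_of_nonneg_left a2 hT0.le).trans a1
    rw [a3, div_mul_eq_mul_div, div_le_iff₀ hC4]
    linarith
  exact S2_of (ρ := θ) (κ := 1 - α) hθ (by linarith) (by positivity : 0 < c5 / C4) h10 h1' h2 h3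

/-- any exponent below 11 / 10 in every window, from B T at least c T ^ (-1 / 4) -/
theorem superdiffusive_of_quarter
    (hB : ∃ c : ℝ, 0 < c ∧ ∀ T : ℕ, 1 ≤ T → c * (T : ℝ) ^ (-(1 / 4) : ℝ) ≤ (BT T).toReal)
    {κ : ℝ} (hκ0 : 0 ≤ κ) (hκ : κ < 1 / 10) :
    ∃ δ K : ℝ, 0 < δ ∧ δ < 1 ∧ 0 < K ∧ ∀ n : ℕ, 1 ≤ n → ∃ N : ℕ, n ≤ N ∧
      (N : ℝ) ≤ n + K * (n : ℝ) ^ (1 - δ) ∧ (N : ℝ) ^ (1 + κ) ≤ K * RW N := by
  -- the ratio θ
  obtain ⟨v, hv⟩ : ∃ v : ℝ, v = 1 - 8 / 3 * (κ / (1 + κ)) := ⟨_, rfl⟩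
  have h1κ : 0 < 1 + κ := by linarith
  have hr0 : 0 ≤ κ / (1 + κ) := by positivity
  have hr : κ / (1 + κ) < 1 / 11 := by
    rw [div_lt_iff₀ h1κ]; linarith
  have hv1 : v ≤ 1 := by rw [hv]; linarith
  have hv2 : 25 / 33 < v := by rw [hv]; linarith
  have hv0 : 0 < v := by linarith
  have hiv1 : 1 ≤ 1 / v := by rw [le_div_iff₀ hv0]; linarith
  have hiv2 : 1 / v < 1.32 := by
    rw [div_lt_iff₀ hv0]
    linarith
  obtain ⟨θ, hθ⟩ : ∃ θ : ℝ, θ = (1 / v + 1.32) / 2 := ⟨_, rfl⟩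
  have hθ1 : 1 / v < θ := by rw [hθ]; linarith
  have hθ2 : θ < 1.32 := by rw [hθ]; linarith
  have hθ3 : 1 < θ := by linarith
  have hθ0 : 0 < θ := by linarith
  have hθv : 1 / θ < v := by
    rw [div_lt_iff₀ hv0] at hθ1
    rw [div_lt_iff₀ hθ0]
    linarith
  obtain ⟨C, hC, h⟩ := s2_of_bT (α := 1 / 4) (by norm_num) hθ3 hθ2 hB
  have e : (1 - 1 / θ) * (1 - 1 / 4) = 3 / 4 * (1 - 1 / θ) := by ring
  rw [e] at h
  have hi0 : 0 < 1 / θ := by positivity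
  refine transfer (C := C) (c := 3 / 4 * (1 - 1 / θ)) hC (by linarith) hκ0 ?_ h
  have h2c : 0 < 2 - 3 / 4 * (1 - 1 / θ) := by linarith
  rw [lt_div_iff₀ h2c]
  have h5 : 2 * κ / (1 + κ) < 3 / 4 * (1 - 1 / θ) := by
    have : 2 * κ / (1 + κ) = 2 * (κ / (1 + κ)) := by ring
    rw [this]
    rw [hv] at hθv
    linarith
  rw [div_lt_iff₀ h1κ] at h5
  linarith

end SDE

end HexObs
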