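import Pool.Agent.PHW.FirstCut
import Pool.Agent.PHW.Num1
import Pool.Agent.PHW.Num2
import Pool.Agent.W47.Numbers

/-!
SD13, first passage bridges of the honeycomb lattice: if the mean length of the critical bridges of height T is at
most C T ^ (2 - c), then the first passage bridges over s with at most K s ^ (2 - c) vertices have critical weight at
least 1 / 4.
-/

set_option autoImplicit false

namespace HexObs

open Finset ENNReal

namespace FPS

/-- damping factor of a word -/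
noncomputable def dmp (δ : ℝ) (t : List Bool) : ℝ≥0∞ := ENNReal.ofReal (Real.exp (-(δ * t.length)))

/-- damped weight -/
noncomputable def wd (δ : ℝ) (t : List Bool) : ℝ≥0∞ := wE t * dmp δ t

/-- damped generating function -/
noncomputable def gd (δ : ℝ) (P : Set (List Bool)) : ℝ≥0∞ := ∑' t : P, wd δ t

lemma dmp_append (δ : ℝ) (a b : List Bool) : dmp δ (a ++ b) = dmp δ a * dmp δ b := by
  unfold dmp
  rw [← ENNReal.ofReal_mul (Real.exp_pos _).le, ← Real.exp_add, List.length_append]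
  congr 2
  push_cast
  ring

lemma wd_append (δ : ℝ) (a b : List Bool) : wd δ (a ++ b) = wd δ a * wd δ b := by
  unfold wd
  rw [wE_append, dmp_append]
  ring

lemma dmp_le_one {δ : ℝ} (hδ : 0 ≤ δ) (t : List Bool) : dmp δ t ≤ 1 := by
  unfold dmp
  rw [← ENNReal.ofReal_one]
  apply ENNReal.ofReal_le_ofReal
  rw [Real.exp_le_one_iff]
  have : 0 ≤ δ * t.length := by positivity
  linarith

lemma wd_le {δ : ℝ} (hδ : 0 ≤ δ) (t : List Bool) : wd δ t ≤ wE t := by
  unfold wd
  calc wE t * dmp δ t ≤ wE t * 1 := mul_le_mul_right (dmp_le_one hδ t) _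
    _ = wE t := mul_one _

lemma gd_le {δ : ℝ} (hδ : 0 ≤ δ) (P : Set (List Bool)) : gd δ P ≤ gf P :=
  ENNReal.tsum_le_tsum fun t => wd_le hδ t

/-- every word of P splits into a word of Q and a word of R. -/
lemma gd_le_mul {δ : ℝ} {P Q R : Set (List Bool)} (h : ∀ t ∈ P, ∃ a ∈ Q, ∃ b ∈ R, t = a ++ b) :
    gd δ P ≤ gd δ Q * gd δ R := by
  classical
  unfold gd
  rw [← ENNReal.tsum_mul_right]
  simp_rw [← ENNReal.tsum_mul_left]
  rw [← ENNReal.tsum_prod]
  choose! f hf g hg hfg using h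
  let ψ : P → Q × R := fun t => (⟨f t, hf t t.2⟩, ⟨g t, hg t t.2⟩)
  have hψ : Function.Injective ψ := by
    intro a b hab
    have h1 : f a = f b := congrArg (fun p => (p.1 : List Bool)) hab
    have h2 : g a = g b := congrArg (fun p => (p.2 : List Bool)) hab
    apply Subtype.ext
    rw [hfg a a.2, hfg b b.2, h1, h2]
  calc ∑' t : P, wd δ t = ∑' t : P, wd δ (ψ t).1 * wd δ (ψ t).2 := by
        apply tsum_congr
        intro t
        rw [← wd_append]
        show wd δ t = wd δ (f t ++ g t)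
        rw [← hfg t t.2]
    _ ≤ ∑' p : Q × R, wd δ p.1 * wd δ p.2 :=
        ENNReal.tsum_comp_le_tsum_of_injective hψ (fun p : Q × R => wd δ p.1 * wd δ p.2)

/-- first passage bridges over s -/
def FP (s : ℕ) : Set (List Bool) := {t | ∃ j, t ∈ FC s j}

lemma FP_eq (s : ℕ) : FP s = ⋃ j, FC s j := by
  ext t
  rw [Set.mem_iUnion]
  rfl

lemma gd_ind (δ : ℝ) (P : Set (List Bool)) : gd δ P = ∑' t : List Bool, P.indicator (wd δ) t :=
  tsum_subtype P (wd δ)

/-- disjoint finite unions -/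
lemma sum_gd_FC_le (δ : ℝ) (s : ℕ) (J : Finset ℕ) : ∑ j ∈ J, gd δ (FC s j) ≤ gd δ (FP s) := by
  simp_rw [gd_ind]
  rw [← Summable.tsum_finsetSum (fun j _ => ENNReal.summable)]
  apply ENNReal.tsum_le_tsum
  intro t
  by_cases h : ∃ j ∈ J, t ∈ FC s j
  · obtain ⟨j, hj, ht⟩ := h
    rw [Finset.sum_eq_single_of_mem j hj, Set.indicator_of_mem ht, Set.indicator_of_mem (show t ∈ FP s from ⟨j, ht⟩)]
    intro i hi hij
    apply Set.indicator_of_notMem
    intro hti
    exact hij (Brd_height hti.1 ht.1)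
  · rw [Finset.sum_eq_zero]
    · exact zero_le
    · intro j hj
      apply Set.indicator_of_notMem
      intro ht
      exact h ⟨j, hj, ht⟩

/-- decomposition at the first cut above s, damped -/
lemma gd_Brd_le (δ : ℝ) {s n : ℕ} (h : s ≤ n) :
    gd δ (Brd n) ≤ ∑ j ∈ Finset.Icc s n, gd δ (FC s j) * gd δ (Brd (n - j)) := by
  classical
  let C : Finset.Icc s n → Set (List Bool) := fun j =>
    {t | ∃ a ∈ FC s (j : ℕ), ∃ u ∈ Brd (n - (j : ℕ)), t = a ++ u}
  have h1 : Brd n ⊆ ⋃ j, C j := by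
    intro t ht
    obtain ⟨j, a, u, h1, h2, ha, hu, htau⟩ := FC_dec h ht
    rw [Set.mem_iUnion]
    exact ⟨⟨j, Finset.mem_Icc.2 ⟨h1, h2⟩⟩, a, ha, u, hu, htau⟩
  have h2 : ∀ j, gd δ (C j) ≤ gd δ (FC s (j : ℕ)) * gd δ (Brd (n - (j : ℕ))) :=
    fun j => gd_le_mul fun t ht => ht
  calc gd δ (Brd n) ≤ gd δ (⋃ j, C j) := ENNReal.tsum_mono_subtype (wd δ) h1
    _ ≤ ∑ j, gd δ (C j) := ENNReal.tsum_iUnion_le (wd δ) C
    _ ≤ ∑ j : Finset.Icc s n, gd δ (FC s (j : ℕ)) * gd δ (Brd (n - (j : ℕ))) := Finset.sum_le_sum fun j _ => h2 j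
    _ = ∑ j ∈ Finset.Icc s n, gd δ (FC s j) * gd δ (Brd (n - j)) :=
        Finset.sum_coe_sort (Finset.Icc s n) (fun j => gd δ (FC s j) * gd δ (Brd (n - j)))

/-- sum over the heights s, ..., M -/
lemma sum_Brd_le (δ : ℝ) (s M : ℕ) :
    ∑ n ∈ Finset.Icc s M, gd δ (Brd n) ≤ gd δ (FP s) * ∑ m ∈ Finset.range (M + 1), gd δ (Brd m) := by
  classical
  calc ∑ n ∈ Finset.Icc s M, gd δ (Brd n)
      ≤ ∑ n ∈ Finset.Icc s M, ∑ j ∈ Finset.Icc s n, gd δ (FC s j) * gd δ (Brd (n - j)) :=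
        Finset.sum_le_sum fun n hn => gd_Brd_le δ (Finset.mem_Icc.1 hn).1
    _ = ∑ j ∈ Finset.Icc s M, ∑ n ∈ Finset.Icc j M, gd δ (FC s j) * gd δ (Brd (n - j)) := by
        apply Finset.sum_comm'
        intro n j
        simp only [Finset.mem_Icc]
        omega
    _ ≤ ∑ j ∈ Finset.Icc s M, gd δ (FC s j) * ∑ m ∈ Finset.range (M + 1), gd δ (Brd m) := by
        apply Finset.sum_le_sum
        intro j hj
        rw [← Finset.mul_sum]
        apply mul_le_mul_right
        have hinj : Set.InjOn (fun n => n - j) (Finset.Icc j M : Set ℕ) := by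
          intro a ha b hb hab
          simp only [Finset.coe_Icc, Set.mem_Icc] at ha hb hab
          omega
        rw [← Finset.sum_image (f := fun m => gd δ (Brd m)) (g := fun n => n - j) (by
          intro a ha b hb hab
          exact hinj ha hb hab)]
        apply Finset.sum_le_sum_of_subset
        intro m hm
        rw [Finset.mem_image] at hm
        obtain ⟨n, hn, rfl⟩ := hm
        rw [Finset.mem_Icc] at hn
        rw [Finset.mem_range]
        omega
    _ = (∑ j ∈ Finset.Icc s M, gd δ (FC s j)) * ∑ m ∈ Finset.range (M + 1), gd δ (Brd m) := by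
        rw [Finset.sum_mul]
    _ ≤ gd δ (FP s) * ∑ m ∈ Finset.range (M + 1), gd δ (Brd m) :=
        mul_le_mul_left (sum_gd_FC_le δ s _) _

lemma BT_one (T : ℕ) : BT T ≤ 1 := by
  rcases Nat.eq_zero_or_pos T with rfl | h
  · have h0 : uu 0 = 1 := uu_zero
    by_contra hc
    have h1 : (BT 0).toReal = 1 := h0
    have h2 : BT 0 ≠ ∞ := by
      intro h
      rw [h, ENNReal.toReal_top] at h1
      exact zero_ne_one h1
    have h3 : BT 0 = 1 := by
      rw [← ENNReal.ofReal_toReal h2, h1, ENNReal.ofReal_one]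
    rw [h3] at hc
    exact hc le_rfl
  · exact BT_le_one h

lemma BT_fin (T : ℕ) : BT T ≠ ∞ := ne_top_of_le_ne_top ENNReal.one_ne_top (BT_one T)

lemma BT_uu (T : ℕ) : BT T = ENNReal.ofReal (uu T) := (ENNReal.ofReal_toReal (BT_fin T)).symm

lemma BT_anti {a b : ℕ} (h : a ≤ b) : BT b ≤ BT a := by
  rw [BT_uu, BT_uu]
  exact ENNReal.ofReal_le_ofReal (uu_anti h)

/-- the critical weight of the first passage bridges is at most one -/
lemma gf_FP_le (s : ℕ) : gf (FP s) ≤ 1 := by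
  have h1 : gf (FP s) ≤ ∑' j, gf (FC s j) := by
    rw [FP_eq]
    exact ENNReal.tsum_iUnion_le_tsum wE (FC s)
  refine h1.trans ?_
  rw [ENNReal.tsum_eq_iSup_nat]
  apply iSup_le
  intro J
  have hn : s ≤ s + J := by omega
  have h2 := gf_FC Set.univ hn
  have h3 : ∑ j ∈ Finset.range J, gf (FC s j) ≤ ∑ j ∈ Finset.Icc s (s + J), gf (FC s j) := by
    have h4 : ∀ j ∈ Finset.range J, j ∉ Finset.Icc s (s + J) → gf (FC s j) = 0 := by
      intro j hj hj'
      rw [Finset.mem_range] at hj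
      rw [Finset.mem_Icc] at hj'
      have h5 : FC s j = ∅ := by
        ext t
        simp only [Set.mem_empty_iff_false, iff_false]
        intro ht
        have := ht.2.1
        omega
      rw [h5]
      simp [gf]
    calc ∑ j ∈ Finset.range J, gf (FC s j) = ∑ j ∈ (Finset.range J).filter (fun j => j ∈ Finset.Icc s (s + J)), gf (FC s j) := by
          rw [Finset.sum_filter]
          apply Finset.sum_congr rfl
          intro j hj
          split_ifs with h
          · rfl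
          · exact h4 j hj h
      _ ≤ ∑ j ∈ Finset.Icc s (s + J), gf (FC s j) := by
          apply Finset.sum_le_sum_of_subset
          intro j hj
          exact (Finset.mem_filter.1 hj).2
  have h5 : (∑ j ∈ Finset.Icc s (s + J), gf (FC s j)) * BT (s + J) ≤ 1 * BT (s + J) := by
    rw [one_mul]
    calc (∑ j ∈ Finset.Icc s (s + J), gf (FC s j)) * BT (s + J)
        = ∑ j ∈ Finset.Icc s (s + J), gf (FC s j) * BT (s + J) := Finset.sum_mul _ _ _
      _ ≤ ∑ j ∈ Finset.Icc s (s + J), gf (FC s j ∩ Set.univ) * BT (s + J - j) := by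
          apply Finset.sum_le_sum
          intro j _
          rw [Set.inter_univ]
          exact mul_le_mul_right (BT_anti (Nat.sub_le _ _)) _
      _ ≤ BT (s + J) := by
          rw [← h2, ← gf_Brd]
          exact gf_mono fun t ht => ht.1
  have h6 : BT (s + J) ≠ 0 := by
    rw [BT_uu]
    simpa using uu_pos (s + J)
  exact h3.trans ((ENNReal.mul_le_mul_iff_left h6 (BT_fin _)).1 h5)

/-- the damping costs at most a factor two if it is weaker than the mean length -/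
lemma half_BT_le {δ m : ℝ} (hδ : 0 ≤ δ) (hδm : δ * m ≤ 1 / 2) {T : ℕ}
    (h : ∑' t : Brd T, (t.1.length : ℝ≥0∞) * wE t ≤ ENNReal.ofReal m * BT T) : BT T ≤ 2 * gd δ (Brd T) := by
  have h1 : ∀ t : Brd T, wE t.1 ≤ wd δ t.1 + ENNReal.ofReal δ * ((t.1.length : ℝ≥0∞) * wE t.1) := by
    intro t
    unfold wd dmp
    have h2 : (1 : ℝ) ≤ Real.exp (-(δ * t.1.length)) + δ * t.1.length := by
      have := Real.add_one_le_exp (-(δ * t.1.length))
      linarith
    have h3 : (1 : ℝ≥0∞) ≤ ENNReal.ofReal (Real.exp (-(δ * t.1.length))) + ENNReal.ofReal δ * (t.1.length : ℝ≥0∞) := by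
      rw [← ENNReal.ofReal_natCast, ← ENNReal.ofReal_mul hδ, ← ENNReal.ofReal_add (Real.exp_pos _).le (by positivity),
        ← ENNReal.ofReal_one]
      exact ENNReal.ofReal_le_ofReal h2
    calc wE t.1 = wE t.1 * 1 := (mul_one _).symm
      _ ≤ wE t.1 * (ENNReal.ofReal (Real.exp (-(δ * t.1.length))) + ENNReal.ofReal δ * (t.1.length : ℝ≥0∞)) :=
          mul_le_mul_right h3 _
      _ = _ := by ring
  have h2 : BT T ≤ gd δ (Brd T) + ENNReal.ofReal δ * (ENNReal.ofReal m * BT T) := by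
    calc BT T = ∑' t : Brd T, wE t := (gf_Brd T).symm
      _ ≤ ∑' t : Brd T, (wd δ t.1 + ENNReal.ofReal δ * ((t.1.length : ℝ≥0∞) * wE t.1)) := ENNReal.tsum_le_tsum h1
      _ = gd δ (Brd T) + ENNReal.ofReal δ * ∑' t : Brd T, (t.1.length : ℝ≥0∞) * wE t := by
          rw [ENNReal.tsum_add, ENNReal.tsum_mul_left]
          rfl
      _ ≤ _ := add_le_add_right (mul_le_mul_right h _) _
  have h3 : ENNReal.ofReal δ * (ENNReal.ofReal m * BT T) ≤ ENNReal.ofReal (1 / 2) * BT T := by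
    rw [← mul_assoc, ← ENNReal.ofReal_mul hδ]
    exact mul_le_mul_left (ENNReal.ofReal_le_ofReal hδm) _
  have h4 := h2.trans (add_le_add_right h3 _)
  have hg : gd δ (Brd T) ≠ ∞ := ne_top_of_le_ne_top (BT_fin T) (by rw [← gf_Brd]; exact gd_le hδ _)
  obtain ⟨g, hg0, hg'⟩ : ∃ g : ℝ, 0 ≤ g ∧ gd δ (Brd T) = ENNReal.ofReal g :=
    ⟨_, ENNReal.toReal_nonneg, (ENNReal.ofReal_toReal hg).symm⟩
  rw [hg', BT_uu] at h4 ⊢
  have hu := (uu_pos T).le
  rw [← ENNReal.ofReal_mul (by norm_num), ← ENNReal.ofReal_add hg0 (by positivity),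
    ENNReal.ofReal_le_ofReal_iff (by positivity)] at h4
  rw [show (2 : ℝ≥0∞) = ENNReal.ofReal 2 by norm_num, ← ENNReal.ofReal_mul (by norm_num),
    ENNReal.ofReal_le_ofReal_iff (by positivity)]
  linarith

lemma sum_BT_range (n : ℕ) : ∑ m ∈ Finset.range (n + 1), BT m = ENNReal.ofReal (UU n) := by
  unfold UU
  rw [ENNReal.ofReal_sum_of_nonneg fun m _ => (uu_pos m).le]
  exact Finset.sum_congr rfl fun m _ => BT_uu m

/-- long first passage bridges -/
lemma gd_split {δ L : ℝ} (hδ : 0 ≤ δ) (hL : 1 ≤ δ * L) (s : ℕ) :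
    gd δ (FP s) ≤ gf {t | t ∈ FP s ∧ (t.length : ℝ) ≤ L} + ENNReal.ofReal (1 / 2) := by
  have h0 : ∀ t ∈ FP s, wd δ t ≤ Set.indicator {t | t ∈ FP s ∧ (t.length : ℝ) ≤ L} wE t +
      ENNReal.ofReal (1 / 2) * wE t := by
    intro t ht
    by_cases h : (t.length : ℝ) ≤ L
    · rw [Set.indicator_of_mem (show t ∈ {t | t ∈ FP s ∧ (t.length : ℝ) ≤ L} from ⟨ht, h⟩)]
      exact (wd_le hδ t).trans (le_add_of_nonneg_right zero_le)
    · refine le_trans ?_ (le_add_of_nonneg_left zero_le)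
      unfold wd
      rw [mul_comm]
      apply mul_le_mul_left
      unfold dmp
      apply ENNReal.ofReal_le_ofReal
      have h1 : (1 : ℝ) ≤ δ * t.length := hL.trans (mul_le_mul_of_nonneg_left (not_le.1 h).le hδ)
      have h2 : Real.exp (-(δ * t.length)) ≤ Real.exp (-1) := Real.exp_le_exp.2 (by linarith)
      have h3 : Real.exp (-1) ≤ 1 / 2 := by
        rw [Real.exp_neg, ← one_div]
        have := Real.add_one_le_exp (1 : ℝ)
        exact one_div_le_one_div_of_le (by norm_num) (by linarith)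
      exact h2.trans h3
  calc gd δ (FP s) ≤ ∑' t : FP s, (Set.indicator {t | t ∈ FP s ∧ (t.length : ℝ) ≤ L} wE t.1 +
        ENNReal.ofReal (1 / 2) * wE t.1) := ENNReal.tsum_le_tsum fun t => h0 t.1 t.2
    _ = ∑' t : FP s, Set.indicator {t | t ∈ FP s ∧ (t.length : ℝ) ≤ L} wE t.1 + ENNReal.ofReal (1 / 2) * gf (FP s) := by
        rw [ENNReal.tsum_add, ENNReal.tsum_mul_left]
        rfl
    _ ≤ gf {t | t ∈ FP s ∧ (t.length : ℝ) ≤ L} + ENNReal.ofReal (1 / 2) * 1 := by
        apply add_le_add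
        · unfold gf
          rw [tsum_subtype {t | t ∈ FP s ∧ (t.length : ℝ) ≤ L} wE]
          exact ENNReal.tsum_comp_le_tsum_of_injective (f := fun t : FP s => t.1) Subtype.val_injective
            (fun t => Set.indicator {t | t ∈ FP s ∧ (t.length : ℝ) ≤ L} wE t)
        · exact mul_le_mul_right (gf_FP_le s) _
    _ = _ := by rw [mul_one]

end FPS

open FPS

/-- **first passage bridges over s with at most K s ^ (2 - c) vertices have critical weight at least 1 / 4** -/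
theorem first_passage {C c : ℝ} (hC : 0 < C) (hc : c ≤ 2)
    (hS2 : ∀ T : ℕ, 1 ≤ T → ∑' t : Brd T, (t.1.length : ℝ≥0∞) * wE t ≤
      ENNReal.ofReal (C * (T : ℝ) ^ (2 - c)) * BT T) :
    ∃ K : ℝ, 0 < K ∧ ∀ s : ℕ, 1 ≤ s →
      ENNReal.ofReal (1 / 4) ≤ gf {t | t ∈ FP s ∧ (t.length : ℝ) ≤ K * (s : ℝ) ^ (2 - c)} := by
  have hCW := CW_pos
  obtain ⟨θ, hθ⟩ : ∃ θ : ℝ, θ = 1 / (6 + CW) := ⟨_, rfl⟩
  have hθ0 : 0 < θ := by rw [hθ]; positivity
  obtain ⟨A, hA1, hA⟩ : ∃ A : ℕ, 1 ≤ A ∧ (14 : ℝ) ≤ (A : ℝ) ^ θ := by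
    obtain ⟨A, hA⟩ := exists_nat_ge ((14 : ℝ) ^ (1 / θ))
    refine ⟨A + 1, by omega, ?_⟩
    have h1 : ((14 : ℝ) ^ (1 / θ)) ^ θ = 14 := by
      rw [← Real.rpow_mul (by norm_num), one_div, inv_mul_cancel₀ hθ0.ne', Real.rpow_one]
    rw [← h1]
    apply Real.rpow_le_rpow (by positivity) _ hθ0.le
    push_cast
    linarith
  refine ⟨2 * C * (A : ℝ) ^ (2 - c), by positivity, ?_⟩
  intro s hs
  have hs0 : (0 : ℝ) < s := by exact_mod_cast hs
  have hM0 : 0 < A * s := Nat.mul_pos hA1 hs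
  set M := A * s with hM
  have hMr : (0 : ℝ) < (M : ℝ) := by exact_mod_cast hM0
  have hsM : s ≤ M := by
    rw [hM]
    exact Nat.le_mul_of_pos_left s hA1
  -- growth
  have hg : 7 * UU s ≤ UU M := by
    have h1 := UU_growth hs hsM
    rw [← hθ] at h1
    have h2 : (M : ℝ) / s = A := by
      rw [hM]
      push_cast
      field_simp
    rw [h2] at h1
    have h3 : 0 ≤ UU s := Finset.sum_nonneg fun m _ => (uu_pos m).le
    have h4 : UU s * 14 ≤ UU s * (A : ℝ) ^ θ := mul_le_mul_of_nonneg_left hA h3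
    linarith
  -- damping
  obtain ⟨δ, hδ⟩ : ∃ δ : ℝ, δ = 1 / (2 * C * (M : ℝ) ^ (2 - c)) := ⟨_, rfl⟩
  have hMp : (0 : ℝ) < (M : ℝ) ^ (2 - c) := Real.rpow_pos_of_pos hMr _
  have hδ0 : 0 < δ := by rw [hδ]; positivity
  have hhalf : ∀ T : ℕ, 1 ≤ T → T ≤ M → BT T ≤ 2 * gd δ (Brd T) := by
    intro T hT hTM
    have hTr : (0 : ℝ) < T := by exact_mod_cast hT
    refine half_BT_le hδ0.le ?_ (hS2 T hT)
    have h1 : (T : ℝ) ^ (2 - c) ≤ (M : ℝ) ^ (2 - c) :=
      Real.rpow_le_rpow hTr.le (by exact_mod_cast hTM) (by linarith)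
    calc δ * (C * (T : ℝ) ^ (2 - c)) ≤ δ * (C * (M : ℝ) ^ (2 - c)) := by gcongr
      _ = 1 / 2 := by
          rw [hδ]
          field_simp
  -- sums
  have hsplit : ∑ m ∈ Finset.range (M + 1), gd δ (Brd m) =
      ∑ m ∈ Finset.range s, gd δ (Brd m) + ∑ m ∈ Finset.Icc s M, gd δ (Brd m) := by
    have h1 : Finset.Icc s M = Finset.Ico s (M + 1) := by
      ext m
      simp only [Finset.mem_Icc, Finset.mem_Ico]
      omega
    rw [h1, Finset.sum_range_add_sum_Ico _ (by omega)]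
  have hfin : ∀ m, gd δ (Brd m) ≠ ∞ := fun m =>
    ne_top_of_le_ne_top (BT_fin m) (by rw [← gf_Brd]; exact gd_le hδ0.le _)
  obtain ⟨a, ha0, ha⟩ : ∃ a : ℝ, 0 ≤ a ∧ ∑ m ∈ Finset.range s, gd δ (Brd m) = ENNReal.ofReal a :=
    ⟨_, ENNReal.toReal_nonneg, (ENNReal.ofReal_toReal (ENNReal.sum_ne_top.2 fun m _ => hfin m)).symm⟩
  obtain ⟨y, hy0, hy⟩ : ∃ y : ℝ, 0 ≤ y ∧ ∑ m ∈ Finset.Icc s M, gd δ (Brd m) = ENNReal.ofReal y :=
    ⟨_, ENNReal.toReal_nonneg, (ENNReal.ofReal_toReal (ENNReal.sum_ne_top.2 fun m _ => hfin m)).symm⟩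
  have haU : a ≤ UU s := by
    have h1 : ENNReal.ofReal a ≤ ENNReal.ofReal (UU s) := by
      rw [← ha, ← sum_BT_range]
      calc ∑ m ∈ Finset.range s, gd δ (Brd m) ≤ ∑ m ∈ Finset.range s, BT m :=
            Finset.sum_le_sum fun m _ => by rw [← gf_Brd]; exact gd_le hδ0.le _
        _ ≤ ∑ m ∈ Finset.range (s + 1), BT m :=
            Finset.sum_le_sum_of_subset (Finset.range_mono (by omega))
    exact (ENNReal.ofReal_le_ofReal_iff (Finset.sum_nonneg fun m _ => (uu_pos m).le)).1 h1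
  have hyU : UU M - UU s ≤ 2 * y := by
    have h1 : ENNReal.ofReal (UU M) ≤ ENNReal.ofReal (UU s) + 2 * ENNReal.ofReal y := by
      rw [← sum_BT_range, ← sum_BT_range, ← hy, Finset.mul_sum]
      have h2 : ∑ m ∈ Finset.range (M + 1), BT m = ∑ m ∈ Finset.range s, BT m + ∑ m ∈ Finset.Icc s M, BT m := by
        have h1 : Finset.Icc s M = Finset.Ico s (M + 1) := by
          ext m
          simp only [Finset.mem_Icc, Finset.mem_Ico]
          omega
        rw [h1, Finset.sum_range_add_sum_Ico _ (by omega)]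
      rw [h2]
      apply add_le_add
      · exact Finset.sum_le_sum_of_subset (Finset.range_mono (by omega))
      · apply Finset.sum_le_sum
        intro m hm
        rw [Finset.mem_Icc] at hm
        exact hhalf m (by omega) hm.2
    have hU0 : 0 ≤ UU s := Finset.sum_nonneg fun m _ => (uu_pos m).le
    rw [show (2 : ℝ≥0∞) = ENNReal.ofReal 2 by norm_num, ← ENNReal.ofReal_mul (by norm_num),
      ← ENNReal.ofReal_add hU0 (by positivity), ENNReal.ofReal_le_ofReal_iff (by positivity)] at h1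
    linarith
  have hU1 : 1 ≤ UU s := by
    unfold UU
    calc (1 : ℝ) = uu 0 := uu_zero.symm
      _ ≤ ∑ t ∈ Finset.range (s + 1), uu t :=
          Finset.single_le_sum (f := uu) (fun m _ => (uu_pos m).le) (Finset.mem_range.2 (by omega))
  have hay : 3 * a ≤ y := by linarith
  have hy1 : 0 < a + y := by linarith
  -- main inequality
  have hmain := sum_Brd_le δ s M
  rw [hsplit, ha, hy, ← ENNReal.ofReal_add ha0 hy0] at hmain
  have hF : ENNReal.ofReal (3 / 4) ≤ gd δ (FP s) := by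
    have h1 : ENNReal.ofReal (3 / 4) * ENNReal.ofReal (a + y) ≤ gd δ (FP s) * ENNReal.ofReal (a + y) := by
      refine le_trans ?_ hmain
      rw [← ENNReal.ofReal_mul (by norm_num)]
      apply ENNReal.ofReal_le_ofReal
      linarith
    exact (ENNReal.mul_le_mul_iff_left (by simpa using hy1) ENNReal.ofReal_ne_top).1 h1
  have hL : 1 ≤ δ * (2 * C * (A : ℝ) ^ (2 - c) * (s : ℝ) ^ (2 - c)) := by
    have h1 : (M : ℝ) ^ (2 - c) = (A : ℝ) ^ (2 - c) * (s : ℝ) ^ (2 - c) := by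
      rw [hM]
      push_cast
      rw [Real.mul_rpow (by positivity) (by positivity)]
    rw [hδ, h1]
    have h2 : (0 : ℝ) < (A : ℝ) ^ (2 - c) := Real.rpow_pos_of_pos (by exact_mod_cast hA1) _
    have h3 : (0 : ℝ) < (s : ℝ) ^ (2 - c) := Real.rpow_pos_of_pos hs0 _
    apply le_of_eq
    field_simp
  have hsp := hF.trans (gd_split hδ0.le hL s)
  have h34 : ENNReal.ofReal (3 / 4) = ENNReal.ofReal (1 / 4) + ENNReal.ofReal (1 / 2) := by
    rw [← ENNReal.ofReal_add (by norm_num) (by norm_num)]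
    norm_num
  rw [h34] at hsp
  exact (ENNReal.add_le_add_iff_right ENNReal.ofReal_ne_top).1 hsp

end HexObs
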