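import Pool.Agent.PHW.CuLog
import Pool.Agent.SDE.FirstPass

/-!
SD13, masses (M1): the disjoint pairs of bridges of heights below s, and (M2): bridges of heights in [s, 2 s] with at
most W letters.
-/

set_option autoImplicit false

namespace HexObs.SDE

open Finset ENNReal HexObs.FPS

lemma uu_nn (T : ℕ) : 0 ≤ uu T := (uu_pos T).le

lemma UU_nn (T : ℕ) : 0 ≤ UU T := Finset.sum_nonneg fun m _ => uu_nn m

lemma one_le_UU (T : ℕ) : 1 ≤ UU T := by
  unfold UU
  calc (1 : ℝ) = uu 0 := uu_zero.symm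
    _ ≤ ∑ t ∈ Finset.range (T + 1), uu t :=
        Finset.single_le_sum (f := uu) (fun m _ => uu_nn m) (Finset.mem_range.2 (by omega))

lemma UU_mono {a b : ℕ} (h : a ≤ b) : UU a ≤ UU b := by
  unfold UU
  exact Finset.sum_le_sum_of_subset_of_nonneg (Finset.range_mono (by omega)) fun m _ _ => uu_nn m

lemma mul_uu_le (T : ℕ) : (T : ℝ) * uu T ≤ UU T := by
  unfold UU
  calc (T : ℝ) * uu T ≤ ∑ _t ∈ Finset.range (T + 1), uu T := by
        rw [Finset.sum_const, Finset.card_range, nsmul_eq_mul]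
        push_cast
        nlinarith [uu_nn T]
    _ ≤ ∑ t ∈ Finset.range (T + 1), uu t := by
        apply Finset.sum_le_sum
        intro t ht
        rw [Finset.mem_range] at ht
        exact uu_anti (by omega)

lemma inv_sum (a : ℕ) {s : ℕ} (ha : a < s) :
    ∑ b ∈ Finset.Icc 1 a, (1 : ℝ) / b ≤ 2 * (1 + (Nat.log 2 s : ℝ)) := by
  have h1 : ∑ b ∈ Finset.Icc 1 a, (1 : ℝ) / b = (harmonic a : ℝ) := by
    rw [harmonic_eq_sum_Icc]
    push_cast
    exact Finset.sum_congr rfl fun b _ => by rw [one_div]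
  rw [h1]
  have h2 := harmonic_le_one_add_log a
  rcases Nat.eq_zero_or_pos a with h0 | h0
  · subst h0
    simp only [harmonic_zero, Rat.cast_zero]
    positivity
  have h3 : Real.log a ≤ 1 + (Nat.log 2 s : ℝ) := by
    have h4 : (a : ℝ) ≤ 2 ^ (Nat.log 2 s + 1) := by
      have := Nat.lt_pow_succ_log_self (b := 2) (by norm_num) s
      have h5 : a ≤ 2 ^ (Nat.log 2 s + 1) := by omega
      exact_mod_cast h5
    have h5 : (0 : ℝ) < a := by exact_mod_cast h0
    calc Real.log a ≤ Real.log ((2 : ℝ) ^ (Nat.log 2 s + 1)) := Real.log_le_log h5 h4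
      _ = (Nat.log 2 s + 1 : ℕ) * Real.log 2 := by rw [Real.log_pow]
      _ ≤ (Nat.log 2 s + 1 : ℕ) * 1 := by
          apply mul_le_mul_of_nonneg_left _ (Nat.cast_nonneg _)
          have := Real.log_two_lt_d9
          linarith
      _ = 1 + (Nat.log 2 s : ℝ) := by push_cast; ring
  have h6 : (0 : ℝ) ≤ (Nat.log 2 s : ℝ) := Nat.cast_nonneg _
  linarith

/-- **(M1)** -/
theorem sum_gg_le : ∃ C : ℝ, 0 < C ∧ ∀ s : ℕ, 1 ≤ s →
    ∑ a ∈ Finset.range s, ∑ b ∈ Finset.range s, gg a b ≤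
      ENNReal.ofReal (C * (1 + (Nat.log 2 s : ℝ)) ^ C * UU s) := by
  obtain ⟨C0, hC0, h0⟩ := cu_log
  refine ⟨4 + 4 * C0, by positivity, ?_⟩
  intro s hs
  set L : ℝ := 1 + (Nat.log 2 s : ℝ) with hL
  have hL1 : 1 ≤ L := by
    rw [hL]
    have : (0 : ℝ) ≤ (Nat.log 2 s : ℝ) := Nat.cast_nonneg _
    linarith
  have hLp : 0 < L ^ C0 := Real.rpow_pos_of_pos (by linarith) _
  -- one row
  have hrow : ∀ a ∈ Finset.range s, ∑ b ∈ Finset.range (a + 1), gg b a ≤
      ENNReal.ofReal (uu a * (1 + 2 * C0 * (L ^ C0 * L))) := by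
    intro a ha
    rw [Finset.mem_range] at ha
    have h1 : Finset.range (a + 1) = insert 0 (Finset.Icc 1 a) := by
      ext b
      simp only [Finset.mem_range, Finset.mem_insert, Finset.mem_Icc]
      omega
    rw [h1, Finset.sum_insert (by simp)]
    have h2 : gg 0 a ≤ ENNReal.ofReal (uu a) := by
      refine (CuLogAux.gg_le_mul 0 a).trans ?_
      rw [BT_uu 0, uu_zero, ENNReal.ofReal_one, one_mul, BT_uu]
    have h3 : ∑ b ∈ Finset.Icc 1 a, gg b a ≤ ENNReal.ofReal (uu a * (2 * C0 * (L ^ C0 * L))) := by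
      calc ∑ b ∈ Finset.Icc 1 a, gg b a
          ≤ ∑ b ∈ Finset.Icc 1 a, ENNReal.ofReal (uu a * (C0 * L ^ C0) * (1 / b)) := by
            apply Finset.sum_le_sum
            intro b hb
            rw [Finset.mem_Icc] at hb
            refine (h0 a b hb.1 hb.2).trans (ENNReal.ofReal_le_ofReal ?_)
            have hb0 : (0 : ℝ) < b := by exact_mod_cast hb.1
            have h4 : (1 + (Nat.log 2 b : ℝ)) ^ C0 ≤ L ^ C0 := by
              apply Real.rpow_le_rpow (by positivity) _ hC0.le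
              rw [hL]
              have : Nat.log 2 b ≤ Nat.log 2 s := Nat.log_mono_right (by omega)
              have h6 : (Nat.log 2 b : ℝ) ≤ (Nat.log 2 s : ℝ) := by exact_mod_cast this
              linarith
            have h5 : uu b / UU b ≤ 1 / b := by
              rw [div_le_div_iff₀ (by linarith [one_le_UU b]) hb0, one_mul, mul_comm]
              exact mul_uu_le b
            calc C0 * (1 + (Nat.log 2 b : ℝ)) ^ C0 * (uu a * uu b / UU b)
                = C0 * (1 + (Nat.log 2 b : ℝ)) ^ C0 * uu a * (uu b / UU b) := by ring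
              _ ≤ C0 * L ^ C0 * uu a * (1 / b) := by
                  have := uu_nn a
                  have h7 : 0 ≤ uu b / UU b := div_nonneg (uu_nn b) (UU_nn b)
                  gcongr
              _ = uu a * (C0 * L ^ C0) * (1 / b) := by ring
        _ = ENNReal.ofReal (uu a * (C0 * L ^ C0) * ∑ b ∈ Finset.Icc 1 a, (1 : ℝ) / b) := by
            rw [Finset.mul_sum, ENNReal.ofReal_sum_of_nonneg]
            intro b _
            have := uu_nn a
            positivity
        _ ≤ ENNReal.ofReal (uu a * (2 * C0 * (L ^ C0 * L))) := by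
            apply ENNReal.ofReal_le_ofReal
            have h4 := inv_sum a ha
            have h5 := uu_nn a
            calc uu a * (C0 * L ^ C0) * ∑ b ∈ Finset.Icc 1 a, (1 : ℝ) / b
                ≤ uu a * (C0 * L ^ C0) * (2 * L) := mul_le_mul_of_nonneg_left h4 (by positivity)
              _ = _ := by ring
    refine (add_le_add h2 h3).trans ?_
    have h5 := uu_nn a
    rw [← ENNReal.ofReal_add h5 (by positivity)]
    apply ENNReal.ofReal_le_ofReal
    apply le_of_eq
    ring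
  have htot : ∑ a ∈ Finset.range s, ∑ b ∈ Finset.range s, gg a b ≤
      2 * ∑ a ∈ Finset.range s, ∑ b ∈ Finset.range (a + 1), gg b a := by
    have h1 : ∀ a ∈ Finset.range s, ∑ b ∈ Finset.range s, gg a b ≤
        ∑ b ∈ Finset.range (a + 1), gg b a + ∑ b ∈ (Finset.range s).filter (fun b => a ≤ b), gg a b := by
      intro a ha
      calc ∑ b ∈ Finset.range s, gg a b
          = ∑ b ∈ (Finset.range s).filter (fun b => ¬ a ≤ b), gg a b +
            ∑ b ∈ (Finset.range s).filter (fun b => a ≤ b), gg a b := by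
              rw [add_comm, Finset.sum_filter_add_sum_filter_not]
        _ ≤ ∑ b ∈ Finset.range (a + 1), gg b a + ∑ b ∈ (Finset.range s).filter (fun b => a ≤ b), gg a b := by
            refine add_le_add_left ?_ _
            have h2 : ∑ b ∈ (Finset.range s).filter (fun b => ¬ a ≤ b), gg a b =
                ∑ b ∈ (Finset.range s).filter (fun b => ¬ a ≤ b), gg b a :=
              Finset.sum_congr rfl fun b _ => gg_symm a b
            rw [h2]
            apply Finset.sum_le_sum_of_subset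
            intro b hb
            rw [Finset.mem_filter, Finset.mem_range] at hb
            rw [Finset.mem_range]
            omega
    have h2 : ∑ a ∈ Finset.range s, ∑ b ∈ (Finset.range s).filter (fun b => a ≤ b), gg a b =
        ∑ b ∈ Finset.range s, ∑ a ∈ Finset.range (b + 1), gg a b := by
      apply Finset.sum_comm'
      intro a b
      simp only [Finset.mem_range, Finset.mem_filter]
      omega
    calc ∑ a ∈ Finset.range s, ∑ b ∈ Finset.range s, gg a b
        ≤ ∑ a ∈ Finset.range s, (∑ b ∈ Finset.range (a + 1), gg b a +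
          ∑ b ∈ (Finset.range s).filter (fun b => a ≤ b), gg a b) := Finset.sum_le_sum h1
      _ = 2 * ∑ a ∈ Finset.range s, ∑ b ∈ Finset.range (a + 1), gg b a := by
          rw [Finset.sum_add_distrib, h2, two_mul]
  refine htot.trans ?_
  have hsum : ∑ a ∈ Finset.range s, ∑ b ∈ Finset.range (a + 1), gg b a ≤
      ENNReal.ofReal (UU s * (1 + 2 * C0 * (L ^ C0 * L))) := by
    calc ∑ a ∈ Finset.range s, ∑ b ∈ Finset.range (a + 1), gg b a
        ≤ ∑ a ∈ Finset.range s, ENNReal.ofReal (uu a * (1 + 2 * C0 * (L ^ C0 * L))) := Finset.sum_le_sum hrow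
      _ = ENNReal.ofReal ((∑ a ∈ Finset.range s, uu a) * (1 + 2 * C0 * (L ^ C0 * L))) := by
          rw [Finset.sum_mul, ENNReal.ofReal_sum_of_nonneg]
          intro a _
          have := uu_nn a
          positivity
      _ ≤ ENNReal.ofReal (UU s * (1 + 2 * C0 * (L ^ C0 * L))) := by
          apply ENNReal.ofReal_le_ofReal
          apply mul_le_mul_of_nonneg_right _ (by positivity)
          unfold UU
          exact Finset.sum_le_sum_of_subset_of_nonneg (Finset.range_mono (by omega)) fun m _ _ => uu_nn m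
  refine (mul_le_mul_right hsum 2).trans ?_
  have hU := UU_nn s
  rw [show (2 : ℝ≥0∞) = ENNReal.ofReal 2 by norm_num, ← ENNReal.ofReal_mul (by norm_num)]
  apply ENNReal.ofReal_le_ofReal
  have h8 : L ^ C0 * L = L ^ (C0 + 1) := by
    rw [Real.rpow_add (by linarith), Real.rpow_one]
  have h9 : L ^ (C0 + 1) ≤ L ^ (4 + 4 * C0) := Real.rpow_le_rpow_of_exponent_le hL1 (by linarith)
  have h10 : 1 ≤ L ^ (4 + 4 * C0) := Real.one_le_rpow hL1 (by linarith)
  rw [h8]
  have h11 : 2 * (UU s * (1 + 2 * C0 * L ^ (C0 + 1))) ≤ 2 * (UU s * (L ^ (4 + 4 * C0) + 2 * C0 * L ^ (4 + 4 * C0))) := by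
    gcongr
  refine h11.trans ?_
  have h12 : 0 ≤ L ^ (4 + 4 * C0) * UU s := by positivity
  nlinarith

/-- bridges of height T with at most W letters -/
lemma half_short {m W : ℝ} (hW : 0 < W) (hmW : 2 * m ≤ W) {T : ℕ}
    (h : ∑' t : Brd T, (t.1.length : ℝ≥0∞) * wE t ≤ ENNReal.ofReal m * BT T) :
    BT T ≤ 2 * gf {t | t ∈ Brd T ∧ (t.length : ℝ) ≤ W} := by
  have h1 : ∀ t : Brd T, ENNReal.ofReal W * wE t.1 ≤
      ENNReal.ofReal W * Set.indicator {t | t ∈ Brd T ∧ (t.length : ℝ) ≤ W} wE t.1 + (t.1.length : ℝ≥0∞) * wE t.1 := by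
    intro t
    by_cases ht : (t.1.length : ℝ) ≤ W
    · rw [Set.indicator_of_mem (show t.1 ∈ {t | t ∈ Brd T ∧ (t.length : ℝ) ≤ W} from ⟨t.2, ht⟩)]
      exact le_add_of_nonneg_right zero_le
    · refine le_trans ?_ (le_add_of_nonneg_left zero_le)
      apply mul_le_mul_left
      rw [← ENNReal.ofReal_natCast]
      exact ENNReal.ofReal_le_ofReal (not_le.1 ht).le
  have h2 : ENNReal.ofReal W * BT T ≤ ENNReal.ofReal W * gf {t | t ∈ Brd T ∧ (t.length : ℝ) ≤ W} +
      ENNReal.ofReal (W / 2) * BT T := by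
    calc ENNReal.ofReal W * BT T = ∑' t : Brd T, ENNReal.ofReal W * wE t.1 := by
          rw [ENNReal.tsum_mul_left, ← gf_Brd]
          rfl
      _ ≤ ∑' t : Brd T, (ENNReal.ofReal W * Set.indicator {t | t ∈ Brd T ∧ (t.length : ℝ) ≤ W} wE t.1 +
          (t.1.length : ℝ≥0∞) * wE t.1) := ENNReal.tsum_le_tsum h1
      _ = ENNReal.ofReal W * ∑' t : Brd T, Set.indicator {t | t ∈ Brd T ∧ (t.length : ℝ) ≤ W} wE t.1 +
          ∑' t : Brd T, (t.1.length : ℝ≥0∞) * wE t := by
          rw [ENNReal.tsum_add, ENNReal.tsum_mul_left]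
      _ ≤ _ := by
          apply add_le_add
          · apply mul_le_mul_right
            unfold gf
            rw [tsum_subtype {t | t ∈ Brd T ∧ (t.length : ℝ) ≤ W} wE]
            exact ENNReal.tsum_comp_le_tsum_of_injective (f := fun t : Brd T => t.1) Subtype.val_injective
              (fun t => Set.indicator {t | t ∈ Brd T ∧ (t.length : ℝ) ≤ W} wE t)
          · refine h.trans (mul_le_mul_left (ENNReal.ofReal_le_ofReal (by linarith)) _)
  have hg : gf {t | t ∈ Brd T ∧ (t.length : ℝ) ≤ W} ≠ ∞ :=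
    ne_top_of_le_ne_top (BT_fin T) (by rw [← gf_Brd]; exact gf_mono fun t ht => ht.1)
  obtain ⟨g, hg0, hg'⟩ : ∃ g : ℝ, 0 ≤ g ∧ gf {t | t ∈ Brd T ∧ (t.length : ℝ) ≤ W} = ENNReal.ofReal g :=
    ⟨_, ENNReal.toReal_nonneg, (ENNReal.ofReal_toReal hg).symm⟩
  have hu := uu_nn T
  rw [hg', BT_uu, ← ENNReal.ofReal_mul hW.le, ← ENNReal.ofReal_mul hW.le, ← ENNReal.ofReal_mul (by linarith),
    ← ENNReal.ofReal_add (by positivity) (by positivity), ENNReal.ofReal_le_ofReal_iff (by positivity)] at h2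
  rw [hg', BT_uu, show (2 : ℝ≥0∞) = ENNReal.ofReal 2 by norm_num, ← ENNReal.ofReal_mul (by norm_num),
    ENNReal.ofReal_le_ofReal_iff (by positivity)]
  nlinarith

/-- **(M2)** bridges of heights in [s, 2 s] with at most W letters -/
theorem short_mass {C c : ℝ} (hC : 0 < C) (hc : c ≤ 2)
    (hS2 : ∀ T : ℕ, 1 ≤ T → ∑' t : Brd T, (t.1.length : ℝ≥0∞) * wE t ≤
      ENNReal.ofReal (C * (T : ℝ) ^ (2 - c)) * BT T) :
    ∃ K c0 : ℝ, 0 < K ∧ 0 < c0 ∧ ∀ s : ℕ, 1 ≤ s → ∀ W : ℝ, K * (s : ℝ) ^ (2 - c) ≤ W →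
      ENNReal.ofReal (c0 * UU s) ≤ gf {t | ∃ T, s ≤ T ∧ T ≤ 2 * s ∧ t ∈ Brd T ∧ (t.length : ℝ) ≤ W} := by
  have hCW := CW_pos
  refine ⟨2 * C * 2 ^ (2 - c), 1 / (4 * (6 + CW)), by positivity, by positivity, ?_⟩
  intro s hs W hW
  have hs0 : (0 : ℝ) < s := by exact_mod_cast hs
  have hsp : (0 : ℝ) < (s : ℝ) ^ (2 - c) := Real.rpow_pos_of_pos hs0 _
  have hW0 : 0 < W := lt_of_lt_of_le (by positivity) hW
  have h1 : ∀ T ∈ Finset.Icc s (2 * s), BT T ≤ 2 * gf {t | t ∈ Brd T ∧ (t.length : ℝ) ≤ W} := by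
    intro T hT
    rw [Finset.mem_Icc] at hT
    refine half_short hW0 ?_ (hS2 T (by omega))
    have hT0 : (0 : ℝ) < T := by exact_mod_cast (by omega : 0 < T)
    have h2 : (T : ℝ) ^ (2 - c) ≤ (2 * s) ^ (2 - c) :=
      Real.rpow_le_rpow hT0.le (by exact_mod_cast hT.2) (by linarith)
    rw [Real.mul_rpow (by norm_num) hs0.le] at h2
    calc 2 * (C * (T : ℝ) ^ (2 - c)) ≤ 2 * (C * (2 ^ (2 - c) * (s : ℝ) ^ (2 - c))) := by gcongr
      _ = 2 * C * 2 ^ (2 - c) * (s : ℝ) ^ (2 - c) := by ring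
      _ ≤ W := hW
  have h2 : {t | ∃ T, s ≤ T ∧ T ≤ 2 * s ∧ t ∈ Brd T ∧ (t.length : ℝ) ≤ W} =
      ⋃ T ∈ Finset.Icc s (2 * s), {t | t ∈ Brd T ∧ (t.length : ℝ) ≤ W} := by
    ext t
    simp only [Set.mem_iUnion, Finset.mem_Icc, Set.mem_ofPred_eq]
    constructor
    · rintro ⟨T, a, b, c, d⟩
      exact ⟨T, ⟨a, b⟩, c, d⟩
    · rintro ⟨T, ⟨a, b⟩, c, d⟩
      exact ⟨T, a, b, c, d⟩
  rw [h2, gf_biUnion]
  swap
  · intro i _ j _ hij
    rw [Set.disjoint_left]
    intro t ht ht'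
    exact hij (Brd_height ht.1 ht'.1)
  have h3 : ∑ T ∈ Finset.Icc s (2 * s), BT T ≤ 2 * ∑ T ∈ Finset.Icc s (2 * s), gf {t | t ∈ Brd T ∧ (t.length : ℝ) ≤ W} := by
    rw [Finset.mul_sum]
    exact Finset.sum_le_sum h1
  have h4 : ENNReal.ofReal (2 * (1 / (4 * (6 + CW)) * UU s)) ≤ ∑ T ∈ Finset.Icc s (2 * s), BT T := by
    have h5 : ∑ T ∈ Finset.Icc s (2 * s), BT T = ENNReal.ofReal (∑ T ∈ Finset.Icc s (2 * s), uu T) := by
      rw [ENNReal.ofReal_sum_of_nonneg fun m _ => uu_nn m]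
      exact Finset.sum_congr rfl fun m _ => BT_uu m
    rw [h5]
    apply ENNReal.ofReal_le_ofReal
    have h6 : (s : ℝ) * uu (2 * s) ≤ ∑ T ∈ Finset.Icc s (2 * s), uu T := by
      calc (s : ℝ) * uu (2 * s) ≤ ∑ _T ∈ Finset.Icc s (2 * s), uu (2 * s) := by
            rw [Finset.sum_const, Nat.card_Icc, nsmul_eq_mul]
            apply mul_le_mul_of_nonneg_right _ (uu_nn _)
            have : s ≤ 2 * s + 1 - s := by omega
            exact_mod_cast this
        _ ≤ _ := Finset.sum_le_sum fun T hT => uu_anti (Finset.mem_Icc.1 hT).2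
    have h7 := UU_le_mul (T := 2 * s) (by omega)
    have h8 := UU_mono (show s ≤ 2 * s by omega)
    push_cast at h7
    refine le_trans ?_ h6
    have h9 : 2 * (1 / (4 * (6 + CW)) * UU s) = UU s / (2 * (6 + CW)) := by
      field_simp
      ring
    rw [h9, div_le_iff₀ (by positivity)]
    calc UU s ≤ UU (2 * s) := h8
      _ ≤ (6 + CW) * (2 * s * uu (2 * s)) := h7
      _ = (s : ℝ) * uu (2 * s) * (2 * (6 + CW)) := by ring
  have h5 := h4.trans h3
  have h6 : ENNReal.ofReal (2 * (1 / (4 * (6 + CW)) * UU s)) = 2 * ENNReal.ofReal (1 / (4 * (6 + CW)) * UU s) := by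
    rw [ENNReal.ofReal_mul (by norm_num)]
    norm_num
  rw [h6] at h5
  exact (ENNReal.mul_le_mul_iff_right (by norm_num) (by norm_num)).1 h5

end HexObs.SDE
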