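import Mathlib

/-!
SD13, numeric part: the block argument at fixed scales.
-/

set_option autoImplicit false

open Finset

namespace SDE

/-- a sequence in which every inner term is at most a tenth of a neighbour grows -/
lemma growth {Z : ℕ → ℝ} {L : ℕ}
    (h : ∀ j, 1 ≤ j → j ≤ 4 * L + 2 → 10 * Z j ≤ max (Z (j - 1)) (max (Z (j + 1)) (Z (j + 2)))) :
    ∀ i ≤ L, ∃ j, 2 * L + 1 ≤ j + 2 * i ∧ j ≤ 2 * L + 1 + 2 * i ∧
      10 ^ i * Z (2 * L + 1) ≤ Z j := by
  intro i
  induction i with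
  | zero => intro _; exact ⟨2 * L + 1, by omega, by omega, by simp⟩
  | succ i ih =>
    intro hi
    obtain ⟨j, h1, h2, h3⟩ := ih (by omega)
    have h4 := h j (by omega) (by omega)
    have h5 : 10 ^ (i + 1) * Z (2 * L + 1) ≤ max (Z (j - 1)) (max (Z (j + 1)) (Z (j + 2))) := by
      calc 10 ^ (i + 1) * Z (2 * L + 1) = 10 * (10 ^ i * Z (2 * L + 1)) := by ring
        _ ≤ 10 * Z j := by linarith
        _ ≤ _ := h4
    rcases le_max_iff.1 h5 with h6 | h6
    · exact ⟨j - 1, by omega, by omega, h6⟩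
    · rcases le_max_iff.1 h6 with h7 | h7
      · exact ⟨j + 1, by omega, by omega, h7⟩
      · exact ⟨j + 2, by omega, by omega, h7⟩

/-- the sum of a shifted sequence -/
lemma sum_shift {t : ℕ → ℝ} (ht : ∀ k, 0 ≤ t k) {a b k m M : ℕ} (h1 : m + k ≤ a) (h2 : b ≤ M + k) :
    ∑ j ∈ Ico a b, t (j - k) ≤ ∑ j ∈ Ico m M, t j := by
  have e : ∑ j ∈ Ico a b, t (j - k) = ∑ i ∈ (Ico a b).image (fun j => j - k), t i := by
    rw [sum_image]
    intro x hx y hy hxy
    simp only [coe_Ico, Set.mem_Ico] at hx hy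
    simp only at hxy
    omega
  rw [e]
  apply sum_le_sum_of_subset_of_nonneg
  · intro i hi
    rw [mem_image] at hi
    obtain ⟨j, hj, rfl⟩ := hi
    rw [mem_Ico] at hj ⊢
    omega
  · intro i _ _; exact ht i

variable {z e f tau g ast : ℕ → ℝ}

/-- three neighbouring terms -/
lemma three (H : ℕ → ℝ) {N : ℕ} (hN : 1 ≤ N) :
    ∑ j ∈ Icc (N - 1) (N + 1), H j = H (N - 1) + H N + H (N + 1) := by
  obtain ⟨N, rfl⟩ : ∃ k, N = k + 1 := ⟨N - 1, by omega⟩
  rw [Nat.add_sub_cancel, show Icc N (N + 1 + 1) = {N, N + 1, N + 1 + 1} by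
    ext x; simp only [mem_Icc, mem_insert, mem_singleton]; omega]
  rw [sum_insert (by simp; omega), sum_insert (by simp), sum_singleton]
  ring

/-- upper part: the sum of the convolutions over a block -/
lemma conv_le (g0 : ∀ k, 0 ≤ g k) (t0 : ∀ k, 0 ≤ tau k) {m W : ℕ} {G0 Tm Gt : ℝ} (hW : 1 ≤ W)
    (hm : 1 ≤ m) (hG : ∑ k ∈ range W, g k ≤ G0)
    (hT : ∀ M, M ≤ m + 2 * W → tau M ≤ Tm) (hGt : ∀ K, ∑ k ∈ Ico W K, g k ≤ Gt) :
    ∑ N ∈ Ico (m + W) (m + 2 * W), ∑ j ∈ Icc (N - 1) (N + 1), ∑ k ∈ range (j + 1),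
      g k * tau (j - k) ≤ 3 * (G0 * (∑ M ∈ Ico m (m + 2 * W + 1), tau M) + (W + 2) * (Tm * Gt)) := by
  set H : ℕ → ℝ := fun j => ∑ k ∈ range (j + 1), g k * tau (j - k) with hH
  have H0 : ∀ j, 0 ≤ H j := fun j => sum_nonneg fun k _ => mul_nonneg (g0 k) (t0 _)
  have hTm : 0 ≤ Tm := (t0 0).trans (hT 0 (by omega))
  have hGt0 : 0 ≤ Gt := (sum_nonneg fun k _ => g0 k).trans (hGt W)
  have hG0 : 0 ≤ G0 := (sum_nonneg fun k _ => g0 k).trans hG
  set S := ∑ j ∈ Ico (m + W - 1) (m + 2 * W + 1), H j with hS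
  have e1 : ∑ N ∈ Ico (m + W) (m + 2 * W), ∑ j ∈ Icc (N - 1) (N + 1), H j ≤ 3 * S := by
    have e2 : ∑ N ∈ Ico (m + W) (m + 2 * W), ∑ j ∈ Icc (N - 1) (N + 1), H j =
        ∑ N ∈ Ico (m + W) (m + 2 * W), (H (N - 1) + H N + H (N + 1)) := by
      apply sum_congr rfl
      intro N hN
      rw [mem_Ico] at hN
      exact three H (by omega)
    rw [e2, sum_add_distrib, sum_add_distrib]
    have a1 : ∑ N ∈ Ico (m + W) (m + 2 * W), H (N - 1) ≤ S :=
      sum_shift H0 (k := 1) (by omega) (by omega)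
    have a2 : ∑ N ∈ Ico (m + W) (m + 2 * W), H N ≤ S := by
      apply sum_le_sum_of_subset_of_nonneg
      · exact Ico_subset_Ico (by omega) (by omega)
      · intro i _ _; exact H0 i
    have a3 : ∑ N ∈ Ico (m + W) (m + 2 * W), H (N + 1) ≤ S := by
      rw [sum_Ico_add' (fun x => H x) (m + W) (m + 2 * W) 1]
      apply sum_le_sum_of_subset_of_nonneg
      · exact Ico_subset_Ico (by omega) (by omega)
      · intro i _ _; exact H0 i
    linarith
  have e3 : S ≤ G0 * (∑ M ∈ Ico m (m + 2 * W + 1), tau M) + (W + 2) * (Tm * Gt) := by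
    have b1 : ∀ j ∈ Ico (m + W - 1) (m + 2 * W + 1), H j ≤
        (∑ k ∈ range W, g k * tau (j - k)) + Tm * Gt := by
      intro j hj
      rw [mem_Ico] at hj
      have c1 : H j = ∑ k ∈ range W, g k * tau (j - k) + ∑ k ∈ Ico W (j + 1), g k * tau (j - k) := by
        rw [hH]
        simp only
        rw [range_eq_Ico, range_eq_Ico, sum_Ico_consecutive _ (by omega) (by omega)]
      rw [c1]
      have c2 : ∑ k ∈ Ico W (j + 1), g k * tau (j - k) ≤ Tm * Gt := by
        calc ∑ k ∈ Ico W (j + 1), g k * tau (j - k) ≤ ∑ k ∈ Ico W (j + 1), g k * Tm := by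
              apply sum_le_sum
              intro k _
              exact mul_le_mul_of_nonneg_left (hT _ (by omega)) (g0 k)
          _ = (∑ k ∈ Ico W (j + 1), g k) * Tm := by rw [sum_mul]
          _ ≤ Gt * Tm := mul_le_mul_of_nonneg_right (hGt _) hTm
          _ = Tm * Gt := by ring
      linarith
    refine (sum_le_sum b1).trans ?_
    rw [sum_add_distrib, sum_const, Nat.card_Ico, nsmul_eq_mul, sum_comm]
    have b2 : ∑ k ∈ range W, ∑ j ∈ Ico (m + W - 1) (m + 2 * W + 1), g k * tau (j - k) ≤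
        G0 * (∑ M ∈ Ico m (m + 2 * W + 1), tau M) := by
      calc ∑ k ∈ range W, ∑ j ∈ Ico (m + W - 1) (m + 2 * W + 1), g k * tau (j - k)
          ≤ ∑ k ∈ range W, g k * (∑ M ∈ Ico m (m + 2 * W + 1), tau M) := by
            apply sum_le_sum
            intro k hk
            rw [mem_range] at hk
            rw [← mul_sum]
            exact mul_le_mul_of_nonneg_left (sum_shift t0 (by omega) (by omega)) (g0 k)
        _ = (∑ k ∈ range W, g k) * (∑ M ∈ Ico m (m + 2 * W + 1), tau M) := by rw [sum_mul]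
        _ ≤ _ := mul_le_mul_of_nonneg_right hG (sum_nonneg fun k _ => t0 k)
    have b3 : ((m + 2 * W + 1 - (m + W - 1) : ℕ) : ℝ) = W + 2 := by
      have : m + 2 * W + 1 - (m + W - 1) = W + 2 := by omega
      rw [this]; push_cast; ring
    rw [b3]
    linarith
  linarith

/-- lower part -/
lemma tau_le (a0 : ∀ k, 0 ≤ ast k) (t0 : ∀ k, 0 ≤ tau k) (e0 : ∀ k, 0 ≤ e k) {m M W W0 : ℕ}
    (hWW : W0 ≤ W) {R : ℝ}
    (hL : ∀ N, ∑ k ∈ range (min W0 N + 1), ast k * tau (N - k) ≤ ((N : ℝ) / W0 + 1) * e N)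
    (hR : ((M + W : ℕ) : ℝ) / W0 + 1 ≤ R) :
    (∑ k ∈ range (W0 + 1), ast k) * (∑ i ∈ Ico m (M + 1), tau i) ≤
      R * ∑ N ∈ Ico m (M + W + 1), e N := by
  have c1 : (∑ k ∈ range (W0 + 1), ast k) * (∑ i ∈ Ico m (M + 1), tau i) =
      ∑ k ∈ range (W0 + 1), ∑ N ∈ Ico (m + k) (M + 1 + k), ast k * tau (N - k) := by
    rw [sum_mul]
    apply sum_congr rfl
    intro k _
    rw [← mul_sum, ← sum_Ico_add' (fun x => tau (x - k)) m (M + 1) k]
    simp
  have c2 : ∑ k ∈ range (W0 + 1), ∑ N ∈ Ico (m + k) (M + 1 + k), ast k * tau (N - k) ≤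
      ∑ k ∈ range (W0 + 1), ∑ N ∈ Ico m (M + W + 1), (if k < N + 1 then ast k * tau (N - k) else 0) := by
    apply sum_le_sum
    intro k hk
    rw [mem_range] at hk
    calc ∑ N ∈ Ico (m + k) (M + 1 + k), ast k * tau (N - k)
        = ∑ N ∈ Ico (m + k) (M + 1 + k), (if k < N + 1 then ast k * tau (N - k) else 0) := by
          apply sum_congr rfl
          intro N hN
          rw [mem_Ico] at hN
          rw [if_pos (by omega)]
      _ ≤ _ := by
          apply sum_le_sum_of_subset_of_nonneg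
          · exact Ico_subset_Ico (by omega) (by omega)
          · intro N _ _
            split_ifs
            · exact mul_nonneg (a0 k) (t0 _)
            · exact le_rfl
  have c3 : ∑ k ∈ range (W0 + 1), ∑ N ∈ Ico m (M + W + 1),
      (if k < N + 1 then ast k * tau (N - k) else 0) ≤
      ∑ N ∈ Ico m (M + W + 1), ∑ k ∈ range (min W0 N + 1), ast k * tau (N - k) := by
    rw [sum_comm]
    apply sum_le_sum
    intro N _
    rw [← sum_filter]
    apply sum_le_sum_of_subset_of_nonneg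
    · intro k hk
      rw [mem_filter, mem_range] at hk
      rw [mem_range]; omega
    · intro k _ _; exact mul_nonneg (a0 k) (t0 _)
  rw [c1]
  refine c2.trans (c3.trans ?_)
  rw [mul_sum]
  apply sum_le_sum
  intro N hN
  rw [mem_Ico] at hN
  refine (hL N).trans ?_
  apply mul_le_mul_of_nonneg_right _ (e0 N)
  refine le_trans ?_ hR
  have : (N : ℝ) ≤ ((M + W : ℕ) : ℝ) := by exact_mod_cast (by omega : N ≤ M + W)
  gcongr

/-- consecutive blocks -/
lemma four (z : ℕ → ℝ) (z0 : ∀ N, 0 ≤ z N) {n W j : ℕ} (hj : 1 ≤ j) (hW : 1 ≤ W) :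
    ∑ N ∈ Ico (n + (j - 1) * W) (n + (j - 1) * W + 2 * W + W + 1), z N ≤
      (∑ N ∈ Ico (n + (j - 1) * W) (n + j * W), z N) + (∑ N ∈ Ico (n + j * W) (n + (j + 1) * W), z N)
      + (∑ N ∈ Ico (n + (j + 1) * W) (n + (j + 2) * W), z N)
      + (∑ N ∈ Ico (n + (j + 2) * W) (n + (j + 3) * W), z N) := by
  obtain ⟨i, rfl⟩ : ∃ i, j = i + 1 := ⟨j - 1, by omega⟩
  rw [Nat.add_sub_cancel]
  have h1 : n + i * W ≤ n + (i + 1) * W := by nlinarith
  have h2 : n + (i + 1) * W ≤ n + (i + 1 + 1) * W := by nlinarith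
  have h3 : n + (i + 1 + 1) * W ≤ n + (i + 1 + 2) * W := by nlinarith
  have h4 : n + (i + 1 + 2) * W ≤ n + (i + 1 + 3) * W := by nlinarith
  rw [sum_Ico_consecutive _ h1 h2, sum_Ico_consecutive _ (h1.trans h2) h3,
    sum_Ico_consecutive _ ((h1.trans h2).trans h3) h4]
  apply sum_le_sum_of_subset_of_nonneg
  · apply Ico_subset_Ico le_rfl
    nlinarith
  · intro N _ _; exact z0 N

/-- The block argument at fixed scales: if `f N ≤ η z N` on `4 L + 5` blocks of length `W` after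
`n`, then `z` is large somewhere. -/
theorem fixed {C Zm A R Gt Tm G0 η : ℝ} {n W W0 L : ℕ}
    (hn : 2 ≤ n) (hW0 : 1 ≤ W0) (hWW : W0 ≤ W)
    (hz1 : ∀ N, 1 / 2 ≤ z N) (hz2 : ∀ N, N ≤ n + (4 * L + 6) * W → z N ≤ Zm)
    (he0 : ∀ N, 0 ≤ e N) (hef : ∀ N, e N ≤ f N)
    (t0 : ∀ k, 0 ≤ tau k) (g0 : ∀ k, 0 ≤ g k) (a0 : ∀ k, 0 ≤ ast k) (hC : 0 ≤ C)
    (hU : ∀ N, 2 ≤ N → z N - f N ≤ C * ∑ j ∈ Icc (N - 1) (N + 1), ∑ k ∈ range (j + 1),
      g k * tau (j - k))
    (hL : ∀ N, ∑ k ∈ range (min W0 N + 1), ast k * tau (N - k) ≤ ((N : ℝ) / W0 + 1) * e N)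
    (hG : ∑ k ∈ range W, g k ≤ G0) (hGt : ∀ K, ∑ k ∈ Ico W K, g k ≤ Gt)
    (hA : A ≤ ∑ k ∈ range (W0 + 1), ast k) (hA0 : 0 < A)
    (hR : ((n + (4 * L + 6) * W : ℕ) : ℝ) / W0 + 1 ≤ R)
    (hT : ∀ M, M ≤ n + (4 * L + 5) * W → tau M ≤ Tm)
    (hη0 : 0 ≤ η) (hη : η ≤ 1 / 8)
    (hρ : 3 * C * G0 / A * R * η ≤ 1 / 100)
    (hsm : 9 * C * (Tm * Gt) ≤ 1 / 16)
    (hf : ∀ N, n ≤ N → N < n + (4 * L + 5) * W → f N ≤ η * z N) :
    10 ^ L / 2 ≤ Zm := by
  have z0 : ∀ N, 0 ≤ z N := fun N => by have := hz1 N; linarith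
  have hW : 1 ≤ W := hW0.trans hWW
  have hWr : (1 : ℝ) ≤ W := by exact_mod_cast hW
  set Z : ℕ → ℝ := fun j => ∑ N ∈ Ico (n + j * W) (n + (j + 1) * W), z N with hZ
  have hZ0 : ∀ j, 0 ≤ Z j := fun j => sum_nonneg fun N _ => z0 N
  have hcard : ∀ j, (Ico (n + j * W) (n + (j + 1) * W)).card = W := by
    intro j
    rw [Nat.card_Ico]
    have : n + (j + 1) * W = n + j * W + W := by ring
    omega
  have hZlow : ∀ j, (W : ℝ) / 2 ≤ Z j := by
    intro j
    calc (W : ℝ) / 2 = ∑ _N ∈ Ico (n + j * W) (n + (j + 1) * W), (1 / 2 : ℝ) := by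
          rw [sum_const, hcard, nsmul_eq_mul]; ring
      _ ≤ Z j := sum_le_sum fun N _ => hz1 N
  have hstep : ∀ j, 1 ≤ j → j ≤ 4 * L + 2 → 10 * Z j ≤ max (Z (j - 1)) (max (Z (j + 1)) (Z (j + 2))) := by
    intro j hj1 hj2
    set m := n + (j - 1) * W with hm
    have hjW : n + j * W = m + W := by
      rw [hm]
      obtain ⟨i, rfl⟩ : ∃ i, j = i + 1 := ⟨j - 1, by omega⟩
      rw [Nat.add_sub_cancel]; ring
    have hjW2 : n + (j + 1) * W = m + 2 * W := by
      have : n + (j + 1) * W = n + j * W + W := by ring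
      omega
    have hmn : n ≤ m := Nat.le_add_right _ _
    have hmb : m + 3 * W ≤ n + (4 * L + 4) * W := by
      have : m + 3 * W = n + (j + 2) * W := by
        have : n + (j + 2) * W = n + (j + 1) * W + W := by ring
        omega
      rw [this]
      apply Nat.add_le_add_left
      exact Nat.mul_le_mul_right _ (by omega)
    have hbig1 : n + (4 * L + 5) * W = n + (4 * L + 4) * W + W := by ring
    have hbig2 : n + (4 * L + 6) * W = n + (4 * L + 5) * W + W := by ring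
    set T := ∑ M ∈ Ico m (m + 2 * W + 1), tau M with hTdef
    have hT0 : 0 ≤ T := sum_nonneg fun k _ => t0 k
    -- upper part
    have u1 : (1 - η) * Z j ≤ C * (3 * (G0 * T + (W + 2) * (Tm * Gt))) := by
      have v1 : ∑ N ∈ Ico (m + W) (m + 2 * W), (z N - f N) ≤
          C * ∑ N ∈ Ico (m + W) (m + 2 * W), ∑ j ∈ Icc (N - 1) (N + 1), ∑ k ∈ range (j + 1),
            g k * tau (j - k) := by
        rw [mul_sum]
        apply sum_le_sum
        intro N hN
        rw [mem_Ico] at hN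
        exact hU N (by omega)
      have v2 := conv_le g0 t0 hW (show 1 ≤ m by omega) hG (fun M hM => hT M (by omega)) hGt
      have v3 : (1 - η) * Z j ≤ ∑ N ∈ Ico (m + W) (m + 2 * W), (z N - f N) := by
        rw [hZ]
        simp only
        rw [hjW, hjW2, mul_sum]
        apply sum_le_sum
        intro N hN
        rw [mem_Ico] at hN
        have := hf N (by omega) (by omega)
        linarith
      exact v3.trans (v1.trans (mul_le_mul_of_nonneg_left v2 hC))
    -- lower part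
    have l1 : A * T ≤ R * (η * (Z (j - 1) + Z j + Z (j + 1) + Z (j + 2))) := by
      have v1 := tau_le (m := m) (M := m + 2 * W) a0 t0 he0 hWW hL (R := R) (by
        refine le_trans ?_ hR
        have : ((m + 2 * W + W : ℕ) : ℝ) ≤ ((n + (4 * L + 6) * W : ℕ) : ℝ) := by
          exact_mod_cast (by omega : m + 2 * W + W ≤ n + (4 * L + 6) * W)
        gcongr)
      have v2 : ∑ N ∈ Ico m (m + 2 * W + W + 1), e N ≤
          η * (Z (j - 1) + Z j + Z (j + 1) + Z (j + 2)) := by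
        have v3 : ∑ N ∈ Ico m (m + 2 * W + W + 1), e N ≤
            ∑ N ∈ Ico m (m + 2 * W + W + 1), η * z N := by
          apply sum_le_sum
          intro N hN
          rw [mem_Ico] at hN
          exact (hef N).trans (hf N (by omega) (by omega))
        rw [← mul_sum] at v3
        refine v3.trans (mul_le_mul_of_nonneg_left ?_ hη0)
        have v4 := four z z0 (n := n) hj1 hW
        rw [hZ]
        simp only
        rw [show j - 1 + 1 = j by omega]
        exact v4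
      have hR0 : 0 ≤ R := by
        refine le_trans ?_ hR
        positivity
      calc A * T ≤ (∑ k ∈ range (W0 + 1), ast k) * T := mul_le_mul_of_nonneg_right hA hT0
        _ ≤ _ := v1
        _ ≤ _ := mul_le_mul_of_nonneg_left v2 hR0
    have hTb : T ≤ R / A * (η * (Z (j - 1) + Z j + Z (j + 1) + Z (j + 2))) := by
      rw [div_mul_eq_mul_div, le_div_iff₀ hA0]
      linarith
    have hG00 : 0 ≤ G0 := (sum_nonneg fun k _ => g0 k).trans hG
    have hTG : 0 ≤ Tm * Gt := mul_nonneg ((t0 0).trans (hT 0 (by omega)))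
      ((sum_nonneg fun k _ => g0 k).trans (hGt W))
    have m1 : C * (3 * (G0 * T)) ≤ 1 / 100 * (Z (j - 1) + Z j + Z (j + 1) + Z (j + 2)) := by
      have n1 : C * (3 * (G0 * T)) ≤
          C * (3 * (G0 * (R / A * (η * (Z (j - 1) + Z j + Z (j + 1) + Z (j + 2)))))) := by
        gcongr
      have n2 : C * (3 * (G0 * (R / A * (η * (Z (j - 1) + Z j + Z (j + 1) + Z (j + 2)))))) =
          (3 * C * G0 / A * R * η) * (Z (j - 1) + Z j + Z (j + 1) + Z (j + 2)) := by ring
      rw [n2] at n1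
      refine n1.trans (mul_le_mul_of_nonneg_right hρ ?_)
      have := hZ0 (j - 1); have := hZ0 j; have := hZ0 (j + 1); have := hZ0 (j + 2)
      linarith
    have m2 : C * (3 * ((W + 2) * (Tm * Gt))) ≤ 1 / 8 * Z j := by
      have n1 : C * (3 * ((W + 2) * (Tm * Gt))) ≤ C * (3 * ((3 * W) * (Tm * Gt))) := by
        gcongr
        linarith
      have n2 : C * (3 * ((3 * W) * (Tm * Gt))) = W * (9 * C * (Tm * Gt)) := by ring
      have n3 : (W : ℝ) * (9 * C * (Tm * Gt)) ≤ W * (1 / 16) := by gcongr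
      have := hZlow j
      linarith
    have m3 : (7 / 8) * Z j ≤ (1 - η) * Z j := by
      apply mul_le_mul_of_nonneg_right _ (hZ0 j); linarith
    set X := max (Z (j - 1)) (max (Z (j + 1)) (Z (j + 2))) with hX
    have x1 : Z (j - 1) ≤ X := le_max_left _ _
    have x2 : Z (j + 1) ≤ X := (le_max_left _ _).trans (le_max_right _ _)
    have x3 : Z (j + 2) ≤ X := (le_max_right _ _).trans (le_max_right _ _)
    have m4 : C * (3 * (G0 * T + (W + 2) * (Tm * Gt))) =
        C * (3 * (G0 * T)) + C * (3 * ((W + 2) * (Tm * Gt))) := by ring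
    have := hZ0 j
    have : 0 ≤ X := (hZ0 _).trans x1
    linarith
  obtain ⟨j, hj1, hj2, hj3⟩ := growth hstep L le_rfl
  have hup : Z j ≤ W * Zm := by
    calc Z j ≤ ∑ _N ∈ Ico (n + j * W) (n + (j + 1) * W), Zm := by
          apply sum_le_sum
          intro N hN
          rw [mem_Ico] at hN
          apply hz2
          have : (j + 1) * W ≤ (4 * L + 6) * W := Nat.mul_le_mul_right _ (by omega)
          omega
      _ = W * Zm := by rw [sum_const, hcard, nsmul_eq_mul]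
  have h1 : (10 : ℝ) ^ L * ((W : ℝ) / 2) ≤ W * Zm :=
    (mul_le_mul_of_nonneg_left (hZlow _) (by positivity)).trans (hj3.trans hup)
  have h2 : (W : ℝ) * (10 ^ L / 2) ≤ W * Zm := by linarith
  exact le_of_mul_le_mul_left h2 (by linarith)

/-- polynomial bound of the tails -/
lemma tau_max (a0 : ∀ k, 0 ≤ ast k) (t0 : ∀ k, 0 ≤ tau k) (e0 : ∀ k, 0 ≤ e k) {M W0 : ℕ}
    {A R Zm : ℝ} (hA : A ≤ ∑ k ∈ range (W0 + 1), ast k)
    (hL : ∀ N, ∑ k ∈ range (min W0 N + 1), ast k * tau (N - k) ≤ ((N : ℝ) / W0 + 1) * e N)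
    (hR : ((M + W0 : ℕ) : ℝ) / W0 + 1 ≤ R) (he : ∀ N, N ≤ M + W0 → e N ≤ Zm) :
    A * tau M ≤ (W0 + 1) * (R * Zm) := by
  have h1 := tau_le (m := M) (M := M) (W := W0) a0 t0 e0 le_rfl hL hR
  rw [Nat.Ico_succ_singleton, sum_singleton] at h1
  have hR0 : 0 ≤ R := le_trans (by positivity) hR
  have h2 : ∑ N ∈ Ico M (M + W0 + 1), e N ≤ (W0 + 1) * Zm := by
    calc ∑ N ∈ Ico M (M + W0 + 1), e N ≤ ∑ _N ∈ Ico M (M + W0 + 1), Zm := by
          apply sum_le_sum
          intro N hN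
          rw [mem_Ico] at hN
          exact he N (by omega)
      _ = (W0 + 1) * Zm := by
          rw [sum_const, Nat.card_Ico, nsmul_eq_mul]
          have : M + W0 + 1 - M = W0 + 1 := by omega
          rw [this]; push_cast; ring
  calc A * tau M ≤ (∑ k ∈ range (W0 + 1), ast k) * tau M := mul_le_mul_of_nonneg_right hA (t0 M)
    _ ≤ _ := h1
    _ ≤ R * ((W0 + 1) * Zm) := mul_le_mul_of_nonneg_left h2 hR0
    _ = _ := by ring

end SDE
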