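import Mathlib

/-!
SD13: convolution inequalities for renewal sequences with values in the extended nonnegative reals.
-/

set_option autoImplicit false

namespace HexObs.SDE

open Finset ENNReal

/-- convolution -/
noncomputable def cv (f g : ℕ → ℝ≥0∞) (n : ℕ) : ℝ≥0∞ := ∑ p ∈ antidiagonal n, f p.1 * g p.2

lemma cv_eq (f g : ℕ → ℝ≥0∞) (n : ℕ) : cv f g n = ∑ i ∈ range (n + 1), f i * g (n - i) :=
  Finset.Nat.sum_antidiagonal_eq_sum_range_succ (fun i j => f i * g j) n

lemma cv_mono {f f' g g' : ℕ → ℝ≥0∞} {n : ℕ} (hf : ∀ i ≤ n, f i ≤ f' i) (hg : ∀ i ≤ n, g i ≤ g' i) :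
    cv f g n ≤ cv f' g' n := by
  apply Finset.sum_le_sum
  intro p hp
  rw [HasAntidiagonal.mem_antidiagonal] at hp
  exact mul_le_mul' (hf _ (by omega)) (hg _ (by omega))

lemma sum_cv (f g : ℕ → ℝ≥0∞) (N : ℕ) : ∑ n ∈ range N, cv f g n =
    ∑ p ∈ (range N ×ˢ range N).filter (fun p => p.1 + p.2 < N), f p.1 * g p.2 := by
  rw [← Finset.sum_fiberwise_of_maps_to (s := (range N ×ˢ range N).filter (fun p => p.1 + p.2 < N))
    (t := range N) (g := fun p => p.1 + p.2) (fun p hp => by
      rw [mem_filter] at hp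
      exact mem_range.2 hp.2)]
  apply Finset.sum_congr rfl
  intro n hn
  rw [mem_range] at hn
  unfold cv
  apply Finset.sum_congr _ (fun _ _ => rfl)
  ext p
  simp only [HasAntidiagonal.mem_antidiagonal, mem_filter, mem_product, mem_range]
  omega

/-- the sum of a convolution is at most the product of the sums -/
lemma sum_cv_le (f g : ℕ → ℝ≥0∞) (N : ℕ) :
    ∑ n ∈ range N, cv f g n ≤ (∑ i ∈ range N, f i) * ∑ j ∈ range N, g j := by
  rw [sum_cv, Finset.sum_mul_sum, ← Finset.sum_product']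
  exact Finset.sum_le_sum_of_subset (filter_subset _ _)

/-- the product of the sums is at most the sum of a convolution, over a longer range -/
lemma le_sum_cv (f g : ℕ → ℝ≥0∞) {a b N : ℕ} (h : a + b ≤ N + 1) :
    (∑ i ∈ range a, f i) * ∑ j ∈ range b, g j ≤ ∑ n ∈ range N, cv f g n := by
  rw [sum_cv, Finset.sum_mul_sum, ← Finset.sum_product']
  apply Finset.sum_le_sum_of_subset
  intro p hp
  rw [mem_product, mem_range, mem_range] at hp
  rw [mem_filter, mem_product, mem_range, mem_range]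
  omega

/-- exchange of the order in the renewal step -/
lemma renew_aux (u k g : ℕ → ℝ≥0∞) (hu0 : u 0 = 1) (n : ℕ)
    (hu : ∀ j, 1 ≤ j → u j = ∑ r ∈ Icc 1 j, k r * u (j - r)) :
    g n + ∑ r ∈ Icc 1 n, k r * cv u g (n - r) = cv u g n := by
  have h1 : ∑ r ∈ Icc 1 n, k r * cv u g (n - r) =
      ∑ j ∈ range n, ∑ r ∈ Icc 1 (n - j), k r * (u (n - j - r) * g j) := by
    have h2 : ∀ r ∈ Icc 1 n, k r * cv u g (n - r) = ∑ j ∈ range (n - r + 1), k r * (u (n - r - j) * g j) := by
      intro r _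
      unfold cv
      rw [← Finset.Nat.sum_antidiagonal_swap]
      simp only [Prod.fst_swap, Prod.snd_swap]
      rw [Finset.Nat.sum_antidiagonal_eq_sum_range_succ (fun i j => u j * g i) (n - r), Finset.mul_sum]
    rw [Finset.sum_congr rfl h2]
    rw [Finset.sum_comm' (s' := fun j => Icc 1 (n - j)) (t' := range n)]
    · apply Finset.sum_congr rfl
      intro j _
      apply Finset.sum_congr rfl
      intro r _
      rw [show n - r - j = n - j - r by omega]
    · intro r j
      simp only [mem_Icc, mem_range]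
      omega
  have h3 : ∀ j ∈ range n, ∑ r ∈ Icc 1 (n - j), k r * (u (n - j - r) * g j) = u (n - j) * g j := by
    intro j hj
    rw [mem_range] at hj
    rw [hu (n - j) (by omega), Finset.sum_mul]
    apply Finset.sum_congr rfl
    intro r _
    ring
  rw [h1, Finset.sum_congr rfl h3]
  unfold cv
  rw [← Finset.Nat.sum_antidiagonal_swap]
  simp only [Prod.fst_swap, Prod.snd_swap]
  rw [Finset.Nat.sum_antidiagonal_eq_sum_range_succ (fun i j => u j * g i) n, Finset.sum_range_succ, Nat.sub_self,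
    hu0, one_mul, add_comm]

/-- comparison, upper bound -/
theorem renew_le (u k f g : ℕ → ℝ≥0∞) (hu0 : u 0 = 1)
    (hu : ∀ j, 1 ≤ j → u j = ∑ r ∈ Icc 1 j, k r * u (j - r))
    (hf : ∀ n, f n ≤ g n + ∑ r ∈ Icc 1 n, k r * f (n - r)) (n : ℕ) : f n ≤ cv u g n := by
  induction n using Nat.strong_induction_on with
  | _ n ih =>
    rw [← renew_aux u k g hu0 n hu]
    refine (hf n).trans (add_le_add_right ?_ _)
    apply Finset.sum_le_sum
    intro r hr
    rw [mem_Icc] at hr
    exact mul_le_mul_right (ih (n - r) (by omega)) _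

/-- comparison, lower bound -/
theorem renew_ge (u k f g : ℕ → ℝ≥0∞) (hu0 : u 0 = 1)
    (hu : ∀ j, 1 ≤ j → u j = ∑ r ∈ Icc 1 j, k r * u (j - r))
    (hf : ∀ n, g n + ∑ r ∈ Icc 1 n, k r * f (n - r) ≤ f n) (n : ℕ) : cv u g n ≤ f n := by
  induction n using Nat.strong_induction_on with
  | _ n ih =>
    rw [← renew_aux u k g hu0 n hu]
    refine le_trans (add_le_add_right ?_ _) (hf n)
    apply Finset.sum_le_sum
    intro r hr
    rw [mem_Icc] at hr
    exact mul_le_mul_right (ih (n - r) (by omega)) _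

end HexObs.SDE
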