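import Pool.Agent.SDE.DefsU
import Pool.Agent.PHW.Dict
import Pool.Agent.Saw39.MaxMoment

/-!
SD13, E1: dictionary between the words and the walks of Saw39 (hexagonal lattice).
-/

set_option autoImplicit false

open scoped Classical

namespace HexObs

open Finset

namespace SDE

/-- walks with N - 1 steps and two vertices at distance at least (3 s - 2) / 2 -/
noncomputable def WE (s n : ℕ) : Finset (List SawNu.Pt) := (SawNu.WS SawNu.hexL n).filter (fun l =>
  ∃ i j, i ≤ n ∧ j ≤ n ∧ (3 * (s : ℝ) - 2) ^ 2 / 4 ≤ ‖SawNu.encHex.φ (SawNu.ps l i) - SawNu.encHex.φ (SawNu.ps l j)‖ ^ 2)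

section E1

open PHWDict

/-- the words of AA n with two distant vertices -/
private def E1_PA (s n : ℕ) : Set (List Bool) :=
  {u | u ∈ AA n ∧ ∃ i k, i ≤ n ∧ k ≤ n ∧ (3 * (s : ℤ) - 2) ^ 2 ≤ 4 * nrm (vx oo up u i - vx oo up u k)}

private def E1_ext (p : List Bool × Bool × Bool) : List Bool := p.2.1 :: (p.1 ++ [p.2.2])

private lemma E1_ext_inj : Function.Injective E1_ext := by
  rintro ⟨u, a, z⟩ ⟨u', a', z'⟩ h
  unfold E1_ext at h
  simp only at h
  obtain ⟨h1, h2⟩ := List.cons.inj h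
  have h3 := List.append_inj' h2 rfl
  rw [h1, h3.1, (List.cons.inj h3.2).1]

private lemma E1_AA_fin (n : ℕ) : (AA n).Finite :=
  (List.finite_length_le Bool n).subset (fun t ht => by
    have := ht.1
    show t.length ≤ n
    omega)

private lemma E1_card (Q : Set (List Bool)) : (E1_ext '' (Q ×ˢ Set.univ)).ncard = 4 * Q.ncard := by
  rw [Set.ncard_image_of_injective _ E1_ext_inj, Set.ncard_prod, Set.ncard_univ]
  simp [mul_comm]

private lemma E1_vx_cons (a : Bool) (t : List Bool) (i : ℕ) :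
    vx oo up (a :: t) (1 + i) = up + mulE (rotTo up (turn a up)) (vx oo up t i) := by
  have hup : up ∈ dirs := by decide
  have h1 : vx oo up (a :: t) (1 + i) = vx (oo + up) (turn a up) t i := by
    unfold vx
    rw [vs_shift]
    have e1 : vs oo up (tf (a :: t)) 1 = oo + up := rfl
    have e2 : ds up (tf (a :: t)) 1 = turn a up := rfl
    rw [e1, e2]
    apply vs_congr
    intro k _
    show tf (a :: t) (1 + k) = tf t k
    have := tf_append_right (t := [a]) (s := t) k
    exact this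
  rw [h1]
  have h2 := vx_mulE (rotTo up (turn a up)) oo (oo + up) up t i
  rw [rotTo_apply _ hup] at h2
  rw [h2]
  have e3 : oo + up = up := zero_add _
  have e4 : vx oo up t i - oo = vx oo up t i := sub_zero _
  rw [e3, e4]

private lemma E1_nrm_zero {p : Pt} (h1 : nrm p = 0) : p = 0 := by
  obtain ⟨x, y⟩ := p
  unfold nrm at h1
  have h2 : x ^ 2 + x * y + y ^ 2 = 0 := h1
  have h5 : (2 * x + y) ^ 2 + 3 * y ^ 2 = 0 := by nlinarith
  have hy : y = 0 := by
    have : y ^ 2 = 0 := by nlinarith [sq_nonneg (2 * x + y), sq_nonneg y]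
    exact pow_eq_zero_iff (two_ne_zero) |>.1 this
  subst hy
  have hx : x = 0 := by
    have : x ^ 2 = 0 := by nlinarith
    exact pow_eq_zero_iff (two_ne_zero) |>.1 this
  subst hx
  rfl

private lemma E1_mulE_inj {c p q : Pt} (hc : nrm c = 1) (h : mulE c p = mulE c q) : p = q := by
  have h1 : nrm (p - q) = 0 := by
    have h2 := nrm_mulE c (p - q)
    have h3 : mulE c (p - q) = 0 := by rw [mulE_sub, h, sub_self]
    rw [h3, hc, one_mul] at h2
    rw [← h2]
    rfl
  exact sub_eq_zero.1 (E1_nrm_zero h1)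

private lemma E1_vx (u : List Bool) {n : ℕ} (hu : u.length + 1 = n) (a z : Bool) {i : ℕ} (hi : i ≤ n) :
    vx oo up (E1_ext (u, a, z)) (1 + i) = up + mulE (rotTo up (turn a up)) (vx oo up u i) := by
  unfold E1_ext
  rw [E1_vx_cons]
  simp only
  rw [vx_append (by omega)]

private lemma E1_SM {n : ℕ} (hn : 1 ≤ n) : SM (n + 1) = E1_ext '' (AA n ×ˢ Set.univ) := by
  have hup : up ∈ dirs := by decide
  have hturn : ∀ a : Bool, turn a up ∈ dirs := by decide
  ext t
  constructor
  · rintro ⟨h1, h2⟩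
    match t, h1, h2 with
    | [], h1, _ => simp at h1
    | a :: t', h1, h2 =>
      have hne : t' ≠ [] := by
        rintro rfl
        simp at h1
        omega
      have hl : t'.dropLast.length + 1 = n := by
        rw [List.length_dropLast]
        simp only [List.length_cons] at h1
        omega
      have he : E1_ext (t'.dropLast, a, t'.getLast hne) = a :: t' := by
        unfold E1_ext
        simp only
        rw [List.dropLast_append_getLast hne]
      refine ⟨(t'.dropLast, a, t'.getLast hne), ⟨⟨hl, ?_⟩, trivial⟩, he⟩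
      intro i k hik hk h3
      apply h2 (1 + i) (1 + k) (by omega) (by omega) (by omega)
      rw [← he, E1_vx _ hl a _ (by omega), E1_vx _ hl a _ hk]
      have h4 : vx oo up t'.dropLast i = vx oo up t'.dropLast k := h3
      rw [h4]
  · rintro ⟨⟨u, a, z⟩, ⟨⟨h1, h2⟩, _⟩, rfl⟩
    simp only at h1 h2
    refine ⟨?_, ?_⟩
    · unfold E1_ext
      simp only [List.length_cons, List.length_append, List.length_nil]
      omega
    · intro i k hi hik hk h3
      obtain ⟨i', rfl⟩ : ∃ i', i = 1 + i' := ⟨i - 1, by omega⟩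
      obtain ⟨k', rfl⟩ : ∃ k', k = 1 + k' := ⟨k - 1, by omega⟩
      rw [E1_vx u h1 a z (by omega), E1_vx u h1 a z (by omega)] at h3
      exact h2 i' k' (by omega) (by omega) (E1_mulE_inj (nrm_rotTo hup (hturn a)) (add_left_cancel h3))

theorem dict_card {N : ℕ} (hN : 2 ≤ N) : 3 * (SM N).ncard = 4 * (SawNu.WS SawNu.hexL (N - 1)).card := by
  obtain ⟨n, rfl⟩ : ∃ n, N = n + 1 := ⟨N - 1, by omega⟩
  rw [E1_SM (by omega), E1_card, Nat.add_sub_cancel, WS_eq (by omega)]
  ring

private lemma E1_ip (p : Pt) : (ip p up) ^ 2 ≤ 4 * nrm p := by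
  obtain ⟨x, y⟩ := p
  unfold ip nrm up
  simp only
  nlinarith [sq_nonneg x]

private lemma E1_norm (p : Pt) : ‖SawNu.encHex.φ (HexMu.psi p)‖ ^ 2 = (nrm p : ℝ) := by
  obtain ⟨x, y⟩ := p
  have h : SawNu.encHex.φ = SawNu.phiTri := rfl
  rw [h, ← Complex.normSq_eq_norm_sq, Complex.normSq_apply]
  simp only [SawNu.phiTri, AddMonoidHom.coe_mk, ZeroHom.coe_mk, HexMu.psi, nrm]
  have h3 : Real.sqrt 3 * Real.sqrt 3 = 3 := Real.mul_self_sqrt (by norm_num)
  push_cast
  have : (y : ℝ) * (Real.sqrt 3 / 2) * ((y : ℝ) * (Real.sqrt 3 / 2)) =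
      (y : ℝ) ^ 2 * (Real.sqrt 3 * Real.sqrt 3) / 4 := by ring
  rw [this, h3]
  ring

/-- as PHWDict.WS_eq, with the distance of two vertices (invariant under the rotation of the first direction);
a difference of levels h means a distance of at least h / 2 -/
theorem dict_ext {s N : ℕ} (hs : 1 ≤ s) (hN : 2 ≤ N) :
    3 * {t | t ∈ SM N ∧ Ext s t}.ncard ≤ 4 * (WE s (N - 1)).card := by
  obtain ⟨n, rfl⟩ : ∃ n, N = n + 1 := ⟨N - 1, by omega⟩
  have hn : 1 ≤ n := by omega
  rw [Nat.add_sub_cancel]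
  have hup : up ∈ dirs := by decide
  have hturn : ∀ a : Bool, turn a up ∈ dirs := by decide
  have hPfin : (E1_PA s n).Finite := (E1_AA_fin n).subset (fun u hu => hu.1)
  -- the words
  have h1 : {t | t ∈ SM (n + 1) ∧ Ext s t} ⊆ E1_ext '' (E1_PA s n ×ˢ Set.univ) := by
    rintro t ⟨ht, i, k, i1, i2, k1, k2, hik⟩
    rw [E1_SM hn] at ht
    obtain ⟨⟨u, a, z⟩, ⟨hu, _⟩, rfl⟩ := ht
    simp only at hu
    have hlen : (E1_ext (u, a, z)).length = n + 1 := by
      unfold E1_ext
      have := hu.1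
      simp only [List.length_cons, List.length_append, List.length_nil]
      omega
    rw [hlen] at i2 k2
    refine ⟨(u, a, z), ⟨⟨hu, ?_⟩, trivial⟩, rfl⟩
    obtain ⟨i', rfl⟩ : ∃ i', i = 1 + i' := ⟨i - 1, by omega⟩
    obtain ⟨k', rfl⟩ : ∃ k', k = 1 + k' := ⟨k - 1, by omega⟩
    refine ⟨i', k', by omega, by omega, ?_⟩
    have h2 : lev (E1_ext (u, a, z)) (1 + i') - lev (E1_ext (u, a, z)) (1 + k') =
        ip (mulE (rotTo up (turn a up)) (vx oo up u i' - vx oo up u k')) up := by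
      unfold lev
      rw [E1_vx u hu.1 a z (by omega), E1_vx u hu.1 a z (by omega), mulE_sub, ip_sub_left, ip_add_left, ip_add_left]
      ring
    have h3 := E1_ip (mulE (rotTo up (turn a up)) (vx oo up u i' - vx oo up u k'))
    rw [nrm_mulE, nrm_rotTo hup (hturn a), one_mul, ← h2] at h3
    refine le_trans ?_ h3
    have hs' : (1 : ℤ) ≤ s := by exact_mod_cast hs
    nlinarith
  have h2 : {t | t ∈ SM (n + 1) ∧ Ext s t}.ncard ≤ 4 * (E1_PA s n).ncard := by
    rw [← E1_card]
    exact Set.ncard_le_ncard h1 ((hPfin.prod Set.finite_univ).image _)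
  -- the walks
  have hS3 : ((SawNu.hexL.S false : Finset (ℤ × ℤ)) : Set (ℤ × ℤ)).ncard = 3 := by
    rw [Set.ncard_coe_finset]
    simp only [SawNu.hexL, cond_false]
    decide
  have hinj : Set.InjOn (fun p : (ℤ × ℤ) × List Bool => (HexMu.stepsOf (HexMu.phi p.1) p.2).map HexMu.psi)
      (((SawNu.hexL.S false : Finset (ℤ × ℤ)) : Set (ℤ × ℤ)) ×ˢ E1_PA s n) := by
    rintro ⟨s, t⟩ ⟨hs, _⟩ ⟨s', t'⟩ ⟨hs', _⟩ he
    simp only [Finset.mem_coe] at hs hs' he
    have h1 := HexMu.map_psi_inj he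
    obtain ⟨l, hl⟩ := HexMu.stepsOf_head (HexMu.phi s) t
    obtain ⟨l', hl'⟩ := HexMu.stepsOf_head (HexMu.phi s') t'
    have h2 : HexMu.phi s = HexMu.phi s' := by
      rw [hl, hl'] at h1
      exact (List.cons.inj h1).1
    have h3 : s = s' := by rw [← HexMu.psi_phi hs, ← HexMu.psi_phi hs', h2]
    subst h3
    rw [HexMu.stepsOf_inj (HexMu.phi_dirs hs) h1]
  have hsub : (fun p : (ℤ × ℤ) × List Bool => (HexMu.stepsOf (HexMu.phi p.1) p.2).map HexMu.psi) ''
      (((SawNu.hexL.S false : Finset (ℤ × ℤ)) : Set (ℤ × ℤ)) ×ˢ E1_PA s n) ⊆ (WE s n : Set (List SawNu.Pt)) := by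
    rintro _ ⟨⟨v, t⟩, ⟨hv, ⟨h1, h2⟩, i, k, hi, hk, hik⟩, rfl⟩
    simp only at hv h1 h2 ⊢
    rw [Finset.mem_coe] at hv
    have hd := HexMu.phi_dirs hv
    have hps : ∀ j, j ≤ n → SawNu.ps ((HexMu.stepsOf (HexMu.phi v) t).map HexMu.psi) j =
        HexMu.psi (mulE (rotTo up (HexMu.phi v)) (vx oo up t j)) := by
      intro j hj
      rw [HexMu.ps_map_psi]
      have h4 := HexMu.ps_stepsOf oo (HexMu.phi v) t j (by omega)
      have e1 : (oo : Pt) + SawNu.ps (HexMu.stepsOf (HexMu.phi v) t) j = SawNu.ps (HexMu.stepsOf (HexMu.phi v) t) j :=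
        zero_add _
      rw [e1] at h4
      rw [h4]
      have h5 := vx_mulE (rotTo up (HexMu.phi v)) oo oo up t j
      rw [rotTo_apply _ hup] at h5
      rw [h5]
      have e2 : ∀ p : Pt, oo + p = p := fun p => zero_add p
      have e3 : ∀ p : Pt, p - oo = p := fun p => sub_zero p
      rw [e2, e3]
    rw [Finset.mem_coe]
    unfold WE
    rw [Finset.mem_filter]
    constructor
    · rw [SawNu.mem_WS]
      refine ⟨?_, HexMu.stepsOf_tw hd (by rw [HexMu.psi_phi hv]; exact hv) _, ?_⟩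
      · rw [List.length_map, HexMu.stepsOf_length]
        exact h1
      · intro i j hij hj he
        rw [List.length_map, HexMu.stepsOf_length] at hj
        rw [HexMu.ps_map_psi, HexMu.ps_map_psi] at he
        have h3 := HexMu.psi_inj he
        have h4 := HexMu.ps_stepsOf oo (HexMu.phi v) t i (by omega)
        have h5 := HexMu.ps_stepsOf oo (HexMu.phi v) t j hj
        apply h2 i j hij (by omega)
        apply dist_rot hd hup oo oo
        rw [← h4, ← h5, h3]
    · refine ⟨i, k, hi, hk, ?_⟩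
      rw [hps i hi, hps k hk, ← map_sub, ← HexMu.psi_sub, ← mulE_sub, E1_norm, nrm_mulE, nrm_rotTo hup hd, one_mul]
      have h6 : ((3 * (s : ℤ) - 2 : ℤ) : ℝ) ^ 2 ≤ 4 * ((nrm (vx oo up t i - vx oo up t k) : ℤ) : ℝ) := by
        exact_mod_cast hik
      push_cast at h6
      linarith
  have h3 : 3 * (E1_PA s n).ncard ≤ (WE s n).card := by
    have h4 := Set.ncard_le_ncard hsub (Finset.finite_toSet _)
    rw [Set.ncard_image_of_injOn hinj, Set.ncard_prod, hS3, Set.ncard_coe_finset] at h4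
    exact h4
  omega

end E1

end SDE

end HexObs
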