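import Pool.Agent.SDE.FoldSum0
import Pool.Agent.SDE.Fold

/-!
SD13, (U).
-/

set_option autoImplicit false

namespace HexObs

namespace SDE

theorem foldSt : FoldSt := fun hN _ hw => fold hN hw

/-- **(U)** -/
theorem zr_sub_fr (W s N : ℕ) (hs : 1 ≤ s) (hN : 2 ≤ N) :
    zr N - fr s N ≤ (8 / xc) * ∑ j ∈ Finset.Icc (N - 1) (N + 1), ∑ k ∈ Finset.range (j + 1),
      gr W s k * tr W (j - k) :=
  zr_sub_fr_of foldSt W s N hs hN

end SDE

end HexObs
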