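import Pool.Agent.SDE.InsL

/-!
SD13, (L): lower bound for the words with large vertical extent.
-/

set_option autoImplicit false

namespace HexObs

open Complex Finset ENNReal

namespace SDE

lemma TK_fin (W M : ℕ) : {p | p ∈ TP W ∧ p.1.length + p.2.length = M}.Finite := by
  apply Set.Finite.subset ((fin_list M).prod (fin_list M))
  rintro ⟨a, b⟩ ⟨_, h⟩
  simp only at h
  exact ⟨by show a.length ≤ M; omega, by show b.length ≤ M; omega⟩

lemma SM_fin (N : ℕ) : (SM N).Finite := by
  apply Set.Finite.subset (fin_list N)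
  rintro a ⟨h, _⟩
  exact h.le

lemma SME_fin (s N : ℕ) : {t | t ∈ SM N ∧ Ext s t}.Finite := (SM_fin N).subset fun _ h => h.1

lemma tr_nonneg (W M : ℕ) : 0 ≤ tr W M := mul_nonneg (pow_nonneg xc_pos.le _) (Nat.cast_nonneg _)

lemma zr_nonneg (N : ℕ) : 0 ≤ zr N := mul_nonneg (pow_nonneg xc_pos.le _) (Nat.cast_nonneg _)

lemma fr_nonneg (s N : ℕ) : 0 ≤ fr s N := mul_nonneg (pow_nonneg xc_pos.le _) (Nat.cast_nonneg _)

lemma fr_le_zr (s N : ℕ) : fr s N ≤ zr N := by
  unfold fr zr
  apply mul_le_mul_of_nonneg_left _ (pow_nonneg xc_pos.le _)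
  exact_mod_cast Set.ncard_le_ncard (fun t (h : t ∈ {t | t ∈ SM N ∧ Ext s t}) => h.1) (SM_fin N)

/-- number of the triples -/
lemma card_triples {W s N : ℕ} (hs : 1 ≤ s) (hW : 1 ≤ W) :
    ∑ k ∈ Finset.range (min W N + 1), (BP_fin s k).toFinset.card * (TK_fin W (N - k)).toFinset.card ≤
      (N / W + 1) * (SME_fin s N).toFinset.card := by
  classical
  set Q : Finset (List Bool × (List Bool × List Bool)) :=
    (Finset.range (min W N + 1)).biUnion fun k => (BP_fin s k).toFinset ×ˢ (TK_fin W (N - k)).toFinset with hQ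
  have hmem : ∀ q ∈ Q, ∃ T, s ≤ T ∧ q.1 ∈ Brd T ∧ q.1.length ≤ W ∧ q.2.1 ∈ TU W ∧ q.2.2 ∈ TT W ∧
      q.1.length + (q.2.1.length + q.2.2.length) = N := by
    intro q hq
    rw [hQ, Finset.mem_biUnion] at hq
    obtain ⟨k, hk, hq⟩ := hq
    rw [Finset.mem_range] at hk
    rw [Finset.mem_product, Set.Finite.mem_toFinset, Set.Finite.mem_toFinset] at hq
    obtain ⟨⟨⟨T, h1, _, h2⟩, h3⟩, ⟨h4, h5⟩, h6⟩ := hq
    exact ⟨T, h1, h2, by omega, h4, h5, by omega⟩
  have hcard : Q.card = ∑ k ∈ Finset.range (min W N + 1),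
      (BP_fin s k).toFinset.card * (TK_fin W (N - k)).toFinset.card := by
    rw [hQ, Finset.card_biUnion]
    · exact Finset.sum_congr rfl fun k _ => Finset.card_product _ _
    · intro j _ k _ hjk
      rw [Function.onFun, Finset.disjoint_left]
      intro q h1 h2
      rw [Finset.mem_product, Set.Finite.mem_toFinset, Set.Finite.mem_toFinset] at h1 h2
      exact hjk (h1.1.2.symm.trans h2.1.2)
  rw [← hcard]
  set f : List Bool × (List Bool × List Bool) → List Bool := fun q => rev q.2.1 ++ (q.1 ++ q.2.2) with hf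
  have h1 : Q.card ≤ (N / W + 1) * (Q.image f).card := by
    apply Finset.card_le_mul_card_image
    intro a _
    rw [← Finset.card_range (N / W + 1)]
    apply Finset.card_le_card_of_injOn (fun q => q.2.1.length / W)
    · intro q hq
      rw [Finset.mem_coe, Finset.mem_filter] at hq
      obtain ⟨T, _, _, _, _, _, h6⟩ := hmem q hq.1
      rw [Finset.mem_coe, Finset.mem_range]
      have : q.2.1.length / W ≤ N / W := Nat.div_le_div_right (by omega)
      show q.2.1.length / W < N / W + 1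
      omega
    · intro q hq q' hq' he
      rw [Finset.mem_coe, Finset.mem_filter] at hq hq'
      obtain ⟨hq, hqa⟩ := hq
      obtain ⟨hq', hqa'⟩ := hq'
      obtain ⟨T, a1, a2, a3, a4, a5, a6⟩ := hmem q hq
      obtain ⟨T', b1, b2, b3, b4, b5, b6⟩ := hmem q' hq'
      have hfe : rev q.2.1 ++ (q.1 ++ q.2.2) = rev q'.2.1 ++ (q'.1 ++ q'.2.2) := hqa.trans hqa'.symm
      have he' : q.2.1.length / W = q'.2.1.length / W := he
      have key : q.2.1.length = q'.2.1.length := by
        rcases lt_trichotomy q.2.1.length q'.2.1.length with h | h | h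
        · exfalso
          have h2 := sep_lt a4 a2 a3 a5 b4 b2 b5 hfe h
          have h3 : (q.2.1.length + W) / W ≤ q'.2.1.length / W := Nat.div_le_div_right (by omega)
          rw [Nat.add_div_right _ (by omega)] at h3
          omega
        · exact h
        · exfalso
          have h2 := sep_lt b4 b2 b3 b5 a4 a2 a5 hfe.symm h
          have h3 : (q'.2.1.length + W) / W ≤ q.2.1.length / W := Nat.div_le_div_right (by omega)
          rw [Nat.add_div_right _ (by omega)] at h3
          omega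
      obtain ⟨e1, e2, e3⟩ := sep_eq a2 a3 a5 b2 b3 b5 hfe key
      ext1
      · exact e2
      · ext1
        · exact e1
        · exact e3
  refine h1.trans (Nat.mul_le_mul_left _ (Finset.card_le_card ?_))
  intro t ht
  rw [Finset.mem_image] at ht
  obtain ⟨q, hq, rfl⟩ := ht
  obtain ⟨T, a1, a2, a3, a4, a5, a6⟩ := hmem q hq
  rw [Set.Finite.mem_toFinset]
  have hA := rev_LW a4.1.1 a4.2
  refine ⟨?_, ins_ext hs a1 hA a2⟩
  have h2 := ins_mem hA (HW_append a2 a5.1)
  rw [rev_length, List.length_append] at h2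
  rw [← show q.2.1.length + (q.1.length + q.2.2.length) = N by omega]
  exact h2

/-- **(L)** -/
theorem ar_tr_le {W s : ℕ} (hs : 1 ≤ s) (hW : 1 ≤ W) (N : ℕ) :
    ∑ k ∈ Finset.range (min W N + 1), ar s k * tr W (N - k) ≤ ((N : ℝ) / W + 1) * fr s N := by
  have hW0 : (0 : ℝ) < W := by exact_mod_cast hW
  have hx : ∀ n : ℕ, (0 : ℝ) ≤ xc ^ n := fun n => pow_nonneg xc_pos.le n
  have h1 : ∀ k ∈ Finset.range (min W N + 1), ar s k * tr W (N - k) =
      xc ^ N * (((BP_fin s k).toFinset.card * (TK_fin W (N - k)).toFinset.card : ℕ) : ℝ) := by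
    intro k hk
    rw [Finset.mem_range] at hk
    have hkN : xc ^ N = xc ^ k * xc ^ (N - k) := by
      rw [← pow_add]
      congr 1
      omega
    unfold ar tr
    rw [Nat.card_coe_set_eq, Nat.card_coe_set_eq, Set.ncard_eq_toFinset_card _ (BP_fin s k),
      Set.ncard_eq_toFinset_card _ (TK_fin W (N - k)), hkN]
    push_cast
    ring
  rw [Finset.sum_congr rfl h1, ← Finset.mul_sum, ← Nat.cast_sum]
  have h2 : ((∑ k ∈ Finset.range (min W N + 1), (BP_fin s k).toFinset.card * (TK_fin W (N - k)).toFinset.card : ℕ) : ℝ) ≤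
      ((N : ℝ) / W + 1) * ((SME_fin s N).toFinset.card : ℝ) := by
    calc ((∑ k ∈ Finset.range (min W N + 1), (BP_fin s k).toFinset.card * (TK_fin W (N - k)).toFinset.card : ℕ) : ℝ)
        ≤ (((N / W + 1) * (SME_fin s N).toFinset.card : ℕ) : ℝ) := by exact_mod_cast card_triples hs hW
      _ = (((N / W : ℕ) : ℝ) + 1) * ((SME_fin s N).toFinset.card : ℝ) := by push_cast; ring
      _ ≤ ((N : ℝ) / W + 1) * ((SME_fin s N).toFinset.card : ℝ) := by
          apply mul_le_mul_of_nonneg_right _ (Nat.cast_nonneg _)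
          have : ((N / W : ℕ) : ℝ) ≤ (N : ℝ) / W := Nat.cast_div_le
          linarith
  unfold fr
  rw [Set.ncard_eq_toFinset_card _ (SME_fin s N)]
  calc xc ^ N * ((∑ k ∈ Finset.range (min W N + 1), (BP_fin s k).toFinset.card *
        (TK_fin W (N - k)).toFinset.card : ℕ) : ℝ)
      ≤ xc ^ N * (((N : ℝ) / W + 1) * ((SME_fin s N).toFinset.card : ℝ)) := mul_le_mul_of_nonneg_left h2 (hx N)
    _ = ((N : ℝ) / W + 1) * (xc ^ N * ((SME_fin s N).toFinset.card : ℝ)) := by ring

end SDE

end HexObs
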