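import Pool.Agent.SDE.MsqE

/-!
SD13: from the window theorem for words to the walks.
-/

set_option autoImplicit false

open scoped Classical

namespace HexObs

open Finset

namespace SDE

/-- mean square end-to-end distance of the walks with N steps on the hexagonal lattice -/
noncomputable def RW (N : ℕ) : ℝ := (∑ l ∈ SawNu.WS SawNu.hexL N, ‖SawNu.encHex.φ l.sum‖ ^ 2) /
  ((SawNu.WS SawNu.hexL N).card : ℝ)

lemma WS_pos (N : ℕ) : (0 : ℝ) < (SawNu.WS SawNu.hexL N).card := by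
  obtain ⟨l, hl, -⟩ := SawNu.hexRot.exists_up N
  exact_mod_cast Finset.card_pos.mpr ⟨l, hl⟩

lemma RW_pos {N : ℕ} (hN : 1 ≤ N) : 0 < RW N := by
  obtain ⟨l, hl, hlt⟩ := SawNu.hexRot.exists_up N
  have h1 : ((N : ℝ)) ^ 2 / 2 ≤ ‖SawNu.encHex.φ l.sum‖ ^ 2 := by
    have h2 := SawNu.encHex.low l.sum
    have h3 : (l.sum.2 : ℤ) = N := hlt
    rw [h3, Int.cast_natCast] at h2
    exact h2
  have h2 : ‖SawNu.encHex.φ l.sum‖ ^ 2 ≤ ∑ l ∈ SawNu.WS SawNu.hexL N, ‖SawNu.encHex.φ l.sum‖ ^ 2 :=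
    Finset.single_le_sum (f := fun l : List SawNu.Pt => ‖SawNu.encHex.φ l.sum‖ ^ 2) (fun _ _ => sq_nonneg _) hl
  have h3 : (0 : ℝ) < (N : ℝ) ^ 2 / 2 := by
    have : (1 : ℝ) ≤ N := by exact_mod_cast hN
    positivity
  exact div_pos (lt_of_lt_of_le h3 (h1.trans h2)) (WS_pos N)

/-- a set of words with large extent of density η gives a lower bound for the mean square end-to-end distance -/
lemma RW_ge {ε c : ℝ} (hc0 : 0 < c) (hc : ∀ s n : ℕ, 1 ≤ s → 1 ≤ n →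
    c * (n : ℝ) ^ (-ε) * (s : ℝ) ^ 2 * (WE s n).card ≤ ∑ l ∈ SawNu.WS SawNu.hexL n, ‖SawNu.encHex.φ l.sum‖ ^ 2)
    {s N : ℕ} {η : ℝ} (hs : 1 ≤ s) (hN : 2 ≤ N) (h : η * zr N ≤ fr s N) :
    c * ((N - 1 : ℕ) : ℝ) ^ (-ε) * (s : ℝ) ^ 2 * η ≤ RW (N - 1) := by
  have hx : 0 < xc ^ N := pow_pos xc_pos N
  have h1 : η * ((SM N).ncard : ℝ) ≤ ({t | t ∈ SM N ∧ Ext s t}.ncard : ℝ) := by
    unfold zr fr at h
    have h2 : xc ^ N * (η * ((SM N).ncard : ℝ)) ≤ xc ^ N * ({t | t ∈ SM N ∧ Ext s t}.ncard : ℝ) := by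
      linarith
    exact le_of_mul_le_mul_left h2 hx
  have h2 : 3 * ((SM N).ncard : ℝ) = 4 * ((SawNu.WS SawNu.hexL (N - 1)).card : ℝ) := by
    exact_mod_cast dict_card hN
  have h3 : 3 * ({t | t ∈ SM N ∧ Ext s t}.ncard : ℝ) ≤ 4 * ((WE s (N - 1)).card : ℝ) := by
    exact_mod_cast dict_ext hs hN
  have h4 : η * ((SawNu.WS SawNu.hexL (N - 1)).card : ℝ) ≤ ((WE s (N - 1)).card : ℝ) := by
    have : ((SawNu.WS SawNu.hexL (N - 1)).card : ℝ) = 3 * ((SM N).ncard : ℝ) / 4 := by linarith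
    rw [this]
    linarith
  have h5 := hc s (N - 1) hs (by omega)
  unfold RW
  rw [le_div_iff₀ (WS_pos _)]
  refine le_trans ?_ h5
  have hn : (0 : ℝ) ≤ ((N - 1 : ℕ) : ℝ) ^ (-ε) := Real.rpow_nonneg (Nat.cast_nonneg _) _
  calc c * ((N - 1 : ℕ) : ℝ) ^ (-ε) * (s : ℝ) ^ 2 * η * ((SawNu.WS SawNu.hexL (N - 1)).card : ℝ)
      = c * ((N - 1 : ℕ) : ℝ) ^ (-ε) * (s : ℝ) ^ 2 * (η * ((SawNu.WS SawNu.hexL (N - 1)).card : ℝ)) := by ring
    _ ≤ c * ((N - 1 : ℕ) : ℝ) ^ (-ε) * (s : ℝ) ^ 2 * ((WE s (N - 1)).card : ℝ) :=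
        mul_le_mul_of_nonneg_left h4 (by positivity)

/-- from the windows of words to the windows of walks -/
theorem walks_of_window {C p κ : ℝ} (hC : 1 ≤ C) (hp : 1 ≤ p) (hκ0 : 0 ≤ κ) (hκ : 1 + κ < 2 / p)
    (hw : ∀ σ : ℝ, 0 < σ → σ < 1 / 4 → ∃ n0 : ℕ, ∀ n : ℕ, n0 ≤ n → ∀ s : ℕ, 1 ≤ s →
      C * (s : ℝ) ^ p ≤ (n : ℝ) ^ (1 - σ) / 2 →
      ∃ N : ℕ, n ≤ N ∧ (N : ℝ) ≤ n + (n : ℝ) ^ (1 - σ / 2) ∧ (n : ℝ) ^ (-(2 * σ)) * zr N ≤ fr s N) :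
    ∃ δ K : ℝ, 0 < δ ∧ δ < 1 ∧ 0 < K ∧ ∀ n : ℕ, 1 ≤ n → ∃ N : ℕ, n ≤ N ∧
      (N : ℝ) ≤ n + K * (n : ℝ) ^ (1 - δ) ∧ (N : ℝ) ^ (1 + κ) ≤ K * RW N := by
  have hp0 : 0 < p := by linarith
  have hC0 : 0 < C := by linarith
  obtain ⟨a, ha⟩ : ∃ a : ℝ, a = 2 / p - (1 + κ) := ⟨_, rfl⟩
  have ha0 : 0 < a := by linarith
  obtain ⟨σ, hσ⟩ : ∃ σ : ℝ, σ = min (1 / 8) (a / 8) := ⟨_, rfl⟩
  have hσ0 : 0 < σ := by rw [hσ]; exact lt_min (by norm_num) (by linarith)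
  have hσ1 : σ ≤ 1 / 8 := by rw [hσ]; exact min_le_left _ _
  have hσa : σ ≤ a / 8 := by rw [hσ]; exact min_le_right _ _
  obtain ⟨n0, hn0⟩ := hw σ hσ0 (by linarith)
  obtain ⟨c, hc0, hc⟩ := msq_ge hσ0
  -- large n
  have hev := (tendsto_natCast_atTop_atTop (R := ℝ)).eventually
    ((tendsto_rpow_atTop (y := 1 - σ) (by linarith)).eventually_ge_atTop (2 * C))
  obtain ⟨n1, hn1⟩ := Filter.eventually_atTop.1 hev
  obtain ⟨n2, hn2⟩ : ∃ n2 : ℕ, n2 = max n0 (max n1 1) := ⟨_, rfl⟩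
  obtain ⟨D, hD⟩ : ∃ D : ℝ, D = c * 4 ^ (-σ) * (1 / (4 * (2 * C) ^ (2 / p))) * 2 ^ (-(2 * σ)) := ⟨_, rfl⟩
  have hD0 : 0 < D := by rw [hD]; positivity
  have hlarge : ∀ n : ℕ, n2 ≤ n → ∃ N : ℕ, n ≤ N ∧ (N : ℝ) ≤ n + 2 * (n : ℝ) ^ (1 - σ / 2) ∧
      (N : ℝ) ^ (1 + κ) ≤ 4 ^ (1 + κ) / D * RW N := by
    intro n hn
    have hn_1 : 1 ≤ n := by omega
    have hnR : (1 : ℝ) ≤ n := by exact_mod_cast hn_1
    have hnp : (0 : ℝ) < n := by linarith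
    obtain ⟨m, hm⟩ : ∃ m : ℕ, m = n + 1 := ⟨_, rfl⟩
    have hmR : (m : ℝ) = n + 1 := by rw [hm]; push_cast; ring
    have hm2 : (m : ℝ) ≤ 2 * n := by linarith
    have hmn : (n : ℝ) ≤ m := by linarith
    have hmp : (0 : ℝ) < m := by linarith
    obtain ⟨y, hy⟩ : ∃ y : ℝ, y = (m : ℝ) ^ (1 - σ) / (2 * C) := ⟨_, rfl⟩
    have hy1 : 1 ≤ y := by
      rw [hy, le_div_iff₀ (by positivity), one_mul]
      exact hn1 m (by omega)
    have hy0 : 0 < y := by linarith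
    obtain ⟨s, hs⟩ : ∃ s : ℕ, s = ⌊y ^ (1 / p)⌋₊ := ⟨_, rfl⟩
    have hyp : 1 ≤ y ^ (1 / p) := Real.one_le_rpow hy1 (by positivity)
    have hs1 : 1 ≤ s := by
      rw [hs]; exact (Nat.one_le_floor_iff _).2 hyp
    have hs2 : (s : ℝ) ≤ y ^ (1 / p) := by rw [hs]; exact Nat.floor_le (by positivity)
    have hs3 : y ^ (1 / p) / 2 ≤ s := by
      have h1 := Nat.lt_floor_add_one (y ^ (1 / p))
      rw [← hs] at h1
      have h2 : (1 : ℝ) ≤ s := by exact_mod_cast hs1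
      linarith
    have hsR : (1 : ℝ) ≤ s := by exact_mod_cast hs1
    have hs4 : C * (s : ℝ) ^ p ≤ (m : ℝ) ^ (1 - σ) / 2 := by
      have h1 : (s : ℝ) ^ p ≤ y := by
        calc (s : ℝ) ^ p ≤ (y ^ (1 / p)) ^ p := Real.rpow_le_rpow (by linarith) hs2 hp0.le
          _ = y := by
            rw [← Real.rpow_mul hy0.le, one_div, inv_mul_cancel₀ hp0.ne', Real.rpow_one]
      have h2 : C * y = (m : ℝ) ^ (1 - σ) / 2 := by rw [hy]; field_simp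
      rw [← h2]
      exact mul_le_mul_of_nonneg_left h1 hC0.le
    obtain ⟨N1, k1, k2, k3⟩ := hn0 m (by omega) s hs1 hs4
    have hN1 : 2 ≤ N1 := by omega
    have hcast : ((N1 - 1 : ℕ) : ℝ) = (N1 : ℝ) - 1 := by
      rw [Nat.cast_sub (by omega)]; simp
    have hm5 : (m : ℝ) ^ (1 - σ / 2) ≤ 2 * (n : ℝ) ^ (1 - σ / 2) := by
      calc (m : ℝ) ^ (1 - σ / 2) ≤ (2 * (n : ℝ)) ^ (1 - σ / 2) :=
            Real.rpow_le_rpow hmp.le hm2 (by linarith)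
        _ = 2 ^ (1 - σ / 2) * (n : ℝ) ^ (1 - σ / 2) := Real.mul_rpow (by norm_num) hnp.le
        _ ≤ 2 * (n : ℝ) ^ (1 - σ / 2) := by
          apply mul_le_mul_of_nonneg_right _ (by positivity)
          calc (2 : ℝ) ^ (1 - σ / 2) ≤ 2 ^ (1 : ℝ) :=
                Real.rpow_le_rpow_of_exponent_le (by norm_num) (by linarith)
            _ = 2 := Real.rpow_one _
    have hm6 : (m : ℝ) ^ (1 - σ / 2) ≤ m := by
      calc (m : ℝ) ^ (1 - σ / 2) ≤ (m : ℝ) ^ (1 : ℝ) :=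
            Real.rpow_le_rpow_of_exponent_le (by linarith) (by linarith)
        _ = m := Real.rpow_one _
    obtain ⟨N, hN⟩ : ∃ N : ℕ, N = N1 - 1 := ⟨_, rfl⟩
    have hNn : n ≤ N := by omega
    have hNR : (N : ℝ) = N1 - 1 := by rw [hN, hcast]
    have hN4 : (N : ℝ) ≤ 4 * n := by
      rw [hNR]; linarith
    have hNp : (0 : ℝ) < N := by
      have : (n : ℝ) ≤ N := by exact_mod_cast hNn
      linarith
    refine ⟨N, hNn, by rw [hNR]; linarith, ?_⟩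
    have hR := RW_ge hc0 hc hs1 hN1 k3
    rw [← hN] at hR
    -- lower bounds for the factors
    have f1 : (4 : ℝ) ^ (-σ) * (n : ℝ) ^ (-σ) ≤ (N : ℝ) ^ (-σ) := by
      rw [← Real.mul_rpow (by norm_num) hnp.le]
      exact Real.rpow_le_rpow_of_nonpos hNp hN4 (by linarith)
    have f2 : (2 : ℝ) ^ (-(2 * σ)) * (n : ℝ) ^ (-(2 * σ)) ≤ (m : ℝ) ^ (-(2 * σ)) := by
      rw [← Real.mul_rpow (by norm_num) hnp.le]
      exact Real.rpow_le_rpow_of_nonpos hmp hm2 (by linarith)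
    have f3 : 1 / (4 * (2 * C) ^ (2 / p)) * (n : ℝ) ^ ((1 - σ) * (2 / p)) ≤ (s : ℝ) ^ 2 := by
      have g1 : y ^ (2 / p) / 4 ≤ (s : ℝ) ^ 2 := by
        have g2 : y ^ (2 / p) = (y ^ (1 / p)) ^ 2 := by
          rw [← Real.rpow_natCast, ← Real.rpow_mul hy0.le]
          congr 1
          push_cast
          ring
        rw [g2]
        nlinarith [Real.rpow_nonneg hy0.le (1 / p)]
      have g3 : (n : ℝ) ^ ((1 - σ) * (2 / p)) / (2 * C) ^ (2 / p) ≤ y ^ (2 / p) := by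
        rw [hy, Real.div_rpow (by positivity) (by positivity), ← Real.rpow_mul hmp.le]
        apply div_le_div_of_nonneg_right _ (by positivity)
        apply Real.rpow_le_rpow hnp.le hmn
        apply mul_nonneg (by linarith) (by positivity)
      calc 1 / (4 * (2 * C) ^ (2 / p)) * (n : ℝ) ^ ((1 - σ) * (2 / p))
          = ((n : ℝ) ^ ((1 - σ) * (2 / p)) / (2 * C) ^ (2 / p)) / 4 := by field_simp
        _ ≤ y ^ (2 / p) / 4 := div_le_div_of_nonneg_right g3 (by norm_num)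
        _ ≤ _ := g1
    have f4 : D * (n : ℝ) ^ (1 + κ) ≤ RW N := by
      calc D * (n : ℝ) ^ (1 + κ) ≤ D * (n : ℝ) ^ (-σ + (1 - σ) * (2 / p) + -(2 * σ)) := by
            apply mul_le_mul_of_nonneg_left _ hD0.le
            apply Real.rpow_le_rpow_of_exponent_le hnR
            have h1 : 2 / p ≤ 2 := by
              rw [div_le_iff₀ hp0]; linarith
            nlinarith
        _ = c * (4 ^ (-σ) * (n : ℝ) ^ (-σ)) * (1 / (4 * (2 * C) ^ (2 / p)) * (n : ℝ) ^ ((1 - σ) * (2 / p))) *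
            (2 ^ (-(2 * σ)) * (n : ℝ) ^ (-(2 * σ))) := by
            rw [Real.rpow_add hnp, Real.rpow_add hnp, hD]; ring
        _ ≤ c * (N : ℝ) ^ (-σ) * (s : ℝ) ^ 2 * (m : ℝ) ^ (-(2 * σ)) := by
            gcongr
        _ ≤ _ := hR
    calc (N : ℝ) ^ (1 + κ) ≤ (4 * (n : ℝ)) ^ (1 + κ) := Real.rpow_le_rpow hNp.le hN4 (by linarith)
      _ = 4 ^ (1 + κ) / D * (D * (n : ℝ) ^ (1 + κ)) := by
          rw [Real.mul_rpow (by norm_num) hnp.le]; field_simp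
      _ ≤ 4 ^ (1 + κ) / D * RW N := mul_le_mul_of_nonneg_left f4 (by positivity)
  -- all n
  obtain ⟨Ks, hKs⟩ : ∃ Ks : ℝ, Ks = ∑ m ∈ Finset.Ico 1 n2, (m : ℝ) ^ (1 + κ) / RW m := ⟨_, rfl⟩
  have hterm : ∀ m ∈ Finset.Ico 1 n2, 0 ≤ (m : ℝ) ^ (1 + κ) / RW m := by
    intro m hm
    rw [Finset.mem_Ico] at hm
    have := RW_pos hm.1
    positivity
  have hKs0 : 0 ≤ Ks := by rw [hKs]; exact Finset.sum_nonneg hterm
  refine ⟨σ / 2, 2 + Ks + 4 ^ (1 + κ) / D, by linarith, by linarith, by positivity, fun n hn => ?_⟩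
  have hnR : (1 : ℝ) ≤ n := by exact_mod_cast hn
  rcases Nat.lt_or_ge n n2 with h | h
  · refine ⟨n, le_rfl, ?_, ?_⟩
    · have : 0 ≤ (2 + Ks + 4 ^ (1 + κ) / D) * (n : ℝ) ^ (1 - σ / 2) := by positivity
      linarith
    · have h1 := Finset.single_le_sum hterm (Finset.mem_Ico.2 ⟨hn, h⟩)
      rw [← hKs] at h1
      have h2 := RW_pos hn
      rw [div_le_iff₀ h2] at h1
      refine h1.trans ?_
      apply mul_le_mul_of_nonneg_right _ h2.le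
      have : 0 ≤ (4 : ℝ) ^ (1 + κ) / D := by positivity
      linarith
  · obtain ⟨N, k1, k2, k3⟩ := hlarge n h
    refine ⟨N, k1, k2.trans ?_, k3.trans ?_⟩
    · have h1 : 0 ≤ (n : ℝ) ^ (1 - σ / 2) := by positivity
      have h2 : 0 ≤ (4 : ℝ) ^ (1 + κ) / D := by positivity
      nlinarith [mul_nonneg hKs0 h1, mul_nonneg h2 h1]
    · apply mul_le_mul_of_nonneg_right _ (RW_pos (by omega)).le
      linarith

/-- the mean square in the encoding of the problem -/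
theorem RW_enc (f : ℕ → Fin 3 → ℂ)
    (hf : ∀ i a, f i a = (-1 : ℂ) ^ i * Complex.exp (2 * (Real.pi : ℂ) * Complex.I * ((a : ℕ) : ℂ) / 3)) (N : ℕ) :
    RW N = (∑ s ∈ Finset.univ.filter (fun s : Fin N → Fin 3 => SawNu.SAC f N s),
        ‖∑ i : Fin N, f (i : ℕ) (s i)‖ ^ 2) /
        ((Finset.univ.filter (fun s : Fin N → Fin 3 => SawNu.SAC f N s)).card : ℝ) := by
  have hf' : ∀ i a, f i a = SawNu.encHex.φ (SawNu.encHex.st i.bodd a) := fun i a => by rw [hf, SawNu.hex_enc]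
  rw [RW, ← SawNu.encHex.bridge hf' N (fun z => ‖z‖ ^ 2), ← SawNu.encHex.bridge_card hf' N]

/-- the same with SawNu.saw and SawNu.pos -/
theorem RW_saw (f : ℕ → Fin 3 → ℂ)
    (hf : ∀ i a, f i a = (-1 : ℂ) ^ i * Complex.exp (2 * (Real.pi : ℂ) * Complex.I * ((a : ℕ) : ℂ) / 3)) (N : ℕ) :
    RW N = (∑ s ∈ SawNu.saw f N, ‖SawNu.pos f s N‖ ^ 2) / ((SawNu.saw f N).card : ℝ) := by
  rw [RW_enc f hf]
  have hsaw : SawNu.saw f N = Finset.univ.filter (fun s : Fin N → Fin 3 => SawNu.SAC f N s) := by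
    ext s
    rw [SawNu.saw, Finset.mem_filter, Finset.mem_filter]
    exact Iff.rfl
  rw [hsaw]
  congr 1
  apply Finset.sum_congr rfl
  intro s _
  rw [SawNu.pos]
  congr 2
  apply Finset.sum_congr _ (fun _ _ => rfl)
  ext i
  simp

end SDE

end HexObs
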