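import Pool.Agent.SDE.Window
import Pool.Agent.SDE.FoldSum
import Pool.Agent.SDE.InsSum
import Pool.Agent.SDE.Walks
import Pool.Agent.PHW8.Final8b

/-!
SD13: the window theorem for the words of the hexagonal lattice, and the transfer from the mean length of
the critical bridges to the walks.
-/

set_option autoImplicit false

open scoped Classical

namespace HexObs

open Finset ENNReal

namespace SDE

private lemma WI_xc_half : 1 / 2 ≤ xc := by
  unfold xc
  have h1 : 0 < Real.cos (Real.pi / 8) := by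
    apply Real.cos_pos_of_mem_Ioo
    constructor <;> linarith [Real.pi_pos]
  have h2 := Real.cos_le_one (Real.pi / 8)
  apply one_div_le_one_div_of_le (by positivity)
  linarith

private lemma WI_xc_one : xc ≤ 1 := by
  have h3 : (1 : ℝ) / 2 ≤ Real.cos (Real.pi / 8) := by
    rw [← Real.cos_pi_div_three]
    apply Real.cos_le_cos_of_nonneg_of_le_pi (by positivity) (by linarith [Real.pi_pos]) (by linarith [Real.pi_pos])
  unfold xc
  rw [div_le_one (by linarith)]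
  linarith

private lemma WI_zr {N : ℕ} (hN : 2 ≤ N) : zr N = 4 / 3 * xc * (xc ^ (N - 1) * (aB (N - 1) : ℝ)) := by
  have h2 : 3 * ((SM N).ncard : ℝ) = 4 * ((SawNu.WS SawNu.hexL (N - 1)).card : ℝ) := by
    exact_mod_cast dict_card hN
  rw [PHWDict.aB_WS]
  have h3 : xc ^ N = xc ^ (N - 1) * xc := by
    rw [← pow_succ]
    congr 1
    omega
  have h4 : ((SM N).ncard : ℝ) = 4 / 3 * ((SawNu.WS SawNu.hexL (N - 1)).card : ℝ) := by linarith
  unfold zr
  rw [h4, h3]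
  ring

private lemma WI_aB_ge {n : ℕ} (hn : 1 ≤ n) : 1 ≤ xc ^ n * (aB n : ℝ) := by
  have hx := xc_pos
  have h1 : muB ≤ (aB n : ℝ) ^ ((1 : ℝ) / n) := by
    unfold muB
    have hb : BddBelow (Set.range fun m : {m : ℕ // 1 ≤ m} => ((aB m.1 : ℝ) ^ ((1 : ℝ) / (m.1 : ℝ)))) := by
      refine ⟨0, ?_⟩
      rintro _ ⟨m, rfl⟩
      positivity
    exact ciInf_le hb ⟨n, hn⟩
  have h2 : 1 / xc ≤ (aB n : ℝ) ^ ((1 : ℝ) / n) := le_muB.trans h1
  have hn' : (0 : ℝ) < n := by exact_mod_cast hn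
  have h3 : (1 / xc) ^ n ≤ (aB n : ℝ) := by
    have h4 : (1 / xc) ^ n ≤ ((aB n : ℝ) ^ ((1 : ℝ) / n)) ^ n := pow_le_pow_left₀ (by positivity) h2 n
    rwa [← Real.rpow_natCast ((aB n : ℝ) ^ ((1 : ℝ) / n)), ← Real.rpow_mul (Nat.cast_nonneg _),
      one_div_mul_cancel hn'.ne', Real.rpow_one] at h4
  rw [div_pow, one_pow, div_le_iff₀ (pow_pos hx n)] at h3
  linarith

/-- the weight of the words is at least 1 / 2 -/
theorem zr_ge (N : ℕ) : 1 / 2 ≤ zr N := by
  have hx := WI_xc_half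
  rcases Nat.lt_or_ge N 2 with h | h
  · have h1 : 1 ≤ (SM N).ncard := by
      apply (Set.ncard_pos (SM_fin N)).2
      refine ⟨List.replicate N true, List.length_replicate, ?_⟩
      intro i k hi hik hk
      omega
    have h1R : (1 : ℝ) ≤ ((SM N).ncard : ℝ) := by exact_mod_cast h1
    unfold zr
    have h2 : 1 / 2 ≤ xc ^ N := by
      interval_cases N
      · rw [pow_zero]; norm_num
      · rw [pow_one]; exact hx
    nlinarith
  · rw [WI_zr h]
    have h1 := WI_aB_ge (n := N - 1) (by omega)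
    nlinarith

/-- the weight of the words grows at most polynomially -/
theorem zr_le : ∃ C : ℝ, 1 ≤ C ∧ ∀ N : ℕ, zr N ≤ C * ((N : ℝ) + 1) ^ C := by
  obtain ⟨C, hC1, hC⟩ := PHW_all
  have hx := xc_pos
  have hx1 := WI_xc_one
  refine ⟨2 * C, by linarith, fun N => ?_⟩
  have hN1 : (1 : ℝ) ≤ (N : ℝ) + 1 := by
    have : (0 : ℝ) ≤ N := Nat.cast_nonneg _
    linarith
  have hp : (1 : ℝ) ≤ ((N : ℝ) + 1) ^ (2 * C) := Real.one_le_rpow hN1 (by linarith)
  rcases Nat.lt_or_ge N 2 with h | h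
  · have h1 : (SM N).ncard ≤ 2 := by
      have h2 : SM N ⊆ {t : List Bool | t.length = N} := fun t ht => ht.1
      have h3 : ({t : List Bool | t.length = N}).Finite := List.finite_length_eq Bool N
      refine (Set.ncard_le_ncard h2 h3).trans ?_
      interval_cases N
      · have : {t : List Bool | t.length = 0} = {[]} := by
          ext t; simp
        rw [this, Set.ncard_singleton]; norm_num
      · have : {t : List Bool | t.length = 1} ⊆ ({[true], [false]} : Set (List Bool)) := by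
          intro t ht
          match t, ht with
          | [true], _ => simp
          | [false], _ => simp
        refine (Set.ncard_le_ncard this (by simp)).trans ?_
        exact (Set.ncard_insert_le _ _).trans (by rw [Set.ncard_singleton])
    have h1R : ((SM N).ncard : ℝ) ≤ 2 := by exact_mod_cast h1
    have h2 : xc ^ N ≤ 1 := pow_le_one₀ hx.le hx1
    have h3 : zr N ≤ 2 := by
      unfold zr
      have h4 : (0 : ℝ) ≤ xc ^ N := by positivity
      nlinarith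
    nlinarith
  · rw [WI_zr h]
    have h1 := hC (N - 1) (by omega)
    have hmu : muB ^ (N - 1) ≤ (1 / xc) ^ (N - 1) := by
      apply pow_le_pow_left₀ _ muB_le
      exact le_trans (by positivity) le_muB
    have h2 : (aB (N - 1) : ℝ) ≤ C * ((N - 1 : ℕ) : ℝ) ^ C * (1 / xc) ^ (N - 1) :=
      h1.trans (mul_le_mul_of_nonneg_left hmu (by positivity))
    have h3 : xc ^ (N - 1) * (aB (N - 1) : ℝ) ≤ C * ((N - 1 : ℕ) : ℝ) ^ C := by
      calc xc ^ (N - 1) * (aB (N - 1) : ℝ) ≤ xc ^ (N - 1) * (C * ((N - 1 : ℕ) : ℝ) ^ C * (1 / xc) ^ (N - 1)) :=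
            mul_le_mul_of_nonneg_left h2 (by positivity)
        _ = C * ((N - 1 : ℕ) : ℝ) ^ C * (xc * (1 / xc)) ^ (N - 1) := by rw [mul_pow]; ring
        _ = C * ((N - 1 : ℕ) : ℝ) ^ C := by
            rw [mul_one_div_cancel hx.ne', one_pow, mul_one]
    have h4 : ((N - 1 : ℕ) : ℝ) ^ C ≤ ((N : ℝ) + 1) ^ (2 * C) := by
      have h5 : ((N - 1 : ℕ) : ℝ) ≤ (N : ℝ) + 1 := by
        have : ((N - 1 : ℕ) : ℝ) ≤ N := by exact_mod_cast Nat.sub_le N 1
        linarith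
      calc ((N - 1 : ℕ) : ℝ) ^ C ≤ ((N : ℝ) + 1) ^ C := Real.rpow_le_rpow (Nat.cast_nonneg _) h5 (by linarith)
        _ ≤ _ := Real.rpow_le_rpow_of_exponent_le hN1 (by linarith)
    have h5 : C * ((N - 1 : ℕ) : ℝ) ^ C ≤ C * ((N : ℝ) + 1) ^ (2 * C) :=
      mul_le_mul_of_nonneg_left h4 (by linarith)
    have h6 : 4 / 3 * xc ≤ 2 := by linarith
    have h7 : 0 ≤ C * ((N : ℝ) + 1) ^ (2 * C) := by positivity
    calc 4 / 3 * xc * (xc ^ (N - 1) * (aB (N - 1) : ℝ)) ≤ 4 / 3 * xc * (C * ((N : ℝ) + 1) ^ (2 * C)) :=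
          mul_le_mul_of_nonneg_left (h3.trans h5) (by positivity)
      _ ≤ 2 * (C * ((N : ℝ) + 1) ^ (2 * C)) := mul_le_mul_of_nonneg_right h6 h7
      _ = _ := by ring

private lemma WI_mono {C D x : ℝ} (hCD : C ≤ D) (hC : 0 ≤ C) (hx : 1 ≤ x) : C * x ^ C ≤ D * x ^ D :=
  mul_le_mul hCD (Real.rpow_le_rpow_of_exponent_le hx hCD) (by positivity) (by linarith)

/-- every window contains a length for which a large vertical extent is not unlikely -/
theorem windows {C c : ℝ} (hC : 0 < C) (hc : c ≤ 1)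
    (hS2 : ∀ T : ℕ, 1 ≤ T → ∑' t : Brd T, (t.1.length : ℝ≥0∞) * wE t ≤
      ENNReal.ofReal (C * (T : ℝ) ^ (2 - c)) * BT T) :
    ∃ K : ℝ, 1 ≤ K ∧ ∀ σ : ℝ, 0 < σ → σ < 1 / 4 → ∃ n0 : ℕ, ∀ n : ℕ, n0 ≤ n → ∀ s : ℕ, 1 ≤ s →
      K * (s : ℝ) ^ (2 - c) ≤ (n : ℝ) ^ (1 - σ) / 2 →
      ∃ N : ℕ, n ≤ N ∧ (N : ℝ) ≤ n + (n : ℝ) ^ (1 - σ / 2) ∧ (n : ℝ) ^ (-(2 * σ)) * zr N ≤ fr s N := by
  obtain ⟨K1, hK1, m0, m1, m2, m3⟩ := masses hC (by linarith : c ≤ 2) hS2
  obtain ⟨K2, hK2, z2⟩ := zr_le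
  have hx := xc_pos
  obtain ⟨K, hK⟩ : ∃ K : ℝ, K = K1 + K2 + 8 / xc := ⟨_, rfl⟩
  have h8 : 0 < 8 / xc := by positivity
  have k1 : K1 ≤ K := by linarith
  have k2 : K2 ≤ K := by linarith
  have k3 : 8 / xc ≤ K := by linarith
  have hK0 : 1 ≤ K := by linarith
  refine ⟨K, hK0, _root_.SDE.window (C := K) (p := 2 - c) (z := zr) (U := UU) (e := fr) (f := fr) (ast := ar)
    (tau := tr) (g := gr) hK0 (by linarith) zr_ge ?_ (fun s hs => (m0 s hs).1) ?_ fr_nonneg (fun _ _ => le_rfl)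
    fr_le_zr tr_nonneg gr_nonneg ar_nonneg ?_ ?_ ?_ ?_ ?_⟩
  · intro N
    refine (z2 N).trans (WI_mono k2 (by linarith) ?_)
    have : (0 : ℝ) ≤ N := Nat.cast_nonneg _
    linarith
  · intro s hs
    exact (m0 s hs).2.trans (WI_mono k1 (by linarith) (by exact_mod_cast hs))
  · intro W0 s N _ hs hN
    refine (zr_sub_fr W0 s N hs hN).trans (mul_le_mul_of_nonneg_right k3 ?_)
    exact Finset.sum_nonneg fun _ _ => Finset.sum_nonneg fun _ _ => mul_nonneg (gr_nonneg _ _ _) (tr_nonneg _ _)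
  · intro W0 s N hW hs
    exact ar_tr_le hs hW N
  · intro W0 s N _ hs
    refine (m1 W0 s N hs).trans ?_
    apply mul_le_mul_of_nonneg_right (WI_mono k1 (by linarith) ?_) (by linarith [(m0 s hs).1])
    have : (0 : ℝ) ≤ (Nat.log 2 s : ℝ) := Nat.cast_nonneg _
    linarith
  · intro W0 s hs hW
    have hsp : (0 : ℝ) ≤ (s : ℝ) ^ (2 - c) := Real.rpow_nonneg (Nat.cast_nonneg _) _
    refine (m2 s W0 hs (le_trans (mul_le_mul_of_nonneg_right k1 hsp) hW)).trans ?_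
    exact mul_le_mul_of_nonneg_right k1 (Finset.sum_nonneg fun k _ => ar_nonneg s k)
  · intro W0 s V N hs hW
    have hsp : (0 : ℝ) ≤ (s : ℝ) ^ (2 - c) := Real.rpow_nonneg (Nat.cast_nonneg _) _
    refine (m3 s W0 hs (le_trans (mul_le_mul_of_nonneg_right k1 hsp) hW) V N).trans ?_
    apply mul_le_mul_of_nonneg_right _ (Real.exp_pos _).le
    exact mul_le_mul_of_nonneg_right k1 (sq_nonneg _)

/-- **Transfer**: a bound for the mean length of the critical bridges gives superdiffusive walks in every window -/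
theorem transfer {C c κ : ℝ} (hC : 0 < C) (hc : c ≤ 1) (hκ0 : 0 ≤ κ) (hκ : κ < c / (2 - c))
    (hS2 : ∀ T : ℕ, 1 ≤ T → ∑' t : Brd T, (t.1.length : ℝ≥0∞) * wE t ≤
      ENNReal.ofReal (C * (T : ℝ) ^ (2 - c)) * BT T) :
    ∃ δ K : ℝ, 0 < δ ∧ δ < 1 ∧ 0 < K ∧ ∀ n : ℕ, 1 ≤ n → ∃ N : ℕ, n ≤ N ∧
      (N : ℝ) ≤ n + K * (n : ℝ) ^ (1 - δ) ∧ (N : ℝ) ^ (1 + κ) ≤ K * RW N := by
  obtain ⟨K, hK, h⟩ := windows hC hc hS2
  refine walks_of_window (C := K) (p := 2 - c) hK (by linarith) hκ0 ?_ h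
  have h2 : 0 < 2 - c := by linarith
  rw [lt_div_iff₀ h2] at hκ ⊢
  linarith

end SDE

end HexObs
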