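import Pool.Agent.HexLoop.S2
import Pool.Agent.HexLoop.LLfin
import Pool.Agent.HexLoop.KTle
import Pool.Agent.HexLoop.KInf
import Pool.Agent.RowCol.FinalRC
import Pool.Agent.SDE.WinInst

/-!
Superdiffusive walks on the hexagonal lattice: every window contains a length N with R N at least N ^ (27 / 25).
-/

set_option autoImplicit false

namespace HexObs

open Finset ENNReal

namespace SDE

open LP in
/-- (S2): mean length of the critical bridges of height T -/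
theorem s2_final : ∃ C : ℝ, 0 < C ∧ ∀ T : ℕ, 1 ≤ T →
    ∑' t : Brd T, (t.1.length : ℝ≥0∞) * wE t.1 ≤ ENNReal.ofReal (C * (T : ℝ) ^ (2 - 3 / 20 : ℝ)) * BT T := by
  obtain ⟨C1, _, h10⟩ := LL_log (θ := 25 / 19) (by norm_num) (by norm_num)
  obtain ⟨C2, hC2, h1⟩ := KT_le
  obtain ⟨C3, _, h2⟩ := kT_double
  obtain ⟨C4, hC4, h4⟩ := TbT_le
  obtain ⟨c5, hc5, h5⟩ := RC.final
  have h1' : ∀ T : ℕ, 1 ≤ T → kT T ≤ C2 * (T * bT T) := by
    intro T hT
    have h := ENNReal.toReal_mono ENNReal.ofReal_ne_top (h1 T hT)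
    have hn : 0 ≤ C2 * T * uu T := by
      have : 0 ≤ uu T := ENNReal.toReal_nonneg
      positivity
    rw [ENNReal.toReal_ofReal hn] at h
    calc kT T = (LP.KT T).toReal := rfl
      _ ≤ C2 * T * uu T := h
      _ = C2 * (T * bT T) := by rw [mul_assoc]; rfl
  have h3 : ∀ T : ℕ, 1 ≤ T → (c5 / C4) * (T : ℝ) ^ (5 / 8 : ℝ) ≤ kT T := by
    intro T hT
    have hT0 : (0 : ℝ) < T := by exact_mod_cast hT
    have a1 := h4 T hT
    have a2 := h5 T hT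
    have a3 : (T : ℝ) ^ (5 / 8 : ℝ) = T * (T : ℝ) ^ (-(3 / 8) : ℝ) := by
      nth_rewrite 2 [← Real.rpow_one (T : ℝ)]
      rw [← Real.rpow_add hT0]
      norm_num
    have a4 : T * (c5 * (T : ℝ) ^ (-(3 / 8) : ℝ)) ≤ C4 * kT T :=
      (mul_le_mul_of_nonneg_left a2 hT0.le).trans a1
    rw [a3, div_mul_eq_mul_div, div_le_iff₀ hC4]
    linarith
  obtain ⟨C, hC, h⟩ := S2_of (ρ := 25 / 19) (κ := 5 / 8) (by norm_num) (by norm_num) (by positivity : 0 < c5 / C4)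
    h10 h1' h2 h3
  refine ⟨C, hC, fun T hT => ?_⟩
  have e : (2 - (1 - 1 / (25 / 19)) * (5 / 8) : ℝ) = 2 - 3 / 20 := by norm_num
  rw [← e]
  exact h T hT

/-- every window contains a length N with mean square end-to-end distance at least N ^ (27 / 25) -/
theorem superdiffusive : ∃ δ K : ℝ, 0 < δ ∧ δ < 1 ∧ 0 < K ∧ ∀ n : ℕ, 1 ≤ n → ∃ N : ℕ, n ≤ N ∧
    (N : ℝ) ≤ n + K * (n : ℝ) ^ (1 - δ) ∧ (N : ℝ) ^ (27 / 25 : ℝ) ≤ K * RW N := by
  obtain ⟨C, hC, h⟩ := s2_final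
  obtain ⟨δ, K, h1, h2, h3, h4⟩ := transfer (c := 3 / 20) (κ := 2 / 25) hC (by norm_num) (by norm_num) (by norm_num)
    h
  refine ⟨δ, K, h1, h2, h3, fun n hn => ?_⟩
  obtain ⟨N, k1, k2, k3⟩ := h4 n hn
  refine ⟨N, k1, k2, ?_⟩
  have e : (27 / 25 : ℝ) = 1 + 2 / 25 := by norm_num
  rw [e]
  exact k3

end SDE

end HexObs
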