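import Pool.Agent.SDE.HpDec
import Pool.Agent.SDE.InsSum
import Pool.Agent.PHW.HangA

/-!
SD13, (U): the sum over the folded pairs. The fold itself (Fold.lean) is the hypothesis `FoldSt`.
-/

set_option autoImplicit false

namespace HexObs

open Complex Finset ENNReal

namespace SDE

/-- the statement of the fold -/
def FoldSt : Prop := ∀ {N : ℕ}, 2 ≤ N → ∀ {w : List Bool}, w ∈ SM N → ∃ (A B : List Bool) (m : ℤ),
    A ∈ HW ∧ dx up A A.length = up ∧ B ∈ HW ∧ (Dj A B ∨ Dj B A) ∧ w ∈ Fd A B ∧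
    N ≤ A.length + B.length + 1 ∧ A.length + B.length ≤ N + 1 ∧
    (∀ i, 1 ≤ i → i ≤ A.length → ∃ k, 1 ≤ k ∧ k ≤ N ∧ lev A i + lev w k = m) ∧
    (∀ i, 1 ≤ i → i ≤ B.length → ∃ k, 1 ≤ k ∧ k ≤ N ∧ lev B i + lev w k = m)

/-- a bridge of height at least s at the beginning gives a large extent -/
lemma ext_of {s N a : ℕ} (hs : 1 ≤ s) (hsa : s ≤ a) {w c l : List Bool} {m : ℤ} (hw : w.length = N) (hc : c ∈ Brd a)
    (h : ∀ i, 1 ≤ i → i ≤ (c ++ l).length → ∃ k, 1 ≤ k ∧ k ≤ N ∧ lev (c ++ l) i + lev w k = m) : Ext s w := by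
  have hcm := mem_Brd.1 hc
  have hcl : 1 ≤ c.length := by
    rcases Nat.eq_zero_or_pos c.length with h0 | h0
    · have h4 := hcm.2.2.2
      rw [h0, lev_zero] at h4
      omega
    · exact h0
  obtain ⟨k, k1, k2, k3⟩ := h 1 le_rfl (by rw [List.length_append]; omega)
  obtain ⟨k', k1', k2', k3'⟩ := h c.length hcl (by rw [List.length_append]; omega)
  rw [lev_one] at k3
  rw [lev_append (by omega), hcm.2.2.2] at k3'
  refine ⟨k, k', k1, by omega, k1', by omega, ?_⟩
  have hsa' : (s : ℤ) ≤ a := by exact_mod_cast hsa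
  omega

/-- the finset of the words folded to (A, B) -/
def FdF (A B : List Bool) : Finset (List Bool) :=
  ((univ : Finset Bool).image fun c => (rev A).dropLast ++ [c]) ∪
    ((univ : Finset Bool).image fun c => rev A ++ [c]) ∪
    ((univ : Finset (Bool × Bool)).image fun c => (rev A).dropLast ++ ([c.1, c.2] ++ B.drop 2))

lemma FdF_card (A B : List Bool) : (FdF A B).card ≤ 8 := by
  unfold FdF
  have h1 : ((univ : Finset Bool).image fun c => (rev A).dropLast ++ [c]).card ≤ 2 :=
    Finset.card_image_le.trans (by decide)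
  have h2 : ((univ : Finset Bool).image fun c => rev A ++ [c]).card ≤ 2 :=
    Finset.card_image_le.trans (by decide)
  have h3 : ((univ : Finset (Bool × Bool)).image fun c => (rev A).dropLast ++ ([c.1, c.2] ++ B.drop 2)).card ≤ 4 :=
    Finset.card_image_le.trans (by decide)
  have h4 := Finset.card_union_le (((univ : Finset Bool).image fun c => (rev A).dropLast ++ [c]) ∪
    ((univ : Finset Bool).image fun c => rev A ++ [c]))
    ((univ : Finset (Bool × Bool)).image fun c => (rev A).dropLast ++ ([c.1, c.2] ++ B.drop 2))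
  have h5 := Finset.card_union_le ((univ : Finset Bool).image fun c => (rev A).dropLast ++ [c])
    ((univ : Finset Bool).image fun c => rev A ++ [c])
  omega

lemma mem_FdF {A B w : List Bool} (h : w ∈ Fd A B) : w ∈ FdF A B := by
  obtain ⟨c, c', h | h | h⟩ := h
  · apply Finset.mem_union_left
    apply Finset.mem_union_left
    rw [Finset.mem_image]
    exact ⟨c, Finset.mem_univ _, h.symm⟩
  · apply Finset.mem_union_left
    apply Finset.mem_union_right
    rw [Finset.mem_image]
    exact ⟨c, Finset.mem_univ _, h.symm⟩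
  · apply Finset.mem_union_right
    rw [Finset.mem_image]
    exact ⟨(c, c'), Finset.mem_univ _, h.symm⟩

/-- number of the words without large extent -/
lemma card_small (hfold : FoldSt) {W s N : ℕ} (hs : 1 ≤ s) (hN : 2 ≤ N) :
    {t | t ∈ SM N ∧ ¬ Ext s t}.ncard ≤ 8 * ∑ j ∈ Finset.Icc (N - 1) (N + 1), ∑ k ∈ Finset.range (j + 1),
      (GP_fin W s k).toFinset.card * (TK_fin W (j - k)).toFinset.card := by
  classical
  have hfin : {t | t ∈ SM N ∧ ¬ Ext s t}.Finite := (SM_fin N).subset fun _ h => h.1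
  set Q : Finset ((List Bool × List Bool) × (List Bool × List Bool)) :=
    (Finset.Icc (N - 1) (N + 1)).biUnion fun j => (Finset.range (j + 1)).biUnion fun k =>
      (GP_fin W s k).toFinset ×ˢ (TK_fin W (j - k)).toFinset with hQ
  have hsub : hfin.toFinset ⊆ Q.biUnion fun q => FdF (q.1.1 ++ q.2.1) (q.1.2 ++ q.2.2) := by
    intro w hw
    rw [Set.Finite.mem_toFinset] at hw
    obtain ⟨hw, hwE⟩ := hw
    obtain ⟨A, B, m, hA, hAu, hB, hD, hwF, hN1, hN2, hlA, hlB⟩ := hfold hN hw
    obtain ⟨a, c, l, hc, hl, hAe, hlu⟩ := HW_dec W hA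
    obtain ⟨b, d, r, hd, hr, hBe, _⟩ := HW_dec W hB
    have has : a < s := by
      by_contra hcon
      exact hwE (ext_of hs (not_lt.1 hcon) hw.1 hc.brd (hAe ▸ hlA))
    have hbs : b < s := by
      by_contra hcon
      exact hwE (ext_of hs (not_lt.1 hcon) hw.1 hd.brd (hBe ▸ hlB))
    rw [Finset.mem_biUnion]
    refine ⟨((c, d), (l, r)), ?_, ?_⟩
    · rw [hQ, Finset.mem_biUnion]
      refine ⟨A.length + B.length, Finset.mem_Icc.2 ⟨by omega, by omega⟩, ?_⟩
      rw [Finset.mem_biUnion]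
      have hlen : A.length + B.length = c.length + d.length + (l.length + r.length) := by
        rw [hAe, hBe, List.length_append, List.length_append]
        omega
      refine ⟨c.length + d.length, Finset.mem_range.2 (by omega), ?_⟩
      rw [Finset.mem_product, Set.Finite.mem_toFinset, Set.Finite.mem_toFinset]
      refine ⟨⟨⟨⟨a, has, hc⟩, ⟨b, hbs, hd⟩, ?_⟩, rfl⟩, ⟨⟨⟨hl, ?_⟩, hr⟩, ?_⟩⟩
      · rw [hAe, hBe] at hD
        rcases hD with h | h
        · exact Or.inl (HangA.Dj_pref_left (HangA.Dj_pref_right h))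
        · exact Or.inr (HangA.Dj_pref_left (HangA.Dj_pref_right h))
      · show dx up l l.length = up
        rw [hlu]
        exact hAu
      · show l.length + r.length = A.length + B.length - (c.length + d.length)
        omega
    · show w ∈ FdF (c ++ l) (d ++ r)
      rw [← hAe, ← hBe]
      exact mem_FdF hwF
  rw [Set.ncard_eq_toFinset_card _ hfin]
  calc hfin.toFinset.card ≤ (Q.biUnion fun q => FdF (q.1.1 ++ q.2.1) (q.1.2 ++ q.2.2)).card :=
        Finset.card_le_card hsub
    _ ≤ Q.card * 8 := Finset.card_biUnion_le_card_mul _ _ _ fun q _ => FdF_card _ _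
    _ = 8 * Q.card := mul_comm _ _
    _ ≤ 8 * ∑ j ∈ Finset.Icc (N - 1) (N + 1), ∑ k ∈ Finset.range (j + 1),
        (GP_fin W s k).toFinset.card * (TK_fin W (j - k)).toFinset.card := by
        apply Nat.mul_le_mul_left
        rw [hQ]
        refine Finset.card_biUnion_le.trans (Finset.sum_le_sum fun j _ => ?_)
        refine Finset.card_biUnion_le.trans (Finset.sum_le_sum fun k _ => ?_)
        rw [Finset.card_product]

lemma xc_le_one : xc ≤ 1 := by
  have h1 := xc_sq
  have h2 : (0 : ℝ) ≤ Real.sqrt 2 := Real.sqrt_nonneg 2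
  have h3 : xc ^ 2 ≤ 1 := by
    rw [h1, div_le_one (by linarith)]
    linarith
  nlinarith [xc_pos]

theorem zr_sub_fr_of (hfold : FoldSt) (W s N : ℕ) (hs : 1 ≤ s) (hN : 2 ≤ N) :
    zr N - fr s N ≤ (8 / xc) * ∑ j ∈ Finset.Icc (N - 1) (N + 1), ∑ k ∈ Finset.range (j + 1),
      gr W s k * tr W (j - k) := by
  have hx : ∀ n : ℕ, (0 : ℝ) ≤ xc ^ n := fun n => pow_nonneg xc_pos.le n
  have h0 : zr N - fr s N = xc ^ N * ({t | t ∈ SM N ∧ ¬ Ext s t}.ncard : ℝ) := by
    have h1 : {t | t ∈ SM N ∧ ¬ Ext s t} = SM N \ {t | t ∈ SM N ∧ Ext s t} := by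
      ext t
      constructor
      · rintro ⟨h1, h2⟩
        exact ⟨h1, fun h => h2 h.2⟩
      · rintro ⟨h1, h2⟩
        exact ⟨h1, fun h => h2 ⟨h1, h⟩⟩
    have h2 : {t | t ∈ SM N ∧ Ext s t} ⊆ SM N := fun t h => h.1
    have h3 : (SM N \ {t | t ∈ SM N ∧ Ext s t}).ncard + {t | t ∈ SM N ∧ Ext s t}.ncard = (SM N).ncard :=
      Set.ncard_sdiff_add_ncard_of_subset h2 (SM_fin N)
    rw [h1]
    unfold zr fr
    rw [← h3]
    push_cast
    ring
  rw [h0]
  have h1 : (({t | t ∈ SM N ∧ ¬ Ext s t}.ncard : ℕ) : ℝ) ≤ 8 * ∑ j ∈ Finset.Icc (N - 1) (N + 1),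
      ∑ k ∈ Finset.range (j + 1), ((GP_fin W s k).toFinset.card : ℝ) * ((TK_fin W (j - k)).toFinset.card : ℝ) := by
    have := card_small hfold (W := W) hs hN
    calc (({t | t ∈ SM N ∧ ¬ Ext s t}.ncard : ℕ) : ℝ) ≤ ((8 * ∑ j ∈ Finset.Icc (N - 1) (N + 1),
        ∑ k ∈ Finset.range (j + 1), (GP_fin W s k).toFinset.card * (TK_fin W (j - k)).toFinset.card : ℕ) : ℝ) := by
          exact_mod_cast this
      _ = _ := by push_cast; ring
  calc xc ^ N * ({t | t ∈ SM N ∧ ¬ Ext s t}.ncard : ℝ)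
      ≤ xc ^ N * (8 * ∑ j ∈ Finset.Icc (N - 1) (N + 1), ∑ k ∈ Finset.range (j + 1),
        ((GP_fin W s k).toFinset.card : ℝ) * ((TK_fin W (j - k)).toFinset.card : ℝ)) :=
        mul_le_mul_of_nonneg_left h1 (hx N)
    _ = (8 / xc) * ∑ j ∈ Finset.Icc (N - 1) (N + 1), ∑ k ∈ Finset.range (j + 1),
        (xc ^ (N + 1) * (((GP_fin W s k).toFinset.card : ℝ) * ((TK_fin W (j - k)).toFinset.card : ℝ))) := by
        have hxc : xc ≠ 0 := xc_pos.ne'
        simp only [← Finset.mul_sum]
        rw [pow_succ]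
        field_simp
    _ ≤ (8 / xc) * ∑ j ∈ Finset.Icc (N - 1) (N + 1), ∑ k ∈ Finset.range (j + 1), gr W s k * tr W (j - k) := by
        apply mul_le_mul_of_nonneg_left _ (div_nonneg (by norm_num) xc_pos.le)
        refine Finset.sum_le_sum fun j hj => Finset.sum_le_sum fun k hk => ?_
        rw [Finset.mem_Icc] at hj
        rw [Finset.mem_range] at hk
        have e1 : gr W s k = xc ^ k * ((GP_fin W s k).toFinset.card : ℝ) := by
          unfold gr
          rw [Nat.card_coe_set_eq, Set.ncard_eq_toFinset_card _ (GP_fin W s k)]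
        have e2 : tr W (j - k) = xc ^ (j - k) * ((TK_fin W (j - k)).toFinset.card : ℝ) := by
          unfold tr
          rw [Nat.card_coe_set_eq, Set.ncard_eq_toFinset_card _ (TK_fin W (j - k))]
        rw [e1, e2]
        have e3 : xc ^ k * ((GP_fin W s k).toFinset.card : ℝ) * (xc ^ (j - k) * ((TK_fin W (j - k)).toFinset.card : ℝ)) =
            xc ^ j * (((GP_fin W s k).toFinset.card : ℝ) * ((TK_fin W (j - k)).toFinset.card : ℝ)) := by
          have : xc ^ j = xc ^ k * xc ^ (j - k) := by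
            rw [← pow_add]
            congr 1
            omega
          rw [this]
          ring
        rw [e3]
        apply mul_le_mul_of_nonneg_right _ (by positivity)
        exact pow_le_pow_of_le_one xc_pos.le xc_le_one (by omega)

end SDE

end HexObs
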