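import Pool.Agent.SDE.InsL

/-!
SD13: a half plane word is a bridge without long pieces followed by a tail.
-/

set_option autoImplicit false

namespace HexObs

open Complex Finset ENNReal

namespace SDE

/-- a short bridge has only short pieces -/
theorem SB_of_brd {W a : ℕ} {c : List Bool} (h : c ∈ Brd a) (hW : c.length ≤ W) : SB W a c := by
  induction a using Nat.strong_induction_on generalizing c with
  | _ a ih =>
    rcases Nat.eq_zero_or_pos a with h0 | h0
    · subst h0
      rw [Brd_zero] at h
      have h1 : c = [] := h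
      rw [h1]
      exact SB.nil
    · obtain ⟨r, s, u, hr, hra, hs, hu, he⟩ := Brd_first h h0
      rw [he, List.length_append] at hW
      have h1 := ih (a - r) (by omega) hu (by omega)
      have h2 := SB.cons hs (by omega : s.length ≤ W) h1
      rw [he]
      have h3 : r + (a - r) = a := by omega
      rw [h3] at h2
      exact h2

theorem HW_dec (W : ℕ) {t : List Bool} (ht : t ∈ HW) : ∃ (a : ℕ) (c l : List Bool), SB W a c ∧ l ∈ TT W ∧
    t = c ++ l ∧ dx up l l.length = dx up t t.length := by
  obtain ⟨n, hn⟩ : ∃ n, t.length = n := ⟨_, rfl⟩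
  induction n using Nat.strong_induction_on generalizing t with
  | _ n ih =>
    by_cases hT : t ∈ TT W
    · exact ⟨0, [], t, SB.nil, hT, rfl, rfl⟩
    · have h1 : ∃ (r : ℕ) (p u : List Bool), p ∈ Irr r ∧ u ∈ HW ∧ t = p ++ u ∧ p.length ≤ W := by
        by_contra hcon
        push Not at hcon
        exact hT ⟨ht, fun r p u hp hu he => hcon r p u hp hu he⟩
      obtain ⟨r, p, u, hp, hu, he, hpW⟩ := h1
      have hpl : 0 < p.length := List.length_pos_iff.2 hp.2.1
      have hpu : dx up p p.length = up := (mem_Brd.1 hp.1).2.2.1
      obtain ⟨a, c, l, h2, h3, h4, h5⟩ := ih u.length (by rw [← hn, he, List.length_append]; omega) hu rfl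
      refine ⟨r + a, p ++ c, l, SB.cons hp hpW h2, h3, ?_, ?_⟩
      · rw [he, h4, List.append_assoc]
      · rw [h5, he, List.length_append, dx_cat hpu]

end SDE

end HexObs
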