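import Pool.Agent.SDE.Mass1
import Pool.Agent.SDE.Conv

/-!
SD13, masses (M3): bridges without long pieces have exponential tails of the length.
-/

set_option autoImplicit false

namespace HexObs.SDE

open Finset ENNReal HexObs.FPS

/-- bridges without long pieces: concatenations of irreducible bridges with at most W letters -/
inductive SB (W : ℕ) : ℕ → List Bool → Prop
  | nil : SB W 0 []
  | cons {r a : ℕ} {p c : List Bool} (hp : p ∈ Irr r) (hW : p.length ≤ W) (hc : SB W a c) : SB W (r + a) (p ++ c)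

lemma SB.brd {W a : ℕ} {t : List Bool} (h : SB W a t) : t ∈ Brd a := by
  induction h with
  | nil => exact nil_mem_Brd
  | cons hp _ _ ih => exact Brd_append hp.1 ih

lemma SB.len {W a : ℕ} {t : List Bool} (h : SB W a t) : t.length ≤ a * W := by
  induction h with
  | nil => simp
  | cons hp hW _ ih =>
    rw [List.length_append, Nat.add_mul]
    have h1 := Irr_pos hp
    have h2 : W ≤ _ * W := Nat.le_mul_of_pos_left W h1
    omega

/-- cases -/
lemma SB.dec {W n : ℕ} {t : List Bool} (h : SB W n t) : (n = 0 ∧ t = []) ∨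
    ∃ r ∈ Finset.Icc 1 n, ∃ p, (p ∈ Irr r ∧ p.length ≤ W) ∧ ∃ c, SB W (n - r) c ∧ t = p ++ c := by
  cases h with
  | nil => exact Or.inl ⟨rfl, rfl⟩
  | @cons r a p c hp hW hc =>
    refine Or.inr ⟨r, Finset.mem_Icc.2 ⟨Irr_pos hp, by omega⟩, p, ⟨hp, hW⟩, c, ?_, rfl⟩
    rwa [Nat.add_sub_cancel_left]

/-- total length of the bridges -/
noncomputable def ll (T : ℕ) : ℝ≥0∞ := ∑' t : Brd T, (t.1.length : ℝ≥0∞) * wE t

/-- total length of the irreducible bridges -/
noncomputable def mm (r : ℕ) : ℝ≥0∞ := ∑' t : Irr r, (t.1.length : ℝ≥0∞) * wE t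

lemma BT_zero : BT 0 = 1 := by
  rw [BT_uu, uu_zero, ENNReal.ofReal_one]

lemma Irr_zero_empty : Irr 0 = ∅ := by
  ext t
  simp only [Set.mem_empty_iff_false, iff_false]
  intro ht
  have := Irr_pos ht
  omega

lemma mm_zero : mm 0 = 0 := by
  unfold mm
  rw [Irr_zero_empty]
  simp

lemma ll_zero : ll 0 = 0 := by
  unfold ll
  rw [ENNReal.tsum_eq_zero]
  rintro ⟨t, ht⟩
  rw [Brd_zero] at ht
  have h1 : t = [] := ht
  subst h1
  simp

/-- the first piece of a bridge, lengths -/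
lemma ll_ge (T : ℕ) : ∑ r ∈ Finset.Icc 1 T, (mm r * BT (T - r) + kap' r * ll (T - r)) ≤ ll T := by
  classical
  have h1 : ∀ r : ℕ, mm r * BT (T - r) + kap' r * ll (T - r) =
      ∑' p : Irr r × Brd (T - r), ((p.1.1 ++ p.2.1).length : ℝ≥0∞) * wE (p.1.1 ++ p.2.1) := by
    intro r
    have e : ∀ p : Irr r × Brd (T - r), ((p.1.1 ++ p.2.1).length : ℝ≥0∞) * wE (p.1.1 ++ p.2.1) =
        ((p.1.1.length : ℝ≥0∞) * wE p.1.1) * wE p.2.1 + wE p.1.1 * ((p.2.1.length : ℝ≥0∞) * wE p.2.1) := by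
      intro p
      rw [List.length_append, wE_append]
      push_cast
      ring
    simp_rw [e]
    rw [ENNReal.tsum_add]
    congr 1
    · rw [ENNReal.tsum_prod (f := fun (a : Irr r) (b : Brd (T - r)) => ((a.1.length : ℝ≥0∞) * wE a.1) * wE b.1)]
      simp_rw [ENNReal.tsum_mul_left]
      rw [ENNReal.tsum_mul_right, ← gf_Brd]
      rfl
    · rw [ENNReal.tsum_prod (f := fun (a : Irr r) (b : Brd (T - r)) => wE a.1 * ((b.1.length : ℝ≥0∞) * wE b.1))]
      simp_rw [ENNReal.tsum_mul_left]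
      rw [ENNReal.tsum_mul_right]
      rfl
  simp_rw [h1]
  rw [← Finset.sum_coe_sort (Finset.Icc 1 T)
    (fun r => ∑' p : Irr r × Brd (T - r), ((p.1.1 ++ p.2.1).length : ℝ≥0∞) * wE (p.1.1 ++ p.2.1))]
  have hfin : ∑ r : Finset.Icc 1 T, ∑' p : Irr (r : ℕ) × Brd (T - (r : ℕ)),
      ((p.1.1 ++ p.2.1).length : ℝ≥0∞) * wE (p.1.1 ++ p.2.1) =
      ∑' r : Finset.Icc 1 T, ∑' p : Irr (r : ℕ) × Brd (T - (r : ℕ)),
      ((p.1.1 ++ p.2.1).length : ℝ≥0∞) * wE (p.1.1 ++ p.2.1) := (tsum_fintype _).symm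
  rw [hfin, ← ENNReal.tsum_sigma' (β := fun r : Finset.Icc 1 T => Irr (r : ℕ) × Brd (T - (r : ℕ)))
    (fun x : (Σ r : Finset.Icc 1 T, Irr (r : ℕ) × Brd (T - (r : ℕ))) =>
      ((x.2.1.1 ++ x.2.2.1).length : ℝ≥0∞) * wE (x.2.1.1 ++ x.2.2.1))]
  let ψ : (Σ r : Finset.Icc 1 T, Irr (r : ℕ) × Brd (T - (r : ℕ))) → Brd T := fun x =>
    ⟨x.2.1.1 ++ x.2.2.1, by
      have h2 := Brd_append x.2.1.2.1 x.2.2.2
      have h3 := Finset.mem_Icc.1 x.1.2
      rwa [Nat.add_sub_cancel' h3.2] at h2⟩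
  have hψ : Function.Injective ψ := by
    rintro ⟨⟨r, hr⟩, ⟨p, hp⟩, ⟨u, hu⟩⟩ ⟨⟨r', hr'⟩, ⟨p', hp'⟩, ⟨u', hu'⟩⟩ h
    have h2 : p ++ u = p' ++ u' := congrArg Subtype.val h
    obtain ⟨h3, h4⟩ := Irr_unique hp hp' hu hu' h2
    subst h3
    subst h4
    have h5 : r = r' := Brd_height hp.1 hp'.1
    subst h5
    rfl
  exact ENNReal.tsum_comp_le_tsum_of_injective hψ (fun t : Brd T => (t.1.length : ℝ≥0∞) * wE t)

lemma cv_mm (T : ℕ) : cv mm BT T = ∑ r ∈ Finset.Icc 1 T, mm r * BT (T - r) := by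
  rw [cv_eq]
  have h1 : Finset.range (T + 1) = insert 0 (Finset.Icc 1 T) := by
    ext b
    simp only [Finset.mem_range, Finset.mem_insert, Finset.mem_Icc]
    omega
  rw [h1, Finset.sum_insert (by simp), mm_zero, zero_mul, zero_add]

lemma uml_le (T : ℕ) : cv BT (cv mm BT) T ≤ ll T := by
  refine renew_ge BT kap' ll (cv mm BT) BT_zero (fun j hj => renewal hj) ?_ T
  intro n
  rw [cv_mm, ← Finset.sum_add_distrib]
  exact ll_ge n

lemma sum_BT_lt (n : ℕ) : ∑ m ∈ Finset.range n, BT m ≤ ENNReal.ofReal (UU n) := by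
  rw [← sum_BT_range]
  exact Finset.sum_le_sum_of_subset (Finset.range_mono (by omega))

/-- mass of the lengths of the irreducible bridges of height below s -/
lemma mm_mass {C c : ℝ} (hC : 0 < C) (hc : c ≤ 2)
    (hS2 : ∀ T : ℕ, 1 ≤ T → ∑' t : Brd T, (t.1.length : ℝ≥0∞) * wE t ≤
      ENNReal.ofReal (C * (T : ℝ) ^ (2 - c)) * BT T) {s : ℕ} (hs : 1 ≤ s) :
    (∑ r ∈ Finset.range s, mm r) * ENNReal.ofReal (UU s) ≤
      ENNReal.ofReal (4 * C * 3 ^ (2 - c) * (s : ℝ) ^ (2 - c)) := by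
  have hs0 : (0 : ℝ) < s := by exact_mod_cast hs
  have hU := one_le_UU s
  have h1 : ENNReal.ofReal (UU s) * ((∑ r ∈ Finset.range s, mm r) * ENNReal.ofReal (UU s)) ≤
      ∑ T ∈ Finset.range (3 * s), ll T := by
    calc ENNReal.ofReal (UU s) * ((∑ r ∈ Finset.range s, mm r) * ENNReal.ofReal (UU s))
        = (∑ i ∈ Finset.range (s + 1), BT i) * ((∑ r ∈ Finset.range s, mm r) * ∑ j ∈ Finset.range (s + 1), BT j) := by
          rw [sum_BT_range]
      _ ≤ (∑ i ∈ Finset.range (s + 1), BT i) * ∑ j ∈ Finset.range (2 * s), cv mm BT j :=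
          mul_le_mul_right (le_sum_cv mm BT (by omega)) _
      _ ≤ ∑ T ∈ Finset.range (3 * s), cv BT (cv mm BT) T := le_sum_cv BT (cv mm BT) (by omega)
      _ ≤ ∑ T ∈ Finset.range (3 * s), ll T := Finset.sum_le_sum fun T _ => uml_le T
  have h2 : ∑ T ∈ Finset.range (3 * s), ll T ≤
      ENNReal.ofReal (UU s) * ENNReal.ofReal (4 * C * 3 ^ (2 - c) * (s : ℝ) ^ (2 - c)) := by
    calc ∑ T ∈ Finset.range (3 * s), ll T
        ≤ ∑ T ∈ Finset.range (3 * s), ENNReal.ofReal (C * (3 ^ (2 - c) * (s : ℝ) ^ (2 - c))) * BT T := by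
          apply Finset.sum_le_sum
          intro T hT
          rw [Finset.mem_range] at hT
          rcases Nat.eq_zero_or_pos T with h0 | h0
          · rw [h0, ll_zero]
            exact zero_le
          · refine (hS2 T h0).trans (mul_le_mul_left (ENNReal.ofReal_le_ofReal ?_) _)
            have hT0 : (0 : ℝ) < T := by exact_mod_cast h0
            have h3 : (T : ℝ) ^ (2 - c) ≤ (3 * s) ^ (2 - c) :=
              Real.rpow_le_rpow hT0.le (by exact_mod_cast hT.le) (by linarith)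
            rw [Real.mul_rpow (by norm_num) hs0.le] at h3
            exact mul_le_mul_of_nonneg_left h3 hC.le
      _ = ENNReal.ofReal (C * (3 ^ (2 - c) * (s : ℝ) ^ (2 - c))) * ∑ T ∈ Finset.range (3 * s), BT T := by
          rw [Finset.mul_sum]
      _ ≤ ENNReal.ofReal (C * (3 ^ (2 - c) * (s : ℝ) ^ (2 - c))) * ENNReal.ofReal (4 * UU s) := by
          apply mul_le_mul_right
          refine (sum_BT_lt _).trans (ENNReal.ofReal_le_ofReal ?_)
          have h3 := UU_double s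
          have h4 := UU_double (2 * s)
          have h5 := UU_mono (show 3 * s ≤ 2 * (2 * s) by omega)
          linarith
      _ = _ := by
          rw [← ENNReal.ofReal_mul (by positivity), ← ENNReal.ofReal_mul (by linarith)]
          congr 1
          ring
  have h3 : ENNReal.ofReal (UU s) ≠ 0 := by
    rw [Ne, ENNReal.ofReal_eq_zero]
    linarith
  exact (ENNReal.mul_le_mul_iff_right h3 ENNReal.ofReal_ne_top).1 (h1.trans h2)

/-- mass of the bridges of height n without long pieces, with a growth factor -/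
noncomputable def FF (W : ℕ) (n : ℕ) : ℝ≥0∞ := gd (-(1 / (W : ℝ))) {t | SB W n t}

lemma FF_ne_top {W : ℕ} (hW : 1 ≤ W) (n : ℕ) : FF W n ≠ ∞ := by
  have hW0 : (0 : ℝ) < W := by exact_mod_cast hW
  have h1 : FF W n ≤ ENNReal.ofReal (Real.exp n) * BT n := by
    unfold FF gd
    calc ∑' t : {t | SB W n t}, wd (-(1 / (W : ℝ))) t
        ≤ ∑' t : {t | SB W n t}, ENNReal.ofReal (Real.exp n) * wE t := by
          apply ENNReal.tsum_le_tsum
          rintro ⟨t, ht⟩
          unfold wd dmp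
          rw [mul_comm]
          apply mul_le_mul_left
          apply ENNReal.ofReal_le_ofReal
          apply Real.exp_le_exp.2
          have h2 : (t.length : ℝ) ≤ n * W := by exact_mod_cast SB.len ht
          show -(-(1 / (W : ℝ)) * (t.length : ℝ)) ≤ n
          rw [neg_mul, neg_neg, one_div, inv_mul_le_iff₀ hW0]
          linarith
      _ = ENNReal.ofReal (Real.exp n) * gf {t | SB W n t} := ENNReal.tsum_mul_left
      _ ≤ ENNReal.ofReal (Real.exp n) * BT n := by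
          apply mul_le_mul_right
          rw [← gf_Brd]
          exact gf_mono fun t ht => SB.brd ht
  exact ne_top_of_le_ne_top (ENNReal.mul_ne_top ENNReal.ofReal_ne_top (BT_fin n)) h1

lemma gd_short_irr {W : ℕ} (hW : 1 ≤ W) (r : ℕ) :
    gd (-(1 / (W : ℝ))) {p | p ∈ Irr r ∧ p.length ≤ W} ≤ kap' r + ENNReal.ofReal (2 / W) * mm r := by
  have hW0 : (0 : ℝ) < W := by exact_mod_cast hW
  have h1 : ∀ t : {p | p ∈ Irr r ∧ p.length ≤ W}, wd (-(1 / (W : ℝ))) t.1 ≤
      wE t.1 + ENNReal.ofReal (2 / W) * ((t.1.length : ℝ≥0∞) * wE t.1) := by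
    rintro ⟨t, ht, htW⟩
    show wd (-(1 / (W : ℝ))) t ≤ wE t + ENNReal.ofReal (2 / W) * ((t.length : ℝ≥0∞) * wE t)
    unfold wd dmp
    have htW' : (t.length : ℝ) ≤ W := by exact_mod_cast htW
    have hx0 : 0 ≤ (t.length : ℝ) / W := by positivity
    have hx1 : (t.length : ℝ) / W ≤ 1 := by rw [div_le_one hW0]; exact htW'
    have h2 := Real.abs_exp_sub_one_le (x := (t.length : ℝ) / W) (by rw [abs_of_nonneg hx0]; exact hx1)
    rw [abs_of_nonneg hx0] at h2
    have h3 := (abs_le.1 h2).2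
    have h4 : ENNReal.ofReal (Real.exp (-(-(1 / (W : ℝ)) * (t.length : ℝ)))) ≤
        1 + ENNReal.ofReal (2 / W) * (t.length : ℝ≥0∞) := by
      rw [← ENNReal.ofReal_natCast, ← ENNReal.ofReal_mul (by positivity), ← ENNReal.ofReal_one,
        ← ENNReal.ofReal_add (by norm_num) (by positivity)]
      apply ENNReal.ofReal_le_ofReal
      have e : -(-(1 / (W : ℝ)) * (t.length : ℝ)) = (t.length : ℝ) / W := by ring
      rw [e]
      have e2 : 2 / (W : ℝ) * (t.length : ℝ) = 2 * ((t.length : ℝ) / W) := by ring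
      rw [e2]
      linarith
    calc wE t * ENNReal.ofReal (Real.exp (-(-(1 / (W : ℝ)) * (t.length : ℝ))))
        ≤ wE t * (1 + ENNReal.ofReal (2 / W) * (t.length : ℝ≥0∞)) := mul_le_mul_right h4 _
      _ = _ := by ring
  unfold gd
  calc ∑' t : {p | p ∈ Irr r ∧ p.length ≤ W}, wd (-(1 / (W : ℝ))) t
      ≤ ∑' t : {p | p ∈ Irr r ∧ p.length ≤ W}, (wE t.1 + ENNReal.ofReal (2 / W) * ((t.1.length : ℝ≥0∞) * wE t.1)) :=
        ENNReal.tsum_le_tsum h1
    _ ≤ ∑' t : Irr r, (wE t.1 + ENNReal.ofReal (2 / W) * ((t.1.length : ℝ≥0∞) * wE t.1)) :=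
        ENNReal.tsum_mono_subtype (fun t => wE t + ENNReal.ofReal (2 / W) * ((t.length : ℝ≥0∞) * wE t)) fun t ht => ht.1
    _ = kap' r + ENNReal.ofReal (2 / W) * mm r := by
        rw [ENNReal.tsum_add, ENNReal.tsum_mul_left]
        rfl

lemma FF_rec {W : ℕ} (hW : 1 ≤ W) (n : ℕ) : FF W n ≤ ((if n = 0 then 1 else 0) + ENNReal.ofReal (2 / W) * cv mm (FF W) n) +
    ∑ r ∈ Finset.Icc 1 n, kap' r * FF W (n - r) := by
  classical
  let P : Finset.Icc 1 n → Set (List Bool) := fun r =>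
    {t | ∃ p ∈ {p | p ∈ Irr (r : ℕ) ∧ p.length ≤ W}, ∃ c ∈ {c | SB W (n - (r : ℕ)) c}, t = p ++ c}
  have h0 : {t | SB W n t} ⊆ {t | n = 0 ∧ t = []} ∪ ⋃ r, P r := by
    intro t ht
    rcases SB.dec ht with h | ⟨r, hr, p, hp, c, hc, h⟩
    · exact Or.inl h
    · right
      rw [Set.mem_iUnion]
      exact ⟨⟨r, hr⟩, p, hp, c, hc, h⟩
  have h1 : gd (-(1 / (W : ℝ))) {t : List Bool | n = 0 ∧ t = []} ≤ if n = 0 then 1 else 0 := by
    split_ifs with hn
    · have e : {t : List Bool | n = 0 ∧ t = []} = {[]} := by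
        ext t
        simp [hn]
      rw [e]
      unfold gd
      rw [tsum_singleton (f := wd (-(1 / (W : ℝ))))]
      unfold wd dmp wE
      simp
    · have e : {t : List Bool | n = 0 ∧ t = []} = ∅ := by
        ext t
        simp [hn]
      rw [e]
      unfold gd
      simp
  have h2 : ∀ r, gd (-(1 / (W : ℝ))) (P r) ≤ (kap' (r : ℕ) + ENNReal.ofReal (2 / W) * mm r) * FF W (n - (r : ℕ)) := by
    intro r
    refine (gd_le_mul fun t ht => ht).trans ?_
    exact mul_le_mul_left (gd_short_irr hW _) _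
  calc FF W n ≤ gd (-(1 / (W : ℝ))) ({t : List Bool | n = 0 ∧ t = []} ∪ ⋃ r, P r) :=
        ENNReal.tsum_mono_subtype (wd (-(1 / (W : ℝ)))) h0
    _ ≤ gd (-(1 / (W : ℝ))) {t : List Bool | n = 0 ∧ t = []} + gd (-(1 / (W : ℝ))) (⋃ r, P r) :=
        ENNReal.tsum_union_le (wd (-(1 / (W : ℝ)))) _ _
    _ ≤ (if n = 0 then 1 else 0) + ∑ r, gd (-(1 / (W : ℝ))) (P r) :=
        add_le_add h1 (ENNReal.tsum_iUnion_le (wd (-(1 / (W : ℝ)))) P)
    _ ≤ (if n = 0 then 1 else 0) + ∑ r : Finset.Icc 1 n, (kap' (r : ℕ) + ENNReal.ofReal (2 / W) * mm r) * FF W (n - (r : ℕ)) :=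
        add_le_add_right (Finset.sum_le_sum fun r _ => h2 r) _
    _ = (if n = 0 then 1 else 0) + ∑ r ∈ Finset.Icc 1 n, (kap' r + ENNReal.ofReal (2 / W) * mm r) * FF W (n - r) := by
        rw [← Finset.sum_coe_sort (Finset.Icc 1 n)
          (fun r => (kap' r + ENNReal.ofReal (2 / W) * mm r) * FF W (n - r))]
    _ ≤ _ := by
        rw [add_assoc]
        apply add_le_add_right
        have e : cv mm (FF W) n = ∑ r ∈ Finset.Icc 1 n, mm r * FF W (n - r) := by
          rw [cv_eq]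
          have h1 : Finset.range (n + 1) = insert 0 (Finset.Icc 1 n) := by
            ext b
            simp only [Finset.mem_range, Finset.mem_insert, Finset.mem_Icc]
            omega
          rw [h1, Finset.sum_insert (by simp), mm_zero, zero_mul, zero_add]
        rw [e, Finset.mul_sum, ← Finset.sum_add_distrib]
        apply Finset.sum_le_sum
        intro r _
        apply le_of_eq
        ring

/-- total mass with the growth factor -/
theorem sum_FF_le {C c : ℝ} (hC : 0 < C) (hc : c ≤ 2)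
    (hS2 : ∀ T : ℕ, 1 ≤ T → ∑' t : Brd T, (t.1.length : ℝ≥0∞) * wE t ≤
      ENNReal.ofReal (C * (T : ℝ) ^ (2 - c)) * BT T) {s W : ℕ} (hs : 1 ≤ s)
    (hW : 16 * C * 3 ^ (2 - c) * (s : ℝ) ^ (2 - c) ≤ W) :
    ∑ n ∈ Finset.range s, FF W n ≤ ENNReal.ofReal (2 * UU s) := by
  have hs0 : (0 : ℝ) < s := by exact_mod_cast hs
  have hsp : (0 : ℝ) < (s : ℝ) ^ (2 - c) := Real.rpow_pos_of_pos hs0 _
  have hW0 : (0 : ℝ) < W := lt_of_lt_of_le (by positivity) hW
  have hW1 : 1 ≤ W := by exact_mod_cast hW0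
  set g : ℕ → ℝ≥0∞ := fun n => (if n = 0 then 1 else 0) + ENNReal.ofReal (2 / W) * cv mm (FF W) n with hg
  have h1 : ∀ n, FF W n ≤ cv BT g n :=
    renew_le BT kap' (FF W) g BT_zero (fun j hj => renewal hj) (fun n => FF_rec hW1 n)
  have hsum : ∑ n ∈ Finset.range s, FF W n ≤ ENNReal.ofReal (UU s) * (1 + ENNReal.ofReal (2 / W) *
      ((∑ r ∈ Finset.range s, mm r) * ∑ n ∈ Finset.range s, FF W n)) := by
    calc ∑ n ∈ Finset.range s, FF W n ≤ ∑ n ∈ Finset.range s, cv BT g n := Finset.sum_le_sum fun n _ => h1 n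
      _ ≤ (∑ i ∈ Finset.range s, BT i) * ∑ j ∈ Finset.range s, g j := sum_cv_le BT g s
      _ ≤ ENNReal.ofReal (UU s) * (1 + ENNReal.ofReal (2 / W) *
          ((∑ r ∈ Finset.range s, mm r) * ∑ n ∈ Finset.range s, FF W n)) := by
          apply mul_le_mul' (sum_BT_lt s)
          rw [hg, Finset.sum_add_distrib]
          apply add_le_add
          · rw [Finset.sum_ite_eq' (Finset.range s) 0 (fun _ => (1 : ℝ≥0∞))]
            split_ifs <;> simp
          · rw [← Finset.mul_sum]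
            exact mul_le_mul_right (sum_cv_le mm (FF W) s) _
  have hfin : ∑ n ∈ Finset.range s, FF W n ≠ ∞ := ENNReal.sum_ne_top.2 fun n _ => FF_ne_top hW1 n
  obtain ⟨F, hF0, hF⟩ : ∃ F : ℝ, 0 ≤ F ∧ ∑ n ∈ Finset.range s, FF W n = ENNReal.ofReal F :=
    ⟨_, ENNReal.toReal_nonneg, (ENNReal.ofReal_toReal hfin).symm⟩
  rw [hF] at hsum ⊢
  have hm := mm_mass hC hc hS2 hs
  have hU := one_le_UU s
  have h2 : ENNReal.ofReal (UU s) * (1 + ENNReal.ofReal (2 / W) * ((∑ r ∈ Finset.range s, mm r) * ENNReal.ofReal F)) ≤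
      ENNReal.ofReal (UU s + F / 2) := by
    calc ENNReal.ofReal (UU s) * (1 + ENNReal.ofReal (2 / W) * ((∑ r ∈ Finset.range s, mm r) * ENNReal.ofReal F))
        = ENNReal.ofReal (UU s) + ENNReal.ofReal (2 / W) * ENNReal.ofReal F *
            ((∑ r ∈ Finset.range s, mm r) * ENNReal.ofReal (UU s)) := by ring
      _ ≤ ENNReal.ofReal (UU s) + ENNReal.ofReal (2 / W) * ENNReal.ofReal F *
            ENNReal.ofReal (4 * C * 3 ^ (2 - c) * (s : ℝ) ^ (2 - c)) := by gcongr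
      _ = ENNReal.ofReal (UU s + 2 / W * F * (4 * C * 3 ^ (2 - c) * (s : ℝ) ^ (2 - c))) := by
          rw [← ENNReal.ofReal_mul (by positivity), ← ENNReal.ofReal_mul (by positivity),
            ← ENNReal.ofReal_add (by linarith) (by positivity)]
      _ ≤ ENNReal.ofReal (UU s + F / 2) := by
          apply ENNReal.ofReal_le_ofReal
          apply add_le_add_right
          have h3 : 2 / W * F * (4 * C * 3 ^ (2 - c) * (s : ℝ) ^ (2 - c)) =
              (16 * C * 3 ^ (2 - c) * (s : ℝ) ^ (2 - c)) * (F / 2) / W := by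
            field_simp
            ring
          rw [h3, div_le_iff₀ hW0, mul_comm (F / 2)]
          exact mul_le_mul_of_nonneg_right hW (by positivity)
  have h3 := hsum.trans h2
  rw [ENNReal.ofReal_le_ofReal_iff (by positivity)] at h3
  apply ENNReal.ofReal_le_ofReal
  linarith

/-- bridges of height below s without long pieces -/
def SBs (W s : ℕ) : Set (List Bool) := {t | ∃ a < s, SB W a t}

lemma gd_SBs (W s : ℕ) : gd (-(1 / (W : ℝ))) (SBs W s) ≤ ∑ n ∈ Finset.range s, FF W n := by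
  classical
  let P : Finset.range s → Set (List Bool) := fun a => {t | SB W (a : ℕ) t}
  have h0 : SBs W s ⊆ ⋃ a, P a := by
    rintro t ⟨a, ha, ht⟩
    rw [Set.mem_iUnion]
    exact ⟨⟨a, Finset.mem_range.2 ha⟩, ht⟩
  calc gd (-(1 / (W : ℝ))) (SBs W s) ≤ gd (-(1 / (W : ℝ))) (⋃ a, P a) :=
        ENNReal.tsum_mono_subtype (wd (-(1 / (W : ℝ)))) h0
    _ ≤ ∑ a, gd (-(1 / (W : ℝ))) (P a) := ENNReal.tsum_iUnion_le (wd (-(1 / (W : ℝ)))) P
    _ = ∑ n ∈ Finset.range s, FF W n := Finset.sum_coe_sort (Finset.range s) (fun n => FF W n)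

/-- **(M3)** pairs of bridges of heights below s without long pieces, of total length more than V -/
theorem long_pairs {C c : ℝ} (hC : 0 < C) (hc : c ≤ 2)
    (hS2 : ∀ T : ℕ, 1 ≤ T → ∑' t : Brd T, (t.1.length : ℝ≥0∞) * wE t ≤
      ENNReal.ofReal (C * (T : ℝ) ^ (2 - c)) * BT T) {s W : ℕ} (hs : 1 ≤ s)
    (hW : 16 * C * 3 ^ (2 - c) * (s : ℝ) ^ (2 - c) ≤ W) (V : ℝ) :
    ∑' p : {p : List Bool × List Bool | p.1 ∈ SBs W s ∧ p.2 ∈ SBs W s ∧ V ≤ (p.1.length : ℝ) + p.2.length},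
      wE p.1.1 * wE p.1.2 ≤ ENNReal.ofReal (4 * UU s ^ 2 * Real.exp (-(V / W))) := by
  have hs0 : (0 : ℝ) < s := by exact_mod_cast hs
  have hsp : (0 : ℝ) < (s : ℝ) ^ (2 - c) := Real.rpow_pos_of_pos hs0 _
  have hW0 : (0 : ℝ) < W := lt_of_lt_of_le (by positivity) hW
  have h1 : ∀ p : {p : List Bool × List Bool | p.1 ∈ SBs W s ∧ p.2 ∈ SBs W s ∧ V ≤ (p.1.length : ℝ) + p.2.length},
      wE p.1.1 * wE p.1.2 ≤ ENNReal.ofReal (Real.exp (-(V / W))) *
        (wd (-(1 / (W : ℝ))) p.1.1 * wd (-(1 / (W : ℝ))) p.1.2) := by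
    rintro ⟨⟨a, b⟩, ha, hb, hV⟩
    simp only at ha hb hV ⊢
    unfold wd dmp
    have h2 : (1 : ℝ≥0∞) ≤ ENNReal.ofReal (Real.exp (-(V / W))) *
        (ENNReal.ofReal (Real.exp (-(-(1 / (W : ℝ)) * (a.length : ℝ)))) *
          ENNReal.ofReal (Real.exp (-(-(1 / (W : ℝ)) * (b.length : ℝ))))) := by
      rw [← ENNReal.ofReal_mul (Real.exp_pos _).le, ← ENNReal.ofReal_mul (Real.exp_pos _).le, ← Real.exp_add,
        ← Real.exp_add, ← ENNReal.ofReal_one]
      apply ENNReal.ofReal_le_ofReal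
      apply Real.one_le_exp
      have e : -(V / W) + (-(-(1 / (W : ℝ)) * (a.length : ℝ)) + -(-(1 / (W : ℝ)) * (b.length : ℝ))) =
          ((a.length : ℝ) + b.length - V) / W := by
        field_simp
        ring
      rw [e]
      exact div_nonneg (by linarith) hW0.le
    calc wE a * wE b = wE a * wE b * 1 := (mul_one _).symm
      _ ≤ wE a * wE b * _ := mul_le_mul_right h2 _
      _ = _ := by ring
  have h2 : ∑' p : {p : List Bool × List Bool | p.1 ∈ SBs W s ∧ p.2 ∈ SBs W s ∧ V ≤ (p.1.length : ℝ) + p.2.length},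
      (wd (-(1 / (W : ℝ))) p.1.1 * wd (-(1 / (W : ℝ))) p.1.2) ≤ gd (-(1 / (W : ℝ))) (SBs W s) * gd (-(1 / (W : ℝ))) (SBs W s) := by
    unfold gd
    rw [← ENNReal.tsum_mul_right]
    simp_rw [← ENNReal.tsum_mul_left]
    rw [← ENNReal.tsum_prod (f := fun (a : SBs W s) (b : SBs W s) => wd (-(1 / (W : ℝ))) a * wd (-(1 / (W : ℝ))) b)]
    let ψ : {p : List Bool × List Bool | p.1 ∈ SBs W s ∧ p.2 ∈ SBs W s ∧ V ≤ (p.1.length : ℝ) + p.2.length} →
        SBs W s × SBs W s := fun p => (⟨p.1.1, p.2.1⟩, ⟨p.1.2, p.2.2.1⟩)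
    have hψ : Function.Injective ψ := by
      intro p q h
      have e1 : p.1.1 = q.1.1 := congrArg (fun x => (x.1 : List Bool)) h
      have e2 : p.1.2 = q.1.2 := congrArg (fun x => (x.2 : List Bool)) h
      exact Subtype.ext (Prod.ext e1 e2)
    exact ENNReal.tsum_comp_le_tsum_of_injective hψ
      (fun p : SBs W s × SBs W s => wd (-(1 / (W : ℝ))) p.1 * wd (-(1 / (W : ℝ))) p.2)
  have h3 := (gd_SBs W s).trans (sum_FF_le hC hc hS2 hs hW)
  have hU := UU_nn s
  calc ∑' p : {p : List Bool × List Bool | p.1 ∈ SBs W s ∧ p.2 ∈ SBs W s ∧ V ≤ (p.1.length : ℝ) + p.2.length},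
      wE p.1.1 * wE p.1.2
      ≤ ∑' p : {p : List Bool × List Bool | p.1 ∈ SBs W s ∧ p.2 ∈ SBs W s ∧ V ≤ (p.1.length : ℝ) + p.2.length},
        ENNReal.ofReal (Real.exp (-(V / W))) * (wd (-(1 / (W : ℝ))) p.1.1 * wd (-(1 / (W : ℝ))) p.1.2) :=
        ENNReal.tsum_le_tsum h1
    _ = ENNReal.ofReal (Real.exp (-(V / W))) * ∑' p : {p : List Bool × List Bool | p.1 ∈ SBs W s ∧ p.2 ∈ SBs W s ∧
        V ≤ (p.1.length : ℝ) + p.2.length}, (wd (-(1 / (W : ℝ))) p.1.1 * wd (-(1 / (W : ℝ))) p.1.2) :=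
        ENNReal.tsum_mul_left
    _ ≤ ENNReal.ofReal (Real.exp (-(V / W))) * (ENNReal.ofReal (2 * UU s) * ENNReal.ofReal (2 * UU s)) :=
        mul_le_mul_right (h2.trans (mul_le_mul' h3 h3)) _
    _ = ENNReal.ofReal (4 * UU s ^ 2 * Real.exp (-(V / W))) := by
        rw [← ENNReal.ofReal_mul (by positivity), ← ENNReal.ofReal_mul (Real.exp_pos _).le]
        congr 1
        ring

end HexObs.SDE
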