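import Pool.Agent.SDE.Mass3

/-!
SD13, masses (M1) in the form for pairs of bridges without long pieces.
-/

set_option autoImplicit false

namespace HexObs.SDE

open Finset ENNReal HexObs.FPS

/-- disjoint pairs of short bridges, one order -/
lemma pairs_le (W s : ℕ) : ∑' p : {p : List Bool × List Bool | p.1 ∈ SBs W s ∧ p.2 ∈ SBs W s ∧ Dj p.1 p.2},
    wE p.1.1 * wE p.1.2 ≤ ∑ a ∈ Finset.range s, ∑ b ∈ Finset.range s, gg a b := by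
  classical
  let P : Finset.range s × Finset.range s → Set (List Bool × List Bool) := fun x =>
    {p | p.1 ∈ Brd (x.1 : ℕ) ∧ p.2 ∈ Brd (x.2 : ℕ) ∧ Dj p.1 p.2}
  have h0 : {p : List Bool × List Bool | p.1 ∈ SBs W s ∧ p.2 ∈ SBs W s ∧ Dj p.1 p.2} ⊆ ⋃ x, P x := by
    rintro p ⟨⟨a, ha, h1⟩, ⟨b, hb, h2⟩, h3⟩
    rw [Set.mem_iUnion]
    exact ⟨(⟨a, Finset.mem_range.2 ha⟩, ⟨b, Finset.mem_range.2 hb⟩), h1.brd, h2.brd, h3⟩
  calc ∑' p : {p : List Bool × List Bool | p.1 ∈ SBs W s ∧ p.2 ∈ SBs W s ∧ Dj p.1 p.2}, wE p.1.1 * wE p.1.2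
      ≤ ∑' p : ⋃ x, P x, wE p.1.1 * wE p.1.2 :=
        ENNReal.tsum_mono_subtype (fun p : List Bool × List Bool => wE p.1 * wE p.2) h0
    _ ≤ ∑ x, ∑' p : P x, wE p.1.1 * wE p.1.2 :=
        ENNReal.tsum_iUnion_le (fun p : List Bool × List Bool => wE p.1 * wE p.2) P
    _ = ∑ x : Finset.range s × Finset.range s, gg (x.1 : ℕ) (x.2 : ℕ) := rfl
    _ = ∑ a : Finset.range s, ∑ b : Finset.range s, gg (a : ℕ) (b : ℕ) := Fintype.sum_prod_type _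
    _ = ∑ a ∈ Finset.range s, ∑ b ∈ Finset.range s, gg a b := by
        rw [← Finset.sum_coe_sort (Finset.range s) (fun a => ∑ b ∈ Finset.range s, gg a b)]
        apply Finset.sum_congr rfl
        intro a _
        exact Finset.sum_coe_sort (Finset.range s) (fun b => gg (a : ℕ) b)

/-- **(M1)** pairs of short bridges at adjacent feet, disjoint in one of the two orders -/
theorem disj_pairs : ∃ C : ℝ, 0 < C ∧ ∀ W s : ℕ, 1 ≤ s →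
    ∑' p : {p : List Bool × List Bool | p.1 ∈ SBs W s ∧ p.2 ∈ SBs W s ∧ (Dj p.1 p.2 ∨ Dj p.2 p.1)},
      wE p.1.1 * wE p.1.2 ≤ ENNReal.ofReal (C * (1 + (Nat.log 2 s : ℝ)) ^ C * UU s) := by
  obtain ⟨C, hC, h⟩ := sum_gg_le
  refine ⟨2 * C, by positivity, ?_⟩
  intro W s hs
  have h1 : ∑' p : {p : List Bool × List Bool | p.1 ∈ SBs W s ∧ p.2 ∈ SBs W s ∧ Dj p.2 p.1}, wE p.1.1 * wE p.1.2 ≤
      ∑' p : {p : List Bool × List Bool | p.1 ∈ SBs W s ∧ p.2 ∈ SBs W s ∧ Dj p.1 p.2}, wE p.1.1 * wE p.1.2 := by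
    let ψ : {p : List Bool × List Bool | p.1 ∈ SBs W s ∧ p.2 ∈ SBs W s ∧ Dj p.2 p.1} →
        {p : List Bool × List Bool | p.1 ∈ SBs W s ∧ p.2 ∈ SBs W s ∧ Dj p.1 p.2} :=
      fun p => ⟨(p.1.2, p.1.1), p.2.2.1, p.2.1, p.2.2.2⟩
    have hψ : Function.Injective ψ := by
      intro p q h
      have e1 : (p.1.2, p.1.1) = (q.1.2, q.1.1) := congrArg Subtype.val h
      have e2 := Prod.ext_iff.1 e1
      exact Subtype.ext (Prod.ext e2.2 e2.1)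
    calc ∑' p : {p : List Bool × List Bool | p.1 ∈ SBs W s ∧ p.2 ∈ SBs W s ∧ Dj p.2 p.1}, wE p.1.1 * wE p.1.2
        = ∑' p : {p : List Bool × List Bool | p.1 ∈ SBs W s ∧ p.2 ∈ SBs W s ∧ Dj p.2 p.1},
          (fun q : {p : List Bool × List Bool | p.1 ∈ SBs W s ∧ p.2 ∈ SBs W s ∧ Dj p.1 p.2} =>
            wE q.1.1 * wE q.1.2) (ψ p) := tsum_congr fun p => mul_comm _ _
      _ ≤ _ := ENNReal.tsum_comp_le_tsum_of_injective hψ _
  have h2 : {p : List Bool × List Bool | p.1 ∈ SBs W s ∧ p.2 ∈ SBs W s ∧ (Dj p.1 p.2 ∨ Dj p.2 p.1)} ⊆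
      {p | p.1 ∈ SBs W s ∧ p.2 ∈ SBs W s ∧ Dj p.1 p.2} ∪ {p | p.1 ∈ SBs W s ∧ p.2 ∈ SBs W s ∧ Dj p.2 p.1} := by
    rintro p ⟨ha, hb, h | h⟩
    · exact Or.inl ⟨ha, hb, h⟩
    · exact Or.inr ⟨ha, hb, h⟩
  have hL : (0 : ℝ) ≤ (Nat.log 2 s : ℝ) := Nat.cast_nonneg _
  have hU := UU_nn s
  calc ∑' p : {p : List Bool × List Bool | p.1 ∈ SBs W s ∧ p.2 ∈ SBs W s ∧ (Dj p.1 p.2 ∨ Dj p.2 p.1)},
      wE p.1.1 * wE p.1.2
      ≤ ∑' p : ({p | p.1 ∈ SBs W s ∧ p.2 ∈ SBs W s ∧ Dj p.1 p.2} ∪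
          {p | p.1 ∈ SBs W s ∧ p.2 ∈ SBs W s ∧ Dj p.2 p.1} : Set (List Bool × List Bool)), wE p.1.1 * wE p.1.2 :=
        ENNReal.tsum_mono_subtype (fun p : List Bool × List Bool => wE p.1 * wE p.2) h2
    _ ≤ _ + _ := ENNReal.tsum_union_le (fun p : List Bool × List Bool => wE p.1 * wE p.2) _ _
    _ ≤ ENNReal.ofReal (C * (1 + (Nat.log 2 s : ℝ)) ^ C * UU s) + ENNReal.ofReal (C * (1 + (Nat.log 2 s : ℝ)) ^ C * UU s) :=
        add_le_add ((pairs_le W s).trans (h s hs)) ((h1.trans (pairs_le W s)).trans (h s hs))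
    _ = ENNReal.ofReal (2 * (C * (1 + (Nat.log 2 s : ℝ)) ^ C * UU s)) := by
        rw [← ENNReal.ofReal_add (by positivity) (by positivity)]
        congr 1
        ring
    _ ≤ ENNReal.ofReal (2 * C * (1 + (Nat.log 2 s : ℝ)) ^ (2 * C) * UU s) := by
        apply ENNReal.ofReal_le_ofReal
        have h3 : (1 + (Nat.log 2 s : ℝ)) ^ C ≤ (1 + (Nat.log 2 s : ℝ)) ^ (2 * C) :=
          Real.rpow_le_rpow_of_exponent_le (by linarith) (by linarith)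
        calc 2 * (C * (1 + (Nat.log 2 s : ℝ)) ^ C * UU s) = 2 * C * (1 + (Nat.log 2 s : ℝ)) ^ C * UU s := by ring
          _ ≤ 2 * C * (1 + (Nat.log 2 s : ℝ)) ^ (2 * C) * UU s := by gcongr

end HexObs.SDE
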