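import Pool.Agent.SDE.Mass4

/-!
SD13: the masses (M1), (M2), (M3) as real sequences.
-/

set_option autoImplicit false

namespace HexObs.SDE

open Finset ENNReal HexObs.FPS

/-- pairs of disjoint hanging bridges of heights below `s` made of pieces of length at most `W0` -/
def GP (W0 s : ℕ) : Set (List Bool × List Bool) :=
  {p | p.1 ∈ SBs W0 s ∧ p.2 ∈ SBs W0 s ∧ (Dj p.1 p.2 ∨ Dj p.2 p.1)}

/-- weight of the pairs of total length `k` -/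
noncomputable def gr (W0 s k : ℕ) : ℝ := xc ^ k * Nat.card {p | p ∈ GP W0 s ∧ p.1.length + p.2.length = k}

/-- bridges of height between `s` and `2 s` -/
def BP (s : ℕ) : Set (List Bool) := {t | ∃ T, s ≤ T ∧ T ≤ 2 * s ∧ t ∈ Brd T}

/-- weight of the bridges of heights in `[s, 2 s]` with `k` letters -/
noncomputable def ar (s k : ℕ) : ℝ := xc ^ k * Nat.card {t | t ∈ BP s ∧ t.length = k}

lemma gr_nonneg (W0 s k : ℕ) : 0 ≤ gr W0 s k := mul_nonneg (pow_nonneg xc_pos.le _) (Nat.cast_nonneg _)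

lemma ar_nonneg (s k : ℕ) : 0 ≤ ar s k := mul_nonneg (pow_nonneg xc_pos.le _) (Nat.cast_nonneg _)

lemma fin_list (k : ℕ) : {t : List Bool | t.length ≤ k}.Finite := by
  apply Set.Finite.subset (List.finite_length_le Bool k)
  intro t ht
  exact ht

/-- one slice -/
lemma slice {α : Type*} (S : Set α) (l : α → ℕ) (hfin : ∀ k, {a | a ∈ S ∧ l a = k}.Finite) (k : ℕ) :
    ∑' a : {a | a ∈ S ∧ l a = k}, ENNReal.ofReal (xc ^ l a.1) =
      ENNReal.ofReal (xc ^ k * Nat.card {a | a ∈ S ∧ l a = k}) := by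
  have : Finite {a | a ∈ S ∧ l a = k} := (hfin k).to_subtype
  have : Fintype {a | a ∈ S ∧ l a = k} := Fintype.ofFinite _
  have h1 : ∀ a : {a | a ∈ S ∧ l a = k}, ENNReal.ofReal (xc ^ l a.1) = ENNReal.ofReal (xc ^ k) := by
    rintro ⟨a, ha, hk⟩
    rw [hk]
  rw [tsum_congr h1, tsum_fintype, Finset.sum_const, nsmul_eq_mul, mul_comm,
    ENNReal.ofReal_mul (pow_nonneg xc_pos.le _), ENNReal.ofReal_natCast, Nat.card_eq_fintype_card, Finset.card_univ]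

lemma slices_eq {α : Type*} (S : Set α) (l : α → ℕ) (hfin : ∀ k, {a | a ∈ S ∧ l a = k}.Finite) (I : Finset ℕ) :
    ENNReal.ofReal (∑ k ∈ I, xc ^ k * Nat.card {a | a ∈ S ∧ l a = k}) =
      ∑' a : {a | a ∈ S ∧ l a ∈ I}, ENNReal.ofReal (xc ^ l a.1) := by
  rw [ENNReal.ofReal_sum_of_nonneg (fun k _ => mul_nonneg (pow_nonneg xc_pos.le _) (Nat.cast_nonneg _))]
  have h1 : ∀ k ∈ I, ENNReal.ofReal (xc ^ k * Nat.card {a | a ∈ S ∧ l a = k}) =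
      ∑' a : {a | a ∈ S ∧ l a = k}, ENNReal.ofReal (xc ^ l a.1) := fun k _ => (slice S l hfin k).symm
  rw [Finset.sum_congr rfl h1]
  have h2 : {a | a ∈ S ∧ l a ∈ I} = ⋃ k ∈ I, {a | a ∈ S ∧ l a = k} := by
    ext a
    simp only [Set.mem_ofPred_eq, Set.mem_iUnion, exists_prop]
    constructor
    · rintro ⟨ha, hk⟩
      exact ⟨l a, hk, ha, rfl⟩
    · rintro ⟨k, hk, ha, rfl⟩
      exact ⟨ha, hk⟩
  have h3 : (I : Set ℕ).PairwiseDisjoint fun k => {a | a ∈ S ∧ l a = k} := by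
    intro j _ k _ hjk
    rw [Function.onFun, Set.disjoint_left]
    rintro a ⟨_, h4⟩ ⟨_, h5⟩
    exact hjk (h4.symm.trans h5)
  have h4 := ENNReal.tsum_biUnion' (f := fun a => ENNReal.ofReal (xc ^ l a)) h3
  have h5 : (⋃ k ∈ I, {a | a ∈ S ∧ l a = k}) = ⋃ k ∈ (I : Set ℕ), {a | a ∈ S ∧ l a = k} := by
    simp only [Finset.mem_coe]
  rw [h2, h5, h4]
  exact (Finset.tsum_subtype I fun k => ∑' a : {a | a ∈ S ∧ l a = k}, ENNReal.ofReal (xc ^ l a.1)).symm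

lemma GP_fin (W0 s k : ℕ) : {p | p ∈ GP W0 s ∧ p.1.length + p.2.length = k}.Finite := by
  apply Set.Finite.subset ((fin_list k).prod (fin_list k))
  rintro ⟨a, b⟩ ⟨_, h⟩
  simp only at h
  exact ⟨by show a.length ≤ k; omega, by show b.length ≤ k; omega⟩

lemma BP_fin (s k : ℕ) : {t | t ∈ BP s ∧ t.length = k}.Finite := by
  apply Set.Finite.subset (fin_list k)
  rintro a ⟨_, h⟩
  exact h.le

lemma wE_pair (p : List Bool × List Bool) : wE p.1 * wE p.2 = ENNReal.ofReal (xc ^ (p.1.length + p.2.length)) := by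
  unfold wE
  rw [← ENNReal.ofReal_mul (pow_nonneg xc_pos.le _), pow_add]

lemma gr_sum (W0 s : ℕ) (I : Finset ℕ) : ENNReal.ofReal (∑ k ∈ I, gr W0 s k) =
    ∑' p : {p : List Bool × List Bool | p ∈ GP W0 s ∧ p.1.length + p.2.length ∈ I}, wE p.1.1 * wE p.1.2 := by
  have := slices_eq (GP W0 s) (fun p => p.1.length + p.2.length) (GP_fin W0 s) I
  unfold gr
  rw [this]
  exact tsum_congr fun p => (wE_pair p.1).symm

lemma ar_sum (s : ℕ) (I : Finset ℕ) : ENNReal.ofReal (∑ k ∈ I, ar s k) = gf {t | t ∈ BP s ∧ t.length ∈ I} :=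
  slices_eq (BP s) List.length (BP_fin s) I

/-- **(M1)**, real form -/
theorem gr_le : ∃ C : ℝ, 0 < C ∧ ∀ W0 s K : ℕ, 1 ≤ s →
    ∑ k ∈ range K, gr W0 s k ≤ C * (1 + (Nat.log 2 s : ℝ)) ^ C * UU s := by
  obtain ⟨C, hC, h⟩ := disj_pairs
  refine ⟨C, hC, fun W0 s K hs => ?_⟩
  have h1 : ENNReal.ofReal (∑ k ∈ range K, gr W0 s k) ≤ ENNReal.ofReal (C * (1 + (Nat.log 2 s : ℝ)) ^ C * UU s) := by
    rw [gr_sum]
    refine le_trans ?_ (h W0 s hs)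
    exact ENNReal.tsum_mono_subtype (fun p : List Bool × List Bool => wE p.1 * wE p.2) fun p hp => hp.1
  exact (ENNReal.ofReal_le_ofReal_iff (by
    have := UU_nn s
    positivity)).1 h1

/-- **(M2)**, real form -/
theorem ar_ge {C c : ℝ} (hC : 0 < C) (hc : c ≤ 2)
    (hS2 : ∀ T : ℕ, 1 ≤ T → ∑' t : Brd T, (t.1.length : ℝ≥0∞) * wE t ≤
      ENNReal.ofReal (C * (T : ℝ) ^ (2 - c)) * BT T) :
    ∃ K : ℝ, 0 < K ∧ ∀ s W : ℕ, 1 ≤ s → K * (s : ℝ) ^ (2 - c) ≤ W → UU s ≤ K * ∑ k ∈ range (W + 1), ar s k := by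
  obtain ⟨K, c0, hK, hc0, h⟩ := short_mass hC hc hS2
  refine ⟨max K (1 / c0), by positivity, fun s W hs hW => ?_⟩
  have hsp : (0 : ℝ) ≤ (s : ℝ) ^ (2 - c) := Real.rpow_nonneg (Nat.cast_nonneg _) _
  have h1 := h s hs W (le_trans (mul_le_mul_of_nonneg_right (le_max_left _ _) hsp) hW)
  have h2 : gf {t | ∃ T, s ≤ T ∧ T ≤ 2 * s ∧ t ∈ Brd T ∧ (t.length : ℝ) ≤ W} ≤
      ENNReal.ofReal (∑ k ∈ range (W + 1), ar s k) := by
    rw [ar_sum]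
    apply gf_mono
    rintro t ⟨T, h3, h4, h5, h6⟩
    have h7 : t.length ≤ W := by exact_mod_cast h6
    exact ⟨⟨T, h3, h4, h5⟩, Finset.mem_range.2 (by omega)⟩
  have h3 : c0 * UU s ≤ ∑ k ∈ range (W + 1), ar s k :=
    (ENNReal.ofReal_le_ofReal_iff (Finset.sum_nonneg fun k _ => ar_nonneg s k)).1 (h1.trans h2)
  have h4 : 0 ≤ ∑ k ∈ range (W + 1), ar s k := Finset.sum_nonneg fun k _ => ar_nonneg s k
  calc UU s = 1 / c0 * (c0 * UU s) := by field_simp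
    _ ≤ 1 / c0 * ∑ k ∈ range (W + 1), ar s k := mul_le_mul_of_nonneg_left h3 (by positivity)
    _ ≤ max K (1 / c0) * ∑ k ∈ range (W + 1), ar s k := mul_le_mul_of_nonneg_right (le_max_right _ _) h4

/-- **(M3)**, real form -/
theorem gr_tail {C c : ℝ} (hC : 0 < C) (hc : c ≤ 2)
    (hS2 : ∀ T : ℕ, 1 ≤ T → ∑' t : Brd T, (t.1.length : ℝ≥0∞) * wE t ≤
      ENNReal.ofReal (C * (T : ℝ) ^ (2 - c)) * BT T) {s W0 : ℕ} (hs : 1 ≤ s)
    (hW : 16 * C * 3 ^ (2 - c) * (s : ℝ) ^ (2 - c) ≤ W0) (V K : ℕ) :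
    ∑ k ∈ Ico V K, gr W0 s k ≤ 4 * UU s ^ 2 * Real.exp (-((V : ℝ) / W0)) := by
  have h1 : ENNReal.ofReal (∑ k ∈ Ico V K, gr W0 s k) ≤
      ENNReal.ofReal (4 * UU s ^ 2 * Real.exp (-((V : ℝ) / W0))) := by
    rw [gr_sum]
    refine le_trans ?_ (long_pairs hC hc hS2 hs hW V)
    refine ENNReal.tsum_mono_subtype (fun p : List Bool × List Bool => wE p.1 * wE p.2) ?_
    rintro ⟨a, b⟩ ⟨⟨h2, h3, _⟩, h4⟩
    rw [Finset.mem_Ico] at h4
    refine ⟨h2, h3, ?_⟩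
    have := h4.1
    simp only at this ⊢
    exact_mod_cast this
  exact (ENNReal.ofReal_le_ofReal_iff (by
    have := UU_nn s
    positivity)).1 h1

/-- all three with one constant, and the bounds of `UU` -/
theorem masses {C c : ℝ} (hC : 0 < C) (hc : c ≤ 2)
    (hS2 : ∀ T : ℕ, 1 ≤ T → ∑' t : Brd T, (t.1.length : ℝ≥0∞) * wE t ≤
      ENNReal.ofReal (C * (T : ℝ) ^ (2 - c)) * BT T) :
    ∃ K : ℝ, 1 ≤ K ∧ (∀ s : ℕ, 1 ≤ s → 1 ≤ UU s ∧ UU s ≤ K * (s : ℝ) ^ K) ∧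
      (∀ W0 s N : ℕ, 1 ≤ s → ∑ k ∈ range N, gr W0 s k ≤ K * (1 + (Nat.log 2 s : ℝ)) ^ K * UU s) ∧
      (∀ s W0 : ℕ, 1 ≤ s → K * (s : ℝ) ^ (2 - c) ≤ W0 → UU s ≤ K * ∑ k ∈ range (W0 + 1), ar s k) ∧
      (∀ s W0 : ℕ, 1 ≤ s → K * (s : ℝ) ^ (2 - c) ≤ W0 → ∀ V N : ℕ,
        ∑ k ∈ Ico V N, gr W0 s k ≤ K * UU s ^ 2 * Real.exp (-((V : ℝ) / W0))) := by
  obtain ⟨C1, hC1, h1⟩ := gr_le
  obtain ⟨C2, hC2, h2⟩ := ar_ge hC hc hS2
  have h3 := fun (s W0 : ℕ) (hs : 1 ≤ s) (hW : 16 * C * 3 ^ (2 - c) * (s : ℝ) ^ (2 - c) ≤ W0) =>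
    gr_tail hC hc hS2 hs hW
  set K : ℝ := C1 + C2 + 16 * C * 3 ^ (2 - c) + 4 with hK
  have h16 : (0 : ℝ) < 16 * C * 3 ^ (2 - c) := by positivity
  have hK1 : C1 ≤ K := by rw [hK]; linarith
  have hK2 : C2 ≤ K := by rw [hK]; linarith
  have hK3 : 16 * C * 3 ^ (2 - c) ≤ K := by rw [hK]; linarith
  have hK4 : 4 ≤ K := by rw [hK]; linarith
  refine ⟨K, by linarith, ?_, ?_, ?_, ?_⟩
  · intro s hs
    refine ⟨one_le_UU s, ?_⟩
    have hs1 : (1 : ℝ) ≤ s := by exact_mod_cast hs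
    have h4 : (s : ℝ) ≤ (s : ℝ) ^ K := by
      calc (s : ℝ) = (s : ℝ) ^ (1 : ℝ) := (Real.rpow_one _).symm
        _ ≤ (s : ℝ) ^ K := Real.rpow_le_rpow_of_exponent_le hs1 (by linarith)
    have h5 := CuLogAux.UU_le_succ s
    nlinarith
  · intro W0 s N hs
    refine (h1 W0 s N hs).trans ?_
    have hL : (1 : ℝ) ≤ 1 + (Nat.log 2 s : ℝ) := by
      have : (0 : ℝ) ≤ (Nat.log 2 s : ℝ) := Nat.cast_nonneg _
      linarith
    apply mul_le_mul_of_nonneg_right _ (UU_nn s)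
    exact mul_le_mul hK1 (Real.rpow_le_rpow_of_exponent_le hL hK1) (by positivity) (by linarith)
  · intro s W0 hs hW
    have hsp : (0 : ℝ) ≤ (s : ℝ) ^ (2 - c) := Real.rpow_nonneg (Nat.cast_nonneg _) _
    refine (h2 s W0 hs (le_trans (mul_le_mul_of_nonneg_right hK2 hsp) hW)).trans ?_
    exact mul_le_mul_of_nonneg_right hK2 (Finset.sum_nonneg fun k _ => ar_nonneg s k)
  · intro s W0 hs hW V N
    have hsp : (0 : ℝ) ≤ (s : ℝ) ^ (2 - c) := Real.rpow_nonneg (Nat.cast_nonneg _) _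
    refine (h3 s W0 hs (le_trans (mul_le_mul_of_nonneg_right hK3 hsp) hW) V N).trans ?_
    apply mul_le_mul_of_nonneg_right _ (Real.exp_pos _).le
    exact mul_le_mul_of_nonneg_right hK4 (sq_nonneg _)

end HexObs.SDE
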