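import Pool.Agent.SDE.DictE

/-!
SD13, E2: extent -> end point.
-/

set_option autoImplicit false

open scoped Classical

namespace HexObs

open Finset

namespace SDE

private lemma E2_norm_sub (z w : ℂ) : ‖z - w‖ ^ 2 ≤ 2 * ‖z‖ ^ 2 + 2 * ‖w‖ ^ 2 := by
  have b4 := norm_sub_le z w
  have b5 : ‖z - w‖ ^ 2 ≤ (‖z‖ + ‖w‖) ^ 2 := pow_le_pow_left₀ (norm_nonneg _) b4 2
  nlinarith [sq_nonneg (‖z‖ - ‖w‖)]

private lemma E2_word {s n : ℕ} (hs : 1 ≤ s) {l : List SawNu.Pt} (hl : l ∈ WE s n) :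
    (s : ℝ) ^ 2 ≤ 32 * SawNu.S4 SawNu.hexRot l := by
  unfold WE at hl
  rw [Finset.mem_filter] at hl
  obtain ⟨h1, i, j, hi, hj, h2⟩ := hl
  have a1 := SawNu.norm_pos_le SawNu.encHex SawNu.hexRot SawNu.hup_hex h1 hi
  have a2 := SawNu.norm_pos_le SawNu.encHex SawNu.hexRot SawNu.hup_hex h1 hj
  have a3 := E2_norm_sub (SawNu.encHex.φ (SawNu.ps l i)) (SawNu.encHex.φ (SawNu.ps l j))
  have hsR : (1 : ℝ) ≤ s := by exact_mod_cast hs
  nlinarith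

/-- the extent of a walk is at least s on a set of walks, hence the end point is far in mean square -/
theorem msq_ge {ε : ℝ} (hε : 0 < ε) : ∃ c : ℝ, 0 < c ∧ ∀ s n : ℕ, 1 ≤ s → 1 ≤ n →
    c * (n : ℝ) ^ (-ε) * (s : ℝ) ^ 2 * (WE s n).card ≤
      ∑ l ∈ SawNu.WS SawNu.hexL n, ‖SawNu.encHex.φ l.sum‖ ^ 2 := by
  obtain ⟨C, hC, hmax⟩ := SawNu.max_all SawNu.hexRot ε hε
  refine ⟨1 / (256 * C), by positivity, fun s n hs hn => ?_⟩
  have hS4 : ∀ l : List SawNu.Pt, 0 ≤ SawNu.S4 SawNu.hexRot l := by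
    intro l; rw [SawNu.S4]; positivity
  have h1 : (s : ℝ) ^ 2 * (WE s n).card ≤ 32 * ∑ l ∈ SawNu.WS SawNu.hexL n, SawNu.S4 SawNu.hexRot l := by
    calc (s : ℝ) ^ 2 * (WE s n).card = ∑ _l ∈ WE s n, (s : ℝ) ^ 2 := by
          rw [Finset.sum_const, nsmul_eq_mul]; ring
      _ ≤ ∑ l ∈ WE s n, 32 * SawNu.S4 SawNu.hexRot l := Finset.sum_le_sum (fun l hl => E2_word hs hl)
      _ ≤ ∑ l ∈ SawNu.WS SawNu.hexL n, 32 * SawNu.S4 SawNu.hexRot l := by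
          apply Finset.sum_le_sum_of_subset_of_nonneg
          · unfold WE
            exact Finset.filter_subset _ _
          · intro l _ _
            have := hS4 l
            positivity
      _ = _ := by rw [Finset.mul_sum]
  have h2 := SawNu.sum_S4_le SawNu.hexRot n
  have h3 := hmax n hn
  have h4 : ∑ l ∈ SawNu.WS SawNu.hexL n, ((SawNu.ht l : ℤ) : ℝ) ^ 2 ≤
      2 * ∑ l ∈ SawNu.WS SawNu.hexL n, ‖SawNu.encHex.φ l.sum‖ ^ 2 := by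
    rw [Finset.mul_sum]
    apply Finset.sum_le_sum
    intro l _
    have := SawNu.encHex.low l.sum
    simp only [SawNu.ht]
    linarith
  have hnR : (0 : ℝ) < n := by exact_mod_cast hn
  have hp : (n : ℝ) ^ (-ε) * (n : ℝ) ^ ε = 1 := by
    rw [← Real.rpow_add hnR, neg_add_cancel, Real.rpow_zero]
  have hpe : 0 < (n : ℝ) ^ ε := Real.rpow_pos_of_pos hnR _
  have hpm : 0 < (n : ℝ) ^ (-ε) := Real.rpow_pos_of_pos hnR _
  set Y := ∑ l ∈ SawNu.WS SawNu.hexL n, ‖SawNu.encHex.φ l.sum‖ ^ 2 with hY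
  have h5 : (s : ℝ) ^ 2 * (WE s n).card ≤ 256 * C * (n : ℝ) ^ ε * Y := by
    have h6 : C * (n : ℝ) ^ ε * ∑ l ∈ SawNu.WS SawNu.hexL n, ((SawNu.ht l : ℤ) : ℝ) ^ 2 ≤
        C * (n : ℝ) ^ ε * (2 * Y) := mul_le_mul_of_nonneg_left h4 (by positivity)
    linarith
  calc 1 / (256 * C) * (n : ℝ) ^ (-ε) * (s : ℝ) ^ 2 * (WE s n).card
      = 1 / (256 * C) * (n : ℝ) ^ (-ε) * ((s : ℝ) ^ 2 * (WE s n).card) := by ring
    _ ≤ 1 / (256 * C) * (n : ℝ) ^ (-ε) * (256 * C * (n : ℝ) ^ ε * Y) :=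
        mul_le_mul_of_nonneg_left h5 (by positivity)
    _ = ((n : ℝ) ^ (-ε) * (n : ℝ) ^ ε) * Y := by field_simp
    _ = Y := by rw [hp, one_mul]

end SDE

end HexObs
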