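import Pool.Agent.SDE.Block

/-!
SD13, numeric part: the window theorem.
-/

set_option autoImplicit false

open Finset Filter

namespace SDE

lemma ev_log {ε : ℝ} (hε : 0 < ε) : ∀ᶠ n : ℕ in atTop, Real.log n ≤ (n : ℝ) ^ ε := by
  have h1 : ∀ᶠ x : ℝ in atTop, Real.log x ≤ x ^ ε := by
    have := (isLittleO_log_rpow_atTop hε).bound (show (0 : ℝ) < 1 by norm_num)
    filter_upwards [this, eventually_ge_atTop (1 : ℝ)] with x hx hx1
    have h0 : 0 ≤ Real.log x := Real.log_nonneg hx1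
    have h2 : 0 ≤ x ^ ε := Real.rpow_nonneg (by linarith) _
    rwa [Real.norm_of_nonneg h0, Real.norm_of_nonneg h2, one_mul] at hx
  exact tendsto_natCast_atTop_atTop.eventually h1

lemma ev_ge {ε : ℝ} (hε : 0 < ε) (K : ℝ) : ∀ᶠ n : ℕ in atTop, K ≤ (n : ℝ) ^ ε :=
  tendsto_natCast_atTop_atTop.eventually ((tendsto_rpow_atTop hε).eventually_ge_atTop K)

/-- the numerical conditions -/
lemma numeric {C σ : ℝ} (hC : 1 ≤ C) (hσ : 0 < σ) (hσ1 : σ < 1 / 4) :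
    ∃ n0 : ℕ, ∀ n : ℕ, n0 ≤ n → 2 ≤ n ∧ 4 ≤ (n : ℝ) ^ (1 - σ) ∧ 8 ≤ (n : ℝ) ^ (2 * σ) ∧
      (4 * ((C + 1) * Real.log n + 1) + 6) * ((2 * C + 4) * Real.log n + 1) * (n : ℝ) ^ (1 - σ) ≤
        (n : ℝ) ^ (1 - σ / 2) ∧
      15 * C ^ 3 * (1 + Real.log n / Real.log 2) ^ C * (n : ℝ) ^ (-σ) ≤ 1 / 100 ∧
      9 * C ^ 3 * (C * (n : ℝ) ^ C) * (n + 1) * (5 * (n : ℝ) ^ σ) * (C * (2 * n + 1) ^ C) *
        (n : ℝ) ^ (-(2 * C + 4)) ≤ 1 / 16 ∧
      C * (2 * (n : ℝ) + 1) ^ C < (n : ℝ) ^ (2 * (C + 1)) / 2 := by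
  have hC0 : 0 < C := by linarith
  have h1 := ev_ge (ε := 1 - σ) (by linarith) 4
  have h2 := ev_ge (ε := 2 * σ) (by linarith) 8
  have h3 := ev_log (ε := σ / 8) (by linarith)
  have h4 := ev_ge (ε := σ / 4) (by linarith) ((4 * C + 14) * (2 * C + 5))
  have h5 := ev_log (ε := σ / (2 * C)) (by positivity)
  have h6 := ev_ge (ε := σ / 2) (by linarith) (1500 * C ^ 3 * 3 ^ C)
  have h7 := ev_ge (ε := 1) (by norm_num) (1440 * C ^ 5 * 3 ^ C)
  have h8 := ev_ge (ε := σ / 8) (by linarith) 1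
  have h9 := ev_ge (ε := σ / (2 * C)) (by positivity) 1
  have h10 := ev_ge (ε := 1) (by norm_num) (2 * C * 3 ^ C + 1)
  have hall := ((((((((((h1.and h2).and h3).and h4).and h5).and h6).and h7).and h8).and h9).and
    h10).and (eventually_ge_atTop 2))
  obtain ⟨n0, hn0⟩ := eventually_atTop.1 hall
  refine ⟨n0, fun n hn => ?_⟩
  obtain ⟨⟨⟨⟨⟨⟨⟨⟨⟨⟨k1, k2⟩, k3⟩, k4⟩, k5⟩, k6⟩, k7⟩, k8⟩, k9⟩, k10⟩, k11⟩ := hn0 n hn
  have hn2 : (2 : ℝ) ≤ n := by exact_mod_cast k11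
  have hnp : (0 : ℝ) < n := by linarith
  have hlog0 : 0 ≤ Real.log n := Real.log_nonneg (by linarith)
  have hlog2 : (0 : ℝ) < Real.log 2 := Real.log_pos (by norm_num)
  have hlog2' : (1 : ℝ) / 2 ≤ Real.log 2 := by
    have := Real.log_two_gt_d9; linarith
  rw [Real.rpow_one] at k7 k10
  refine ⟨k11, k1, k2, ?_, ?_, ?_, ?_⟩
  · set y : ℝ := (n : ℝ) ^ (σ / 8) with hy
    have a1 : (4 * ((C + 1) * Real.log n + 1) + 6) ≤ (4 * C + 14) * y := by nlinarith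
    have a2 : ((2 * C + 4) * Real.log n + 1) ≤ (2 * C + 5) * y := by nlinarith
    have a3 : (4 * ((C + 1) * Real.log n + 1) + 6) * ((2 * C + 4) * Real.log n + 1) ≤
        ((4 * C + 14) * y) * ((2 * C + 5) * y) := by
      apply mul_le_mul a1 a2
      · positivity
      · positivity
    have a4 : y * y = (n : ℝ) ^ (σ / 4) := by
      rw [hy, ← Real.rpow_add hnp]; congr 1; ring
    have a5 : ((4 * C + 14) * y) * ((2 * C + 5) * y) ≤ (n : ℝ) ^ (σ / 4) * (n : ℝ) ^ (σ / 4) := by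
      calc ((4 * C + 14) * y) * ((2 * C + 5) * y) = ((4 * C + 14) * (2 * C + 5)) * (y * y) := by ring
        _ ≤ (n : ℝ) ^ (σ / 4) * (y * y) := by gcongr
        _ = _ := by rw [a4]
    calc (4 * ((C + 1) * Real.log n + 1) + 6) * ((2 * C + 4) * Real.log n + 1) * (n : ℝ) ^ (1 - σ)
        ≤ ((n : ℝ) ^ (σ / 4) * (n : ℝ) ^ (σ / 4)) * (n : ℝ) ^ (1 - σ) :=
          mul_le_mul_of_nonneg_right (a3.trans a5) (by positivity)
      _ = (n : ℝ) ^ (1 - σ / 2) := by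
          rw [← Real.rpow_add hnp, ← Real.rpow_add hnp]; congr 1; ring
  · set y : ℝ := (n : ℝ) ^ (σ / (2 * C)) with hy
    have a1 : 1 + Real.log n / Real.log 2 ≤ 3 * y := by
      have : Real.log n / Real.log 2 ≤ 2 * Real.log n := by
        rw [div_le_iff₀ hlog2]; nlinarith
      linarith
    have a2 : (1 + Real.log n / Real.log 2) ^ C ≤ (3 * y) ^ C :=
      Real.rpow_le_rpow (by positivity) a1 hC0.le
    have a3 : (3 * y) ^ C = 3 ^ C * (n : ℝ) ^ (σ / 2) := by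
      rw [Real.mul_rpow (by norm_num) (by positivity), hy, ← Real.rpow_mul hnp.le]
      congr 2; field_simp
    calc 15 * C ^ 3 * (1 + Real.log n / Real.log 2) ^ C * (n : ℝ) ^ (-σ)
        ≤ 15 * C ^ 3 * (3 ^ C * (n : ℝ) ^ (σ / 2)) * (n : ℝ) ^ (-σ) := by
          rw [← a3]; gcongr
      _ = 15 * C ^ 3 * 3 ^ C * (n : ℝ) ^ (-(σ / 2)) := by
          have : (n : ℝ) ^ (σ / 2) * (n : ℝ) ^ (-σ) = (n : ℝ) ^ (-(σ / 2)) := by
            rw [← Real.rpow_add hnp]; congr 1; ring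
          rw [← this]; ring
      _ ≤ 1 / 100 := by
          rw [Real.rpow_neg hnp.le, ← div_eq_mul_inv, div_le_iff₀ (by positivity)]
          linarith
  · have a1 : (2 * (n : ℝ) + 1) ^ C ≤ 3 ^ C * (n : ℝ) ^ C := by
      rw [← Real.mul_rpow (by norm_num) hnp.le]
      exact Real.rpow_le_rpow (by positivity) (by linarith) hC0.le
    have a2 : (n : ℝ) + 1 ≤ 2 * n := by linarith
    have a3 : (n : ℝ) ^ σ ≤ n := by
      calc (n : ℝ) ^ σ ≤ (n : ℝ) ^ (1 : ℝ) :=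
            Real.rpow_le_rpow_of_exponent_le (by linarith) (by linarith)
        _ = n := Real.rpow_one _
    calc 9 * C ^ 3 * (C * (n : ℝ) ^ C) * (n + 1) * (5 * (n : ℝ) ^ σ) * (C * (2 * n + 1) ^ C) *
        (n : ℝ) ^ (-(2 * C + 4))
        ≤ 9 * C ^ 3 * (C * (n : ℝ) ^ C) * (2 * n) * (5 * n) * (C * (3 ^ C * (n : ℝ) ^ C)) *
        (n : ℝ) ^ (-(2 * C + 4)) := by gcongr
      _ = 90 * C ^ 5 * 3 ^ C * ((n : ℝ) ^ C * (n : ℝ) ^ C * (n * n) * (n : ℝ) ^ (-(2 * C + 4))) := by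
          ring
      _ = 90 * C ^ 5 * 3 ^ C * (n : ℝ) ^ (-2 : ℝ) := by
          congr 1
          have : (n : ℝ) * n = (n : ℝ) ^ (2 : ℝ) := by
            rw [show (2 : ℝ) = ((2 : ℕ) : ℝ) by norm_num, Real.rpow_natCast]; ring
          rw [this, ← Real.rpow_add hnp, ← Real.rpow_add hnp, ← Real.rpow_add hnp]
          congr 1; ring
      _ ≤ 1 / 16 := by
          rw [Real.rpow_neg hnp.le, ← div_eq_mul_inv, div_le_iff₀ (by positivity)]
          have : (n : ℝ) ^ (2 : ℝ) = n * n := by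
            rw [show (2 : ℝ) = ((2 : ℕ) : ℝ) by norm_num, Real.rpow_natCast]; ring
          rw [this]
          nlinarith
  · have a1 : (2 * (n : ℝ) + 1) ^ C ≤ 3 ^ C * (n : ℝ) ^ C := by
      rw [← Real.mul_rpow (by norm_num) hnp.le]
      exact Real.rpow_le_rpow (by positivity) (by linarith) hC0.le
    have a2 : (n : ℝ) ^ (2 * (C + 1)) = (n : ℝ) ^ C * (n : ℝ) ^ (C + 1) * n := by
      have : (n : ℝ) ^ C * (n : ℝ) ^ (C + 1) * n = (n : ℝ) ^ C * (n : ℝ) ^ (C + 1) * (n : ℝ) ^ (1 : ℝ) := by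
        rw [Real.rpow_one]
      rw [this, ← Real.rpow_add hnp, ← Real.rpow_add hnp]; congr 1; ring
    have a3 : 1 ≤ (n : ℝ) ^ (C + 1) := Real.one_le_rpow (by linarith) (by linarith)
    have a4 : 0 < (n : ℝ) ^ C := by positivity
    rw [a2]
    calc C * (2 * (n : ℝ) + 1) ^ C ≤ C * (3 ^ C * (n : ℝ) ^ C) := by gcongr
      _ = (n : ℝ) ^ C * (C * 3 ^ C) := by ring
      _ < (n : ℝ) ^ C * (n / 2) := by
          apply mul_lt_mul_of_pos_left _ a4; linarith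
      _ ≤ (n : ℝ) ^ C * ((n : ℝ) ^ (C + 1) * n / 2) := by
          apply mul_le_mul_of_nonneg_left _ a4.le
          nlinarith
      _ = _ := by ring

/-- **The window theorem.** -/
theorem window {C p : ℝ} (hC : 1 ≤ C) (hp : 1 ≤ p) {z U : ℕ → ℝ} {e f ast tau : ℕ → ℕ → ℝ}
    {g : ℕ → ℕ → ℕ → ℝ}
    (hz1 : ∀ N, 1 / 2 ≤ z N) (hz2 : ∀ N : ℕ, z N ≤ C * ((N : ℝ) + 1) ^ C)
    (hU1 : ∀ s, 1 ≤ s → 1 ≤ U s) (hU2 : ∀ s : ℕ, 1 ≤ s → U s ≤ C * (s : ℝ) ^ C)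
    (he0 : ∀ s N, 0 ≤ e s N) (hef : ∀ s N, e s N ≤ f s N) (hfz : ∀ s N, f s N ≤ z N)
    (t0 : ∀ W0 k, 0 ≤ tau W0 k) (g0 : ∀ W0 s k, 0 ≤ g W0 s k) (a0 : ∀ s k, 0 ≤ ast s k)
    (hU : ∀ W0 s N, 1 ≤ W0 → 1 ≤ s → 2 ≤ N → z N - f s N ≤
      C * ∑ j ∈ Icc (N - 1) (N + 1), ∑ k ∈ range (j + 1), g W0 s k * tau W0 (j - k))
    (hL : ∀ W0 s N, 1 ≤ W0 → 1 ≤ s → ∑ k ∈ range (min W0 N + 1), ast s k * tau W0 (N - k) ≤
      ((N : ℝ) / W0 + 1) * e s N)
    (hM1 : ∀ W0 s K, 1 ≤ W0 → 1 ≤ s → ∑ k ∈ range K, g W0 s k ≤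
      C * (1 + (Nat.log 2 s : ℝ)) ^ C * U s)
    (hM2 : ∀ W0 s : ℕ, 1 ≤ s → C * (s : ℝ) ^ p ≤ W0 → U s ≤ C * ∑ k ∈ range (W0 + 1), ast s k)
    (hM3 : ∀ W0 s W K : ℕ, 1 ≤ s → C * (s : ℝ) ^ p ≤ W0 → ∑ k ∈ Ico W K, g W0 s k ≤
      C * (U s) ^ 2 * Real.exp (-((W : ℝ) / W0))) :
    ∀ σ : ℝ, 0 < σ → σ < 1 / 4 → ∃ n0 : ℕ, ∀ n : ℕ, n0 ≤ n → ∀ s : ℕ, 1 ≤ s →
      C * (s : ℝ) ^ p ≤ (n : ℝ) ^ (1 - σ) / 2 →
      ∃ N : ℕ, n ≤ N ∧ (N : ℝ) ≤ n + (n : ℝ) ^ (1 - σ / 2) ∧ (n : ℝ) ^ (-(2 * σ)) * z N ≤ f s N := by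
  intro σ hσ hσ1
  obtain ⟨n0, hn0⟩ := numeric hC hσ hσ1
  refine ⟨n0, fun n hn s hs hsn => ?_⟩
  obtain ⟨k1, k2, k3, k4, k5, k6, k7⟩ := hn0 n hn
  by_contra hcon
  push Not at hcon
  have hC0 : 0 < C := by linarith
  have hn2 : (2 : ℝ) ≤ n := by exact_mod_cast k1
  have hnp : (0 : ℝ) < n := by linarith
  have hlog0 : 0 ≤ Real.log n := Real.log_nonneg (by linarith)
  have hsR : (1 : ℝ) ≤ s := by exact_mod_cast hs
  set x : ℝ := (n : ℝ) ^ (1 - σ) with hx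
  have hx0 : 0 < x := by linarith
  set W0 : ℕ := ⌊x⌋₊ with hW0
  have w1 : (W0 : ℝ) ≤ x := Nat.floor_le hx0.le
  have w2 : x / 2 ≤ W0 := by
    have := Nat.lt_floor_add_one x
    rw [← hW0] at this
    linarith
  have w3 : 1 ≤ W0 := by
    have : (0 : ℝ) < W0 := by linarith
    exact_mod_cast this
  have w3R : (1 : ℝ) ≤ W0 := by exact_mod_cast w3
  have hxn : x ≤ n := by
    calc x ≤ (n : ℝ) ^ (1 : ℝ) := Real.rpow_le_rpow_of_exponent_le (by linarith) (by linarith)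
      _ = n := Real.rpow_one _
  have hsW : C * (s : ℝ) ^ p ≤ W0 := hsn.trans w2
  have hsn' : (s : ℝ) ≤ n := by
    have h1 : (s : ℝ) ≤ (s : ℝ) ^ p := by
      calc (s : ℝ) = (s : ℝ) ^ (1 : ℝ) := (Real.rpow_one _).symm
        _ ≤ _ := Real.rpow_le_rpow_of_exponent_le hsR hp
    have h2 : (s : ℝ) ^ p ≤ C * (s : ℝ) ^ p := by
      have : 0 ≤ (s : ℝ) ^ p := by positivity
      nlinarith
    linarith
  set L : ℕ := ⌈(C + 1) * Real.log n⌉₊ with hLdef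
  have l1 : (L : ℝ) ≤ (C + 1) * Real.log n + 1 := (Nat.ceil_lt_add_one (by positivity)).le
  have l2 : (C + 1) * Real.log n ≤ L := Nat.le_ceil _
  set q : ℕ := ⌈(2 * C + 4) * Real.log n⌉₊ with hq
  have q1 : (q : ℝ) ≤ (2 * C + 4) * Real.log n + 1 := (Nat.ceil_lt_add_one (by positivity)).le
  have q2 : (2 * C + 4) * Real.log n ≤ q := Nat.le_ceil _
  have q3 : 1 ≤ q := by
    have hl : 0 < Real.log n := Real.log_pos (by linarith)
    have : (0 : ℝ) < q := lt_of_lt_of_le (by positivity) q2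
    exact_mod_cast this
  set W : ℕ := q * W0 with hW
  have hWW : W0 ≤ W := Nat.le_mul_of_pos_left _ (by omega)
  have hWn : (((4 * L + 6) * W : ℕ) : ℝ) ≤ (n : ℝ) ^ (1 - σ / 2) := by
    refine le_trans ?_ k4
    push_cast
    rw [hW]
    push_cast
    calc (4 * (L : ℝ) + 6) * (q * W0) = (4 * (L : ℝ) + 6) * q * W0 := by ring
      _ ≤ (4 * ((C + 1) * Real.log n + 1) + 6) * ((2 * C + 4) * Real.log n + 1) * x := by
          gcongr
  have hWn' : (n : ℝ) ^ (1 - σ / 2) ≤ n := by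
    calc (n : ℝ) ^ (1 - σ / 2) ≤ (n : ℝ) ^ (1 : ℝ) :=
          Real.rpow_le_rpow_of_exponent_le (by linarith) (by linarith)
      _ = n := Real.rpow_one _
  have hmax : n + (4 * L + 6) * W ≤ 2 * n := by
    have : (((4 * L + 6) * W : ℕ) : ℝ) ≤ n := hWn.trans hWn'
    have : (4 * L + 6) * W ≤ n := by exact_mod_cast this
    omega
  set Us : ℝ := U s with hUs
  have u1 : 1 ≤ Us := hU1 s hs
  have u0 : 0 < Us := by linarith
  set Zm : ℝ := C * (2 * (n : ℝ) + 1) ^ C with hZm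
  have hZm0 : 0 < Zm := by positivity
  have hzb : ∀ N, N ≤ 2 * n → z N ≤ Zm := by
    intro N hN
    refine (hz2 N).trans ?_
    rw [hZm]
    have : (N : ℝ) ≤ 2 * n := by exact_mod_cast hN
    gcongr
  set R : ℝ := 5 * (n : ℝ) ^ σ with hR
  have hns : 1 ≤ (n : ℝ) ^ σ := Real.one_le_rpow (by linarith) hσ.le
  have hxs : x * (n : ℝ) ^ σ = n := by
    rw [hx, ← Real.rpow_add hnp]
    have : 1 - σ + σ = 1 := by ring
    rw [this, Real.rpow_one]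
  have hRb : ∀ N : ℕ, N ≤ 2 * n → (N : ℝ) / W0 + 1 ≤ R := by
    intro N hN
    have h1 : (N : ℝ) ≤ 2 * n := by exact_mod_cast hN
    have h2 : (N : ℝ) / W0 ≤ 4 * (n : ℝ) ^ σ := by
      rw [div_le_iff₀ (by linarith)]
      calc (N : ℝ) ≤ 2 * n := h1
        _ = 2 * (x * (n : ℝ) ^ σ) := by rw [hxs]
        _ = 4 * (n : ℝ) ^ σ * (x / 2) := by ring
        _ ≤ 4 * (n : ℝ) ^ σ * W0 := by gcongr
    linarith
  have hR0 : 0 < R := by positivity
  set A : ℝ := Us / C with hA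
  have hA0 : 0 < A := by positivity
  have hAl : A ≤ ∑ k ∈ range (W0 + 1), ast s k := by
    rw [hA, div_le_iff₀ hC0]
    have := hM2 W0 s hs hsW
    linarith
  set Tm : ℝ := (W0 + 1) * (R * Zm) / A with hTm
  have hT : ∀ M, M ≤ n + (4 * L + 5) * W → tau W0 M ≤ Tm := by
    intro M hM
    have hMW : M + W0 ≤ 2 * n := by
      have : n + (4 * L + 6) * W = n + (4 * L + 5) * W + W := by ring
      omega
    have h1 := tau_max (tau := tau W0) (ast := ast s) (e := e s) (M := M) (W0 := W0) (R := R)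
      (Zm := Zm) (A := A) (a0 s) (t0 W0) (he0 s) hAl
      (fun N => hL W0 s N w3 hs) (hRb _ hMW) (fun N hN => by
        exact ((hef s N).trans (hfz s N)).trans (hzb N (by omega)))
    rw [hTm, le_div_iff₀ hA0]
    linarith
  set G0 : ℝ := C * (1 + (Nat.log 2 s : ℝ)) ^ C * Us with hG0
  set Gt : ℝ := C * Us ^ 2 * Real.exp (-((W : ℝ) / W0)) with hGt
  set η : ℝ := (n : ℝ) ^ (-(2 * σ)) with hη
  have hη0 : 0 < η := by positivity
  have hη1 : η ≤ 1 / 8 := by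
    rw [hη, Real.rpow_neg hnp.le, inv_eq_one_div]
    apply one_div_le_one_div_of_le (by norm_num) k3
  have hρ : 3 * C * G0 / A * R * η ≤ 1 / 100 := by
    have e1 : 3 * C * G0 / A * R * η =
        15 * C ^ 3 * (1 + (Nat.log 2 s : ℝ)) ^ C * ((n : ℝ) ^ σ * η) := by
      rw [hG0, hA, hR]; field_simp; ring
    have e2 : (n : ℝ) ^ σ * η = (n : ℝ) ^ (-σ) := by
      rw [hη, ← Real.rpow_add hnp]; congr 1; ring
    rw [e1, e2]
    refine le_trans ?_ k5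
    have e3 : (Nat.log 2 s : ℝ) ≤ Real.log n / Real.log 2 := by
      have hlog2 : (0 : ℝ) < Real.log 2 := Real.log_pos (by norm_num)
      rw [le_div_iff₀ hlog2]
      have h4 : (2 : ℝ) ^ (Nat.log 2 s) ≤ n := by
        refine le_trans ?_ hsn'
        exact_mod_cast Nat.pow_log_le_self 2 (by omega)
      have h5 := Real.log_le_log (by positivity) h4
      rwa [Real.log_pow] at h5
    gcongr
  have hsm : 9 * C * (Tm * Gt) ≤ 1 / 16 := by
    have e0 : (W : ℝ) / W0 = q := by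
      rw [hW]; push_cast; field_simp
    have e1 : Real.exp (-((W : ℝ) / W0)) ≤ (n : ℝ) ^ (-(2 * C + 4)) := by
      rw [e0, Real.rpow_def_of_pos hnp]
      apply Real.exp_le_exp.2
      nlinarith
    have e2 : 9 * C * (Tm * Gt) = 9 * C ^ 3 * Us * (W0 + 1) * R * Zm *
        Real.exp (-((W : ℝ) / W0)) := by
      rw [hTm, hGt, hA]; field_simp
    have e3 : Us ≤ C * (n : ℝ) ^ C := by
      refine (hU2 s hs).trans ?_
      gcongr
    rw [e2]
    refine le_trans ?_ k6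
    rw [hR, hZm]
    gcongr
    exact_mod_cast w1.trans hxn
  have hconc := fixed (z := z) (e := e s) (f := f s) (tau := tau W0) (g := g W0 s) (ast := ast s)
    (C := C) (Zm := Zm) (A := A) (R := R) (Gt := Gt) (Tm := Tm) (G0 := G0) (η := η) (n := n)
    (W := W) (W0 := W0) (L := L) k1 w3 hWW hz1 (fun N hN => hzb N (hN.trans hmax)) (he0 s) (hef s)
    (t0 W0) (g0 W0 s) (a0 s) hC0.le (fun N hN => hU W0 s N w3 hs hN) (fun N => hL W0 s N w3 hs)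
    (hM1 W0 s W w3 hs) (fun K => hM3 W0 s W K hs hsW) hAl hA0 (hRb _ hmax) hT hη0.le hη1 hρ hsm
    (by
      intro N hN1 hN2
      have h1 : (N : ℝ) ≤ n + (n : ℝ) ^ (1 - σ / 2) := by
        have h2 : N ≤ n + (4 * L + 6) * W := by
          have : n + (4 * L + 6) * W = n + (4 * L + 5) * W + W := by ring
          omega
        have h3 : (N : ℝ) ≤ ((n + (4 * L + 6) * W : ℕ) : ℝ) := by exact_mod_cast h2
        rw [Nat.cast_add] at h3
        linarith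
      exact (hcon N hN1 h1).le)
  have hten : (n : ℝ) ^ (2 * (C + 1)) ≤ 10 ^ L := by
    have h10 : (2 : ℝ) ≤ Real.log 10 := by
      rw [Real.le_log_iff_exp_le (by norm_num)]
      have h1 : Real.exp 2 = Real.exp 1 * Real.exp 1 := by rw [← Real.exp_add]; norm_num
      have h2 := Real.exp_one_lt_d9
      rw [h1]
      have h3 := Real.exp_pos 1
      nlinarith
    have h11 : (10 : ℝ) ^ L = Real.exp (L * Real.log 10) := by
      rw [mul_comm, Real.exp_mul, Real.exp_log (by norm_num), Real.rpow_natCast]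
    rw [h11, Real.rpow_def_of_pos hnp]
    apply Real.exp_le_exp.2
    have hL0 : (0 : ℝ) ≤ L := Nat.cast_nonneg _
    nlinarith
  linarith

end SDE
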